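import Mathlib

set_option autoImplicit false

/-! Basic definitions for the undecidability of the theory of free pro-`p` groups. -/

namespace Pool.Agent.Helper948.ProP

section words
variable {F : Type*} [Group F]

/-- the commutator `a b a⁻¹ b⁻¹` -/
def cm (a b : F) : F := a * b * a⁻¹ * b⁻¹

/-- `T_u(H) = H^{-(1+p²)} · u H u⁻¹`. -/
def TT (p : ℕ) (u H : F) : F := (H ^ (1 + p ^ 2))⁻¹ * (u * H * u⁻¹)

/-- the definable set `C(x)·[F,x]·[F,y]` -/
def NN (x y H : F) : Prop := ∃ k a b : F, k * x = x * k ∧ H = k * cm a x * cm b y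

/-- `g = T_u(H) [G,x]` with `H, G ∈ NN`. -/
def PP (p : ℕ) (x y g u : F) : Prop :=
  ∃ H G : F, NN x y H ∧ NN x y G ∧ g = TT p u H * cm G x

/-- the chain relation: for `x, y` part of a basis of a free pro-`p` group and `a = y ^ α`, `α ≥ 1`,
it holds exactly when `u = a ^ n` for some `n ≥ 1`. -/
def Chain (p : ℕ) (x y a u : F) : Prop :=
  ∃ g k : F, k * x = x * k ∧ k ≠ 1 ∧ PP p x y (g * k⁻¹) y ∧ PP p x y g (y * a ^ p) ∧
    ∀ v : F, v * y = y * v → PP p x y g (y * v ^ p) → v = u ∨ PP p x y g (y * (v * a) ^ p)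

/-- the coding elements -/
def gn (p : ℕ) (x y : F) (α : ℕ) : ℕ → F
  | 0 => x
  | n + 1 => TT p (y ^ (1 + p * α * (n + 1))) (gn p x y α n)

end words

/-- The finite-quotient interface of a free pro-`p` group with basis `ι`. -/
structure FinFree (p : ℕ) {X F : Type} [Group F] [TopologicalSpace F] (ι : X → F) : Prop where
  /-- maps of the basis to finite `p`-groups with finite support extend -/
  ex : ∀ (G : Type) [Group G] [Finite G], IsPGroup p G → ∀ f : X → G, {z | f z ≠ 1}.Finite →
    ∃ φ : F →* G, IsOpen (φ.ker : Set F) ∧ ∀ z, φ (ι z) = f z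
  /-- uniqueness of the extension -/
  uq : ∀ (G : Type) [Group G] [Finite G], IsPGroup p G → ∀ φ ψ : F →* G,
    IsOpen (φ.ker : Set F) → IsOpen (ψ.ker : Set F) → (∀ z, φ (ι z) = ψ (ι z)) → φ = ψ
  /-- almost all basis elements are killed by a homomorphism with open kernel -/
  fin : ∀ (G : Type) [Group G] [Finite G] (φ : F →* G), IsOpen (φ.ker : Set F) →
    {z | φ (ι z) ≠ 1}.Finite
  /-- finite `p`-quotients separate finitely many elements from `1` -/
  sep : ∀ s : Finset F, 1 ∉ s → ∃ (G : Type) (_ : Group G) (_ : Finite G) (φ : F →* G),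
    IsPGroup p G ∧ IsOpen (φ.ker : Set F) ∧ ∀ g ∈ s, φ g ≠ 1
  /-- compactness for the relation `PP` -/
  cmpP : ∀ x y g w : F, (∀ (G : Type) [Group G] [Finite G] (φ : F →* G), IsPGroup p G →
    Function.Surjective φ → IsOpen (φ.ker : Set F) → PP p (φ x) (φ y) (φ g) (φ w)) →
    PP p x y g w
  /-- compactness for the relation `PP` up to an element of the centralizer of `x` -/
  cmpK : ∀ x y g w : F, (∀ (G : Type) [Group G] [Finite G] (φ : F →* G), IsPGroup p G →
    Function.Surjective φ → IsOpen (φ.ker : Set F) →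
      ∃ k : G, k * φ x = φ x * k ∧ PP p (φ x) (φ y) (φ g * k⁻¹) (φ w)) →
    ∃ k : F, k * x = x * k ∧ PP p x y (g * k⁻¹) w

/-- A topological group is pro-`p`: compact Hausdorff, and the open normal subgroups of `p`-power
index form a neighbourhood basis of `1`. -/
structure IsProP (p : ℕ) (G : Type) [Group G] [TopologicalSpace G] : Prop where
  topGroup : IsTopologicalGroup G
  compact : CompactSpace G
  t2 : T2Space G
  basis : ∀ U ∈ nhds (1 : G), ∃ V : Subgroup G, V.Normal ∧ IsOpen (V : Set G) ∧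
    (V : Set G) ⊆ U ∧ ∃ k : ℕ, V.index = p ^ k

/-- every neighbourhood of `1` contains all but finitely many of the `f z` -/
def Conv {X G : Type} [Group G] [TopologicalSpace G] (f : X → G) : Prop :=
  ∀ U ∈ nhds (1 : G), {z | f z ∉ U}.Finite

/-- `F` is the free pro-`p` group on `X` (with the map `ι : X → F`). -/
structure IsFreeProP (p : ℕ) {X F : Type} [Group F] [TopologicalSpace F] (ι : X → F) : Prop where
  proP : IsProP p F
  conv : Conv ι
  lift : ∀ (G : Type) [Group G] [TopologicalSpace G], IsProP p G → ∀ f : X → G, Conv f →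
    ∃! φ : F →ₜ* G, ∀ z, φ (ι z) = f z

end Pool.Agent.Helper948.ProP
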