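import Mathlib
import Pool.Agent.Helper948.ProP.Defs

set_option autoImplicit false

namespace Pool.Agent.Helper948.ProP.AffG

open Pool.Agent.Helper948.ProP




/-- the group `ℤ/p^m ⋊ ℤ/p^m`, the second factor acting through powers of `1 + p²` -/
@[ext] structure Aff (p m : ℕ) where
  b : ZMod (p ^ m)
  j : ZMod (p ^ m)

/-- `j ↦ (1+p²)^j` -/
def om (p m : ℕ) (j : ZMod (p ^ m)) : ZMod (p ^ m) := (1 + (p : ZMod (p ^ m)) ^ 2) ^ j.val

variable (p m : ℕ) [Fact p.Prime]

theorem j13235_pow : (1 + (p : ZMod (p ^ m)) ^ 2) ^ (p ^ m) = 1 := by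
  have h1 : ((p : ℕ) : ZMod (p ^ m)) ∣ (1 + (p : ZMod (p ^ m)) ^ 2) - 1 := by
    rw [add_sub_cancel_left, sq]
    exact dvd_mul_right _ _
  have h2 := dvd_sub_pow_of_dvd_sub h1 m
  have h3 : ((p : ZMod (p ^ m)) ^ (m + 1)) = 0 := by
    rw [pow_succ, ← Nat.cast_pow, ZMod.natCast_self, zero_mul]
  rw [h3, zero_dvd_iff, one_pow] at h2
  exact sub_eq_zero.1 h2

theorem j13235_pow_mod (n : ℕ) : (1 + (p : ZMod (p ^ m)) ^ 2) ^ (n % p ^ m) =
    (1 + (p : ZMod (p ^ m)) ^ 2) ^ n := by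
  conv_rhs => rw [← Nat.div_add_mod n (p ^ m)]
  rw [pow_add, pow_mul, j13235_pow, one_pow, one_mul]

theorem om_natCast (n : ℕ) :
    om p m (n : ZMod (p ^ m)) = (1 + (p : ZMod (p ^ m)) ^ 2) ^ n := by
  unfold om
  rw [ZMod.val_natCast, j13235_pow_mod]

theorem om_zero : om p m 0 = 1 := by
  unfold om
  rw [ZMod.val_zero, pow_zero]

theorem om_add (i j : ZMod (p ^ m)) : om p m (i + j) = om p m i * om p m j := by
  haveI : NeZero (p ^ m) := ⟨pow_ne_zero _ (Fact.out : p.Prime).ne_zero⟩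
  unfold om
  rw [ZMod.val_add, j13235_pow_mod, pow_add]

instance : Group (Aff p m) where
  mul s t := ⟨s.b + om p m s.j * t.b, s.j + t.j⟩
  one := ⟨0, 0⟩
  inv s := ⟨-(om p m (-s.j) * s.b), -s.j⟩
  mul_assoc s t u := by
    ext
    · show (s.b + om p m s.j * t.b) + om p m (s.j + t.j) * u.b =
        s.b + om p m s.j * (t.b + om p m t.j * u.b)
      rw [om_add]; ring
    · show s.j + t.j + u.j = s.j + (t.j + u.j)
      ring
  one_mul s := by
    ext
    · show 0 + om p m 0 * s.b = s.b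
      rw [om_zero]; ring
    · show 0 + s.j = s.j
      ring
  mul_one s := by
    ext
    · show s.b + om p m s.j * 0 = s.b
      ring
    · show s.j + 0 = s.j
      ring
  inv_mul_cancel s := by
    ext
    · show -(om p m (-s.j) * s.b) + om p m (-s.j) * s.b = 0
      ring
    · show -s.j + s.j = 0
      ring

instance : Finite (Aff p m) := by
  haveI : NeZero (p ^ m) := ⟨pow_ne_zero _ (Fact.out : p.Prime).ne_zero⟩
  refine Finite.of_injective (fun s : Aff p m => (s.b, s.j)) ?_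
  intro s t h
  have h1 := congrArg Prod.fst h
  have h2 := congrArg Prod.snd h
  exact Aff.ext h1 h2

theorem isPGroup_aff : IsPGroup p (Aff p m) := by
  haveI : NeZero (p ^ m) := ⟨pow_ne_zero _ (Fact.out : p.Prime).ne_zero⟩
  refine IsPGroup.of_card (n := m + m) ?_
  let eqv : Aff p m ≃ ZMod (p ^ m) × ZMod (p ^ m) :=
    { toFun := fun s => (s.b, s.j)
      invFun := fun t => ⟨t.1, t.2⟩
      left_inv := fun _ => rfl
      right_inv := fun _ => rfl }
  rw [Nat.card_congr eqv, Nat.card_prod, Nat.card_zmod, pow_add]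

theorem j13235_mul_b (s t : Aff p m) : (s * t).b = s.b + om p m s.j * t.b := rfl
theorem j13235_mul_j (s t : Aff p m) : (s * t).j = s.j + t.j := rfl
theorem j13235_inv_b (s : Aff p m) : (s⁻¹).b = -(om p m (-s.j) * s.b) := rfl
theorem j13235_inv_j (s : Aff p m) : (s⁻¹).j = -s.j := rfl
theorem j13235_one_b : (1 : Aff p m).b = 0 := rfl
theorem j13235_one_j : (1 : Aff p m).j = 0 := rfl

theorem j13235_om_neg (i : ZMod (p ^ m)) : om p m i * om p m (-i) = 1 := by
  rw [← om_add, add_neg_cancel, om_zero]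

theorem j13235_om_neg_one {i : ZMod (p ^ m)} (h : om p m i = 1) : om p m (-i) = 1 := by
  have := j13235_om_neg p m i
  rwa [h, one_mul] at this

theorem j13235_pow_j (s : Aff p m) (n : ℕ) : (s ^ n).j = n * s.j := by
  induction n with
  | zero => rw [pow_zero, j13235_one_j]; simp
  | succ n ih => rw [pow_succ, j13235_mul_j, ih]; push_cast; ring

theorem j13235_om_mul {i : ZMod (p ^ m)} (h : om p m i = 1) (n : ℕ) :
    om p m (n * i) = 1 := by
  induction n with
  | zero => rw [Nat.cast_zero, zero_mul, om_zero]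
  | succ n ih =>
    have : ((n + 1 : ℕ) : ZMod (p ^ m)) * i = n * i + i := by push_cast; ring
    rw [this, om_add, ih, h, one_mul]

theorem j13235_pow_b {s : Aff p m} (h : om p m s.j = 1) (n : ℕ) : (s ^ n).b = n * s.b := by
  induction n with
  | zero => rw [pow_zero, j13235_one_b]; simp
  | succ n ih =>
    rw [pow_succ, j13235_mul_b, ih, j13235_pow_j, j13235_om_mul p m h]
    push_cast; ring

theorem j13235_TT_b {w H : Aff p m} (h : om p m H.j = 1) :
    (TT p w H).b = (om p m w.j - (1 + (p : ZMod (p ^ m)) ^ 2)) * H.b := by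
  unfold TT
  have h1 : om p m (-(((1 + p ^ 2 : ℕ) : ZMod (p ^ m)) * H.j)) = 1 :=
    j13235_om_neg_one p m (j13235_om_mul p m h _)
  simp only [j13235_mul_b, j13235_mul_j, j13235_inv_b, j13235_inv_j, j13235_pow_j,
    j13235_pow_b p m h, h1, om_add, h]
  have h2 := j13235_om_neg p m w.j
  push_cast
  linear_combination (-w.b) * h2

theorem j13235_TT_j (w H : Aff p m) :
    (TT p w H).j = -((1 + (p : ZMod (p ^ m)) ^ 2) * H.j) + H.j := by
  unfold TT
  simp only [j13235_mul_j, j13235_inv_j, j13235_pow_j]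
  push_cast
  ring

theorem j13235_NN {y H : Aff p m} (h : NN (⟨1, 0⟩ : Aff p m) y H) : om p m H.j = 1 := by
  obtain ⟨k, a, b, hk, rfl⟩ := h
  have h1 : (k * ⟨1, 0⟩ : Aff p m).b = (⟨1, 0⟩ * k : Aff p m).b := by rw [hk]
  simp only [j13235_mul_b, om_zero] at h1
  have h2 : om p m k.j = 1 := by linear_combination h1
  have h3 : (k * cm a (⟨1, 0⟩ : Aff p m) * cm b y).j = k.j := by
    unfold cm
    simp only [j13235_mul_j, j13235_inv_j]
    ring
  rw [h3, h2]

theorem j13235_cm {G : Aff p m} (h : om p m G.j = 1) : (cm G (⟨1, 0⟩ : Aff p m)).b = 0 := by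
  unfold cm
  have h1 := j13235_om_neg_one p m h
  simp only [j13235_mul_b, j13235_mul_j, j13235_inv_b, j13235_inv_j, om_add, h, h1, om_zero,
    neg_zero]
  ring

/-- soundness: the relation `PP` forces the translation part to vanish -/
theorem PP_b (x y g w : Aff p m) (hx : x = ⟨1, 0⟩) (hw : om p m w.j = 1 + (p : ZMod (p ^ m)) ^ 2)
    (h : PP p x y g w) : g.b = 0 := by
  obtain ⟨H, G, hH, hG, rfl⟩ := h
  subst hx
  rw [j13235_mul_b, j13235_TT_b p m (j13235_NN p m hH), j13235_cm p m (j13235_NN p m hG), hw]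
  ring

/-- the image of the coding elements -/
theorem gn_aff (c : ZMod (p ^ m)) (α n : ℕ) :
    gn p (⟨1, 0⟩ : Aff p m) ⟨0, c⟩ α n =
      ⟨∏ j ∈ Finset.range n, (om p m (c * (1 + p * α * (j + 1))) -
        (1 + (p : ZMod (p ^ m)) ^ 2)), 0⟩ := by
  induction n with
  | zero => simp [gn]
  | succ n ih =>
    have h1 : om p m (gn p (⟨1, 0⟩ : Aff p m) ⟨0, c⟩ α n).j = 1 := by
      rw [ih]; exact om_zero p m
    have hstep : gn p (⟨1, 0⟩ : Aff p m) ⟨0, c⟩ α (n + 1) =
      TT p ((⟨0, c⟩ : Aff p m) ^ (1 + p * α * (n + 1))) (gn p (⟨1, 0⟩ : Aff p m) ⟨0, c⟩ α n) :=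
      rfl
    apply Aff.ext
    · rw [hstep, j13235_TT_b p m h1, j13235_pow_j, ih, Finset.prod_range_succ, mul_comm]
      have h2 : ((1 + p * α * (n + 1) : ℕ) : ZMod (p ^ m)) * c =
          c * (1 + p * α * (n + 1)) := by
        push_cast; ring
      simp only [h2]
    · rw [hstep, j13235_TT_j, ih]
      simp


end Pool.Agent.Helper948.ProP.AffG
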