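import Mathlib

set_option autoImplicit false

namespace Pool.Agent.Helper948.ProP

/-- atomic constraints on a sequence of naturals -/
inductive At
  | one (i : ℕ)
  | add (i j k : ℕ)
  | mul (i j k : ℕ)

/-- the constraint holds -/
def At.Holds (x : ℕ → ℕ) : At → Prop
  | .one i => x i = 1
  | .add i j k => x i + x j = x k
  | .mul i j k => x i * x j = x k

end Pool.Agent.Helper948.ProP
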