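import Mathlib
import Pool.Agent.Helper948.ProP.Defs

set_option autoImplicit false

namespace Pool.Agent.Helper948.ProP.B1

open Pool.Agent.Helper948.ProP




theorem b1_disc (p : ℕ) [Fact p.Prime] (G : Type) [Group G] [Finite G] (hG : IsPGroup p G)
    [TopologicalSpace G] [DiscreteTopology G] : IsProP p G where
  topGroup := inferInstance
  compact := inferInstance
  t2 := inferInstance
  basis := by
    intro U hU
    obtain ⟨k, hk⟩ := IsPGroup.iff_card.mp hG
    refine ⟨⊥, inferInstance, isOpen_discrete _, ?_, k, ?_⟩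
    · intro x hx
      have : x = 1 := hx
      rw [this]
      exact mem_of_mem_nhds hU
    · rw [Subgroup.index_bot, hk]

theorem b1_cont {F G : Type} [Group F] [TopologicalSpace F] [IsTopologicalGroup F] [Group G]
    [TopologicalSpace G] [DiscreteTopology G] (φ : F →* G) (h : IsOpen (φ.ker : Set F)) :
    Continuous φ := by
  refine continuous_of_continuousAt_one φ ?_
  rw [ContinuousAt, map_one, nhds_discrete G, Filter.tendsto_pure]
  exact h.mem_nhds (one_mem φ.ker)

/-- the four algebraic parts of the finite-quotient interface -/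
theorem finFree_basic (p : ℕ) [Fact p.Prime] {X F : Type} [Group F] [TopologicalSpace F]
    (ι : X → F) (h : IsFreeProP p ι) :
    (∀ (G : Type) [Group G] [Finite G], IsPGroup p G → ∀ f : X → G, {z | f z ≠ 1}.Finite →
      ∃ φ : F →* G, IsOpen (φ.ker : Set F) ∧ ∀ z, φ (ι z) = f z) ∧
    (∀ (G : Type) [Group G] [Finite G], IsPGroup p G → ∀ φ ψ : F →* G,
      IsOpen (φ.ker : Set F) → IsOpen (ψ.ker : Set F) → (∀ z, φ (ι z) = ψ (ι z)) → φ = ψ) ∧
    (∀ (G : Type) [Group G] [Finite G] (φ : F →* G), IsOpen (φ.ker : Set F) →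
      {z | φ (ι z) ≠ 1}.Finite) ∧
    (∀ s : Finset F, 1 ∉ s → ∃ (G : Type) (_ : Group G) (_ : Finite G) (φ : F →* G),
      IsPGroup p G ∧ IsOpen (φ.ker : Set F) ∧ ∀ g ∈ s, φ g ≠ 1) := by
  have hT := h.proP.topGroup
  refine ⟨?_, ?_, ?_, ?_⟩
  · intro G _ _ hG f hf
    let : TopologicalSpace G := ⊥
    have : DiscreteTopology G := ⟨rfl⟩
    have hc : Conv f := by
      intro U hU
      refine hf.subset ?_
      intro z hz h1
      apply hz
      rw [h1]
      exact mem_of_mem_nhds hU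
    obtain ⟨φ, hφ, -⟩ := h.lift G (b1_disc p G hG) f hc
    refine ⟨φ.toMonoidHom, ?_, hφ⟩
    have h1 : IsOpen (φ ⁻¹' {1}) := (isOpen_discrete _).preimage φ.continuous_toFun
    exact h1
  · intro G _ _ hG φ ψ hφ hψ heq
    let : TopologicalSpace G := ⊥
    have : DiscreteTopology G := ⟨rfl⟩
    let φ' : F →ₜ* G := ⟨φ, b1_cont φ hφ⟩
    let ψ' : F →ₜ* G := ⟨ψ, b1_cont ψ hψ⟩
    have hc : Conv (fun z => φ (ι z)) := by
      intro U hU
      have h1 := h.conv (φ ⁻¹' U) ((b1_cont φ hφ).continuousAt.preimage_mem_nhds (by rwa [map_one]))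
      exact h1
    have h2 := (h.lift G (b1_disc p G hG) (fun z => φ (ι z)) hc).unique (y₁ := φ') (y₂ := ψ')
      (fun z => rfl) (fun z => (heq z).symm)
    exact congrArg (fun χ : F →ₜ* G => χ.toMonoidHom) h2
  · intro G _ _ φ hφ
    exact h.conv (φ.ker : Set F) (hφ.mem_nhds (one_mem φ.ker))
  · intro s hs
    have ht2 := h.proP.t2
    have hU : ((s : Set F)ᶜ) ∈ nhds (1 : F) :=
      (s.finite_toSet.isClosed.isOpen_compl).mem_nhds (by simpa using hs)
    obtain ⟨V, hV, hVo, hVU, k, hk⟩ := h.proP.basis _ hU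
    have hp : p ≠ 0 := (Fact.out : p.Prime).ne_zero
    have : V.FiniteIndex := ⟨by rw [hk]; exact pow_ne_zero _ hp⟩
    refine ⟨F ⧸ V, inferInstance, inferInstance, QuotientGroup.mk' V, ?_, ?_, ?_⟩
    · exact IsPGroup.of_card (n := k) (by rw [← hk]; rfl)
    · rw [QuotientGroup.ker_mk']; exact hVo
    · intro g hg h1
      have h2 : g ∈ V := by
        rw [← QuotientGroup.ker_mk' V]; exact h1
      exact hVU h2 hg




end Pool.Agent.Helper948.ProP.B1
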