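import Mathlib
import Pool.Agent.Helper948.ProP.Defs

set_option autoImplicit false

namespace Pool.Agent.Helper948.ProP.B2

open Pool.Agent.Helper948.ProP




theorem B2_map_cm {F G : Type*} [Group F] [Group G] (φ : F →* G) (a b : F) :
    φ (cm a b) = cm (φ a) (φ b) := by
  simp only [cm, map_mul, map_inv]

theorem B2_map_TT (p : ℕ) {F G : Type*} [Group F] [Group G] (φ : F →* G) (u H : F) :
    φ (TT p u H) = TT p (φ u) (φ H) := by
  simp only [TT, map_mul, map_inv, map_pow]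

/-- compactness: a continuous system of equations solvable modulo every open normal subgroup of
`p`-power index is solvable -/
theorem compact_solve (p : ℕ) {F : Type} [Group F] [TopologicalSpace F] (h : IsProP p F)
    (n m : ℕ) (Θ : (Fin n → F) → Fin m → F) (hΘ : Continuous Θ)
    (hex : ∀ V : Subgroup F, V.Normal → IsOpen (V : Set F) → (∃ k : ℕ, V.index = p ^ k) →
      ∃ t, ∀ i, Θ t i ∈ V) : ∃ t, ∀ i, Θ t i = 1 := by
  have htg := h.topGroup
  have hc := h.compact
  have ht2 := h.t2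
  let I := {V : Subgroup F // V.Normal ∧ IsOpen (V : Set F) ∧ ∃ k : ℕ, V.index = p ^ k}
  let S : I → Set (Fin n → F) := fun V => {t | ∀ i, Θ t i ∈ V.1}
  haveI hne : Nonempty I := by
    obtain ⟨V, h1, h2, _, h3⟩ := h.basis Set.univ Filter.univ_mem
    exact ⟨⟨V, h1, h2, h3⟩⟩
  have hcl : ∀ V : I, IsClosed (S V) := by
    intro V
    have hV : IsClosed (V.1 : Set F) := V.1.isClosed_of_isOpen V.2.2.1
    have hS : S V = ⋂ i, (fun t => Θ t i) ⁻¹' (V.1 : Set F) := by
      ext t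
      simp only [S, Set.mem_setOf_eq, Set.mem_iInter, Set.mem_preimage, SetLike.mem_coe]
    rw [hS]
    exact isClosed_iInter (fun i => hV.preimage ((continuous_apply i).comp hΘ))
  have hdir : Directed (· ⊇ ·) S := by
    intro V W
    have hU : ((V.1 : Set F) ∩ (W.1 : Set F)) ∈ nhds (1 : F) :=
      Filter.inter_mem (V.2.2.1.mem_nhds V.1.one_mem) (W.2.2.1.mem_nhds W.1.one_mem)
    obtain ⟨U, h1, h2, h3, h4⟩ := h.basis _ hU
    refine ⟨⟨U, h1, h2, h4⟩, ?_, ?_⟩
    · intro t ht i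
      exact (h3 (ht i)).1
    · intro t ht i
      exact (h3 (ht i)).2
  have hnon : ∀ V : I, (S V).Nonempty := by
    intro V
    obtain ⟨t, ht⟩ := hex V.1 V.2.1 V.2.2.1 V.2.2.2
    exact ⟨t, ht⟩
  obtain ⟨t, ht⟩ := IsCompact.nonempty_iInter_of_directed_nonempty_isCompact_isClosed S hdir hnon
    (fun V => (hcl V).isCompact) hcl
  refine ⟨t, fun i => ?_⟩
  by_contra hne1
  have hU : ({Θ t i}ᶜ : Set F) ∈ nhds (1 : F) :=
    isOpen_compl_singleton.mem_nhds (fun h => hne1 h.symm)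
  obtain ⟨V, h1, h2, h3, h4⟩ := h.basis _ hU
  have h5 : t ∈ S ⟨V, h1, h2, h4⟩ := Set.mem_iInter.1 ht _
  exact h3 (h5 i) rfl

theorem B2_quot (p : ℕ) [Fact p.Prime] {F : Type} [Group F] (V : Subgroup F) [V.Normal]
    (hk : ∃ k : ℕ, V.index = p ^ k) : Finite (F ⧸ V) ∧ IsPGroup p (F ⧸ V) := by
  obtain ⟨k, hk⟩ := hk
  have hne : V.index ≠ 0 := by
    rw [hk]; exact pow_ne_zero _ (Fact.out : p.Prime).ne_zero
  have hfi : V.FiniteIndex := ⟨hne⟩
  refine ⟨inferInstance, IsPGroup.of_card (n := k) ?_⟩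
  rw [← Subgroup.index_eq_card, hk]

/-- compactness for the relation `PP` -/
theorem cmpP (p : ℕ) [Fact p.Prime] {F : Type} [Group F] [TopologicalSpace F] (h : IsProP p F)
    (x y g w : F) (hyp : ∀ (G : Type) [Group G] [Finite G] (φ : F →* G), IsPGroup p G →
      Function.Surjective φ → IsOpen (φ.ker : Set F) → PP p (φ x) (φ y) (φ g) (φ w)) :
    PP p x y g w := by
  have htg := h.topGroup
  obtain ⟨t, ht⟩ := compact_solve p h 6 3
    (fun t => ![t 0 * x * (t 0)⁻¹ * x⁻¹, t 3 * x * (t 3)⁻¹ * x⁻¹,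
      g⁻¹ * (TT p w (t 0 * cm (t 1) x * cm (t 2) y) * cm (t 3 * cm (t 4) x * cm (t 5) y) x)])
    (by
      refine continuous_pi (fun i => ?_)
      fin_cases i
      · simp only [Fin.zero_eta, Matrix.cons_val_zero]
        fun_prop
      · simp only [Fin.mk_one, Matrix.cons_val_one, Matrix.cons_val_zero]
        fun_prop
      · simp only [Fin.reduceFinMk, Matrix.cons_val, TT, cm]
        fun_prop)
    (by
      intro V hVn hVo hVk
      obtain ⟨hfin, hpg⟩ := B2_quot p V hVk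
      have hs : Function.Surjective (QuotientGroup.mk' V) := QuotientGroup.mk'_surjective V
      obtain ⟨H, G, ⟨k, a, b, hk, hH⟩, ⟨k', a', b', hk', hG⟩, hg⟩ :=
        hyp (F ⧸ V) (QuotientGroup.mk' V) hpg hs (by rw [QuotientGroup.ker_mk']; exact hVo)
      obtain ⟨k, rfl⟩ := hs k
      obtain ⟨a, rfl⟩ := hs a
      obtain ⟨b, rfl⟩ := hs b
      obtain ⟨k', rfl⟩ := hs k'
      obtain ⟨a', rfl⟩ := hs a'
      obtain ⟨b', rfl⟩ := hs b'
      have hV : ∀ z : F, QuotientGroup.mk' V z = 1 → z ∈ V := fun z hz =>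
        (QuotientGroup.eq_one_iff z).1 hz
      refine ⟨![k, a, b, k', a', b'], fun i => hV _ ?_⟩
      fin_cases i
      · simp only [Fin.zero_eta, Matrix.cons_val, map_mul, map_inv]
        rw [hk]; group
      · simp only [Fin.mk_one, Matrix.cons_val, map_mul, map_inv]
        rw [hk']; group
      · simp only [Fin.reduceFinMk, Matrix.cons_val, map_mul, map_inv, B2_map_TT, B2_map_cm]
        rw [hg, hH, hG]; group)
  have h0 := ht 0
  have h1 := ht 1
  have h2 := ht 2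
  simp only [Matrix.cons_val] at h0 h1 h2
  refine ⟨_, _, ⟨t 0, t 1, t 2, ?_, rfl⟩, ⟨t 3, t 4, t 5, ?_, rfl⟩, ?_⟩
  · exact mul_inv_eq_iff_eq_mul.1 (mul_inv_eq_one.1 h0)
  · exact mul_inv_eq_iff_eq_mul.1 (mul_inv_eq_one.1 h1)
  · exact inv_mul_eq_one.1 h2

/-- compactness for the relation `PP` up to an element of the centralizer of `x` -/
theorem cmpK (p : ℕ) [Fact p.Prime] {F : Type} [Group F] [TopologicalSpace F] (h : IsProP p F)
    (x y g w : F) (hyp : ∀ (G : Type) [Group G] [Finite G] (φ : F →* G), IsPGroup p G →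
      Function.Surjective φ → IsOpen (φ.ker : Set F) →
        ∃ k : G, k * φ x = φ x * k ∧ PP p (φ x) (φ y) (φ g * k⁻¹) (φ w)) :
    ∃ k : F, k * x = x * k ∧ PP p x y (g * k⁻¹) w := by
  have htg := h.topGroup
  obtain ⟨t, ht⟩ := compact_solve p h 7 4
    (fun t => ![t 0 * x * (t 0)⁻¹ * x⁻¹, t 3 * x * (t 3)⁻¹ * x⁻¹,
      (g * (t 6)⁻¹)⁻¹ * (TT p w (t 0 * cm (t 1) x * cm (t 2) y) *
        cm (t 3 * cm (t 4) x * cm (t 5) y) x), t 6 * x * (t 6)⁻¹ * x⁻¹])
    (by
      refine continuous_pi (fun i => ?_)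
      fin_cases i
      · simp only [Fin.zero_eta, Matrix.cons_val_zero]
        fun_prop
      · simp only [Fin.mk_one, Matrix.cons_val_one, Matrix.cons_val_zero]
        fun_prop
      · simp only [Fin.reduceFinMk, Matrix.cons_val, TT, cm]
        fun_prop
      · simp only [Fin.reduceFinMk, Matrix.cons_val]
        fun_prop)
    (by
      intro V hVn hVo hVk
      obtain ⟨hfin, hpg⟩ := B2_quot p V hVk
      have hs : Function.Surjective (QuotientGroup.mk' V) := QuotientGroup.mk'_surjective V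
      obtain ⟨k0, hk0, H, G, ⟨k, a, b, hk, hH⟩, ⟨k', a', b', hk', hG⟩, hg⟩ :=
        hyp (F ⧸ V) (QuotientGroup.mk' V) hpg hs (by rw [QuotientGroup.ker_mk']; exact hVo)
      obtain ⟨k0, rfl⟩ := hs k0
      obtain ⟨k, rfl⟩ := hs k
      obtain ⟨a, rfl⟩ := hs a
      obtain ⟨b, rfl⟩ := hs b
      obtain ⟨k', rfl⟩ := hs k'
      obtain ⟨a', rfl⟩ := hs a'
      obtain ⟨b', rfl⟩ := hs b'
      have hV : ∀ z : F, QuotientGroup.mk' V z = 1 → z ∈ V := fun z hz =>
        (QuotientGroup.eq_one_iff z).1 hz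
      refine ⟨![k, a, b, k', a', b', k0], fun i => hV _ ?_⟩
      fin_cases i
      · simp only [Fin.zero_eta, Matrix.cons_val, map_mul, map_inv]
        rw [hk]; group
      · simp only [Fin.mk_one, Matrix.cons_val, map_mul, map_inv]
        rw [hk']; group
      · simp only [Fin.reduceFinMk, Matrix.cons_val, map_mul, map_inv, B2_map_TT, B2_map_cm]
        rw [hg, hH, hG]; group
      · simp only [Fin.reduceFinMk, Matrix.cons_val, map_mul, map_inv]
        rw [hk0]; group)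
  have h0 := ht 0
  have h1 := ht 1
  have h2 := ht 2
  have h3 := ht 3
  simp only [Matrix.cons_val] at h0 h1 h2 h3
  refine ⟨t 6, ?_, _, _, ⟨t 0, t 1, t 2, ?_, rfl⟩, ⟨t 3, t 4, t 5, ?_, rfl⟩, ?_⟩
  · exact mul_inv_eq_iff_eq_mul.1 (mul_inv_eq_one.1 h3)
  · exact mul_inv_eq_iff_eq_mul.1 (mul_inv_eq_one.1 h0)
  · exact mul_inv_eq_iff_eq_mul.1 (mul_inv_eq_one.1 h1)
  · exact inv_mul_eq_one.1 h2



end Pool.Agent.Helper948.ProP.B2
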