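import Mathlib
import Pool.Agent.Helper948.ProP.Defs

set_option autoImplicit false

namespace Pool.Agent.Helper948.ProP.Central

open Pool.Agent.Helper948.ProP


/-- functions on `Ω` extended by the group acting -/
@[ext] structure Wr {H Ω : Type} [Group H] (θ : H →* Equiv.Perm Ω) (p : ℕ) where
  v : Ω → ZMod p
  g : H

namespace Wr

variable {H Ω : Type} [Group H] (θ : H →* Equiv.Perm Ω) (p : ℕ)

instance : Group (Wr θ p) where
  mul s t := ⟨fun ω => s.v ω + t.v ((θ s.g)⁻¹ ω), s.g * t.g⟩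
  one := ⟨fun _ => 0, 1⟩
  inv s := ⟨fun ω => - s.v (θ s.g ω), s.g⁻¹⟩
  mul_assoc s t u := by
    ext
    · rename_i ω
      show (s.v ω + t.v ((θ s.g)⁻¹ ω)) + u.v ((θ (s.g * t.g))⁻¹ ω) =
        s.v ω + (t.v ((θ s.g)⁻¹ ω) + u.v ((θ t.g)⁻¹ ((θ s.g)⁻¹ ω)))
      rw [map_mul, mul_inv_rev, Equiv.Perm.mul_apply, add_assoc]
    · show s.g * t.g * u.g = s.g * (t.g * u.g)
      exact mul_assoc _ _ _
  one_mul s := by
    ext
    · rename_i ω
      show 0 + s.v ((θ 1)⁻¹ ω) = s.v ω
      simp
    · show 1 * s.g = s.g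
      simp
  mul_one s := by
    ext
    · rename_i ω
      show s.v ω + 0 = s.v ω
      simp
    · show s.g * 1 = s.g
      simp
  inv_mul_cancel s := by
    ext
    · rename_i ω
      show - s.v (θ s.g ω) + s.v ((θ s.g⁻¹)⁻¹ ω) = 0
      simp
    · show s.g⁻¹ * s.g = 1
      simp

theorem mul_v (s t : Wr θ p) (ω : Ω) : (s * t).v ω = s.v ω + t.v ((θ s.g)⁻¹ ω) := rfl
theorem mul_g (s t : Wr θ p) : (s * t).g = s.g * t.g := rfl
theorem one_v (ω : Ω) : (1 : Wr θ p).v ω = 0 := rfl
theorem one_g : (1 : Wr θ p).g = 1 := rfl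

/-- underlying equivalence -/
def equivProd : Wr θ p ≃ (Ω → ZMod p) × H where
  toFun s := (s.v, s.g)
  invFun s := ⟨s.1, s.2⟩
  left_inv _ := rfl
  right_inv _ := rfl

instance [Finite H] [Finite Ω] [NeZero p] : Finite (Wr θ p) :=
  Finite.of_equiv _ (equivProd θ p).symm

theorem isPGroup [Finite H] [Finite Ω] [hp : Fact p.Prime] (hH : IsPGroup p H) :
    IsPGroup p (Wr θ p) := by
  obtain ⟨n, hn⟩ := IsPGroup.iff_card.mp hH
  apply IsPGroup.of_card (n := Nat.card Ω + n)
  rw [Nat.card_congr (equivProd θ p), Nat.card_prod, hn, Nat.card_fun, Nat.card_zmod, pow_add]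

/-- projection -/
def pr : Wr θ p →* H where
  toFun s := s.g
  map_one' := rfl
  map_mul' _ _ := rfl

/-- principal derivation -/
noncomputable def D [DecidableEq Ω] (o : Ω) : H →* Wr θ p where
  toFun h := ⟨fun ω => (if ω = θ h o then 1 else 0) - (if ω = o then 1 else 0), h⟩
  map_one' := by
    ext
    · rename_i ω
      show (if ω = θ 1 o then (1 : ZMod p) else 0) - (if ω = o then 1 else 0) = 0
      simp
    · rfl
  map_mul' a b := by
    ext
    · rename_i ω
      show (if ω = θ (a * b) o then (1 : ZMod p) else 0) - (if ω = o then 1 else 0) =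
        ((if ω = θ a o then (1 : ZMod p) else 0) - (if ω = o then 1 else 0)) +
        ((if (θ a)⁻¹ ω = θ b o then (1 : ZMod p) else 0) - (if (θ a)⁻¹ ω = o then 1 else 0))
      have h1 : ((θ a)⁻¹ ω = θ b o) ↔ (ω = θ (a * b) o) := by
        rw [map_mul, Equiv.Perm.mul_apply, Equiv.Perm.inv_eq_iff_eq]
      have h2 : ((θ a)⁻¹ ω = o) ↔ (ω = θ a o) := by
        rw [Equiv.Perm.inv_eq_iff_eq]
      simp only [h1, h2]
      ring
    · rfl

end Wr

theorem isPGroup_prod {p : ℕ} {A B : Type} [Group A] [Group B] (hA : IsPGroup p A)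
    (hB : IsPGroup p B) : IsPGroup p (A × B) := by
  intro g
  obtain ⟨m, hm⟩ := hA g.1
  obtain ⟨n, hn⟩ := hB g.2
  refine ⟨m + n, ?_⟩
  ext
  · show g.1 ^ (p ^ (m + n)) = 1
    rw [pow_add, pow_mul, hm, one_pow]
  · show g.2 ^ (p ^ (m + n)) = 1
    rw [add_comm, pow_add, pow_mul, hn, one_pow]

section iface

variable (p : ℕ) {X F : Type} [Group F] [TopologicalSpace F]
    (ι : X → F)
    (ex : ∀ (G : Type) [Group G] [Finite G], IsPGroup p G → ∀ f : X → G, {z | f z ≠ 1}.Finite →
      ∃ φ : F →* G, IsOpen (φ.ker : Set F) ∧ ∀ z, φ (ι z) = f z)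
    (uq : ∀ (G : Type) [Group G] [Finite G], IsPGroup p G → ∀ φ ψ : F →* G,
      IsOpen (φ.ker : Set F) → IsOpen (ψ.ker : Set F) → (∀ z, φ (ι z) = ψ (ι z)) → φ = ψ)
    (fin : ∀ (G : Type) [Group G] [Finite G] (φ : F →* G), IsOpen (φ.ker : Set F) →
      {z | φ (ι z) ≠ 1}.Finite)

include ex uq fin in
theorem gen_image (W : Type) [Group W] [Finite W] (hW : IsPGroup p W) (χ : F →* W)
    (hχ : IsOpen (χ.ker : Set F)) (S : Subgroup W) (hS : ∀ z, χ (ι z) ∈ S) (w : F) :
    χ w ∈ S := by
  obtain ⟨φ0, h0, h1⟩ := ex S (hW.to_subgroup S) (fun z => ⟨χ (ι z), hS z⟩) (by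
    refine (fin W χ hχ).subset ?_
    intro z hz h
    apply hz
    ext
    exact h)
  have hk : (S.subtype.comp φ0).ker = φ0.ker := by
    ext a
    simp [MonoidHom.mem_ker]
  have := uq W hW (S.subtype.comp φ0) χ (by rw [hk]; exact h0) hχ (by
    intro z
    simp [h1])
  rw [← this]
  exact (φ0 w).2

include ex uq fin in
theorem eq_comp (W W2 : Type) [Group W] [Finite W] [Group W2] [Finite W2] (hW : IsPGroup p W)
    (hW2 : IsPGroup p W2) (χ : F →* W) (hχ : IsOpen (χ.ker : Set F)) (P : W →* W2)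
    (χ2 : F →* W2) (hχ2 : IsOpen (χ2.ker : Set F)) (h : ∀ z, χ2 (ι z) = P (χ (ι z))) (w : F) :
    χ2 w = P (χ w) := by
  have hker : ((χ.prod χ2).ker : Set F) = (χ.ker : Set F) ∩ (χ2.ker : Set F) := by
    ext a
    simp [MonoidHom.mem_ker, Prod.ext_iff]
  have := gen_image p ι ex uq fin (W × W2) (isPGroup_prod hW hW2) (χ.prod χ2)
    (by rw [hker]; exact hχ.inter hχ2)
    ((MonoidHom.snd W W2).eqLocus (P.comp (MonoidHom.fst W W2)))
    (by intro z; exact h z) w
  exact this

end iface

theorem sum_zmod_range (N : ℕ) [NeZero N] {R : Type*} [AddCommMonoid R] (h : ZMod N → R) :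
    ∑ i : ZMod N, h i = ∑ n ∈ Finset.range N, h (n : ZMod N) := by
  symm
  refine Finset.sum_bij' (fun n _ => (n : ZMod N)) (fun i _ => i.val) ?_ ?_ ?_ ?_ ?_
  · intro a _; exact Finset.mem_univ _
  · intro a _; exact Finset.mem_range.mpr (ZMod.val_lt a)
  · intro a ha
    exact ZMod.val_cast_of_lt (Finset.mem_range.mp ha)
  · intro a _
    exact ZMod.natCast_zmod_val a
  · intro a _; rfl

theorem sum_inv_zero (p r : ℕ) [Fact p.Prime] (h : ZMod (p ^ (r + 1)) → ZMod p)
    (hinv : ∀ i, h ((p ^ r : ℕ) + i) = h i) : ∑ i, h i = 0 := by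
  rw [sum_zmod_range]
  have key : ∀ k : ℕ, ∑ n ∈ Finset.range (p ^ r * k), h (n : ZMod (p ^ (r + 1))) =
      (k : ZMod p) * ∑ n ∈ Finset.range (p ^ r), h (n : ZMod (p ^ (r + 1))) := by
    have hk : ∀ (k : ℕ) (x : ZMod (p ^ (r + 1))), h (((p ^ r * k : ℕ) : ZMod (p ^ (r + 1))) + x)
        = h x := by
      intro k
      induction k with
      | zero => intro x; simp
      | succ k ih =>
        intro x
        have : ((p ^ r * (k + 1) : ℕ) : ZMod (p ^ (r + 1))) + x =
            ((p ^ r : ℕ) : ZMod (p ^ (r + 1))) + (((p ^ r * k : ℕ) : ZMod (p ^ (r + 1))) + x) := by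
          push_cast; ring
        rw [this, hinv, ih]
    intro k
    induction k with
    | zero => simp
    | succ k ih =>
      rw [Nat.mul_succ, Finset.sum_range_add, ih]
      have : ∑ x ∈ Finset.range (p ^ r), h ((p ^ r * k + x : ℕ) : ZMod (p ^ (r + 1))) =
          ∑ x ∈ Finset.range (p ^ r), h (x : ZMod (p ^ (r + 1))) := by
        apply Finset.sum_congr rfl
        intro x _
        rw [Nat.cast_add, hk]
      rw [this]
      push_cast
      ring
  have := key p
  rw [← pow_succ] at this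
  rw [this]
  simp

/-- Centralizer of a basis element of a free pro-`p` group, at the level of finite quotients.
`ex`, `uq`, `fin` say that `F` is free pro-`p` on `ι : X → F` as seen by finite `p`-groups. -/
theorem central_zpowers (p : ℕ) [Fact p.Prime] {X F : Type} [Group F] [TopologicalSpace F]
    (ι : X → F)
    (ex : ∀ (G : Type) [Group G] [Finite G], IsPGroup p G → ∀ f : X → G, {z | f z ≠ 1}.Finite →
      ∃ φ : F →* G, IsOpen (φ.ker : Set F) ∧ ∀ z, φ (ι z) = f z)
    (uq : ∀ (G : Type) [Group G] [Finite G], IsPGroup p G → ∀ φ ψ : F →* G,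
      IsOpen (φ.ker : Set F) → IsOpen (ψ.ker : Set F) → (∀ z, φ (ι z) = ψ (ι z)) → φ = ψ)
    (fin : ∀ (G : Type) [Group G] [Finite G] (φ : F →* G), IsOpen (φ.ker : Set F) →
      {z | φ (ι z) ≠ 1}.Finite)
    (z0 : X) (k : F) (hk : k * ι z0 = ι z0 * k)
    (G : Type) [Group G] [Finite G] (hG : IsPGroup p G) (φ : F →* G)
    (hφ : IsOpen (φ.ker : Set F)) :
    φ k ∈ Subgroup.zpowers (φ (ι z0)) := by
  classical
  obtain ⟨r, hr⟩ := hG (φ (ι z0))
  have hM : IsPGroup p (Multiplicative (ZMod (p ^ (r + 1)))) := by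
    apply IsPGroup.of_card (n := r + 1)
    rw [Nat.card_congr (Multiplicative.toAdd), Nat.card_zmod]
  obtain ⟨e, he, he1⟩ := ex (Multiplicative (ZMod (p ^ (r + 1)))) hM
    (fun z => if z = z0 then Multiplicative.ofAdd 1 else 1) (by
      refine (Set.finite_singleton z0).subset ?_
      intro z hz
      by_contra h
      apply hz
      simp only [Set.mem_singleton_iff] at h
      simp [h])
  let G1 := G × Multiplicative (ZMod (p ^ (r + 1)))
  let ψ : F →* G1 := φ.prod e
  have hψ : IsOpen (ψ.ker : Set F) := by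
    have hker : (ψ.ker : Set F) = (φ.ker : Set F) ∩ (e.ker : Set F) := by
      ext a
      exact Prod.ext_iff
    rw [hker]; exact hφ.inter he
  have hG1 : IsPGroup p G1 := isPGroup_prod hG hM
  let Q := G ⧸ Subgroup.zpowers (φ (ι z0))
  let θQ : G1 →* Equiv.Perm Q := (MulAction.toPermHom G Q).comp (MonoidHom.fst _ _)
  let θ : G1 →* Equiv.Perm (Q × ZMod (p ^ (r + 1))) :=
    { toFun := fun s =>
        { toFun := fun c => (s.1 • c.1, Multiplicative.toAdd s.2 + c.2)
          invFun := fun c => (s.1⁻¹ • c.1, - Multiplicative.toAdd s.2 + c.2)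
          left_inv := by intro c; simp
          right_inv := by intro c; simp }
      map_one' := by
        ext c
        · show (1 : G) • c.1 = c.1
          exact one_smul _ _
        · show (0 : ZMod (p ^ (r + 1))) + c.2 = c.2
          exact zero_add _
      map_mul' := by
        intro s t
        ext c
        · show (s.1 * t.1) • c.1 = s.1 • t.1 • c.1
          exact mul_smul _ _ _
        · show (Multiplicative.toAdd s.2 + Multiplicative.toAdd t.2) + c.2 =
            Multiplicative.toAdd s.2 + (Multiplicative.toAdd t.2 + c.2)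
          exact add_assoc _ _ _ }
  have hθ : ∀ s c, θ s c = (s.1 • c.1, Multiplicative.toAdd s.2 + c.2) := fun _ _ => rfl
  have hθi : ∀ s c, (θ s)⁻¹ c = (s.1⁻¹ • c.1, - Multiplicative.toAdd s.2 + c.2) := fun _ _ => rfl
  have hθQ : ∀ s c, θQ s c = s.1 • c := fun _ _ => rfl
  have hθQi : ∀ s c, (θQ s)⁻¹ c = s.1⁻¹ • c := fun _ _ => rfl
  let o : Q := QuotientGroup.mk 1
  have hyo : φ (ι z0) • o = o := by
    show QuotientGroup.mk (φ (ι z0) * 1) = QuotientGroup.mk 1
    rw [QuotientGroup.eq]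
    simp
  obtain ⟨Ψ, hΨ, hΨ1⟩ := ex (Wr θ p) (Wr.isPGroup θ p hG1)
    (fun z => if z = z0 then ⟨fun _ => 0, ψ (ι z)⟩ else Wr.D θ p (o, 0) (ψ (ι z))) (by
      refine ((fin G1 ψ hψ).union (Set.finite_singleton z0)).subset ?_
      intro z hz
      by_contra h
      apply hz
      simp only [Set.mem_union, Set.mem_singleton_iff, Set.mem_ofPred_eq, not_or, not_not] at h
      simp [h.1, h.2])
  -- projection to `G1`
  have hg : ∀ w, ψ w = (Ψ w).g := by
    intro w
    refine eq_comp p ι ex uq fin (Wr θ p) G1 (Wr.isPGroup θ p hG1) hG1 Ψ hΨ (Wr.pr θ p) ψ hψ ?_ w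
    intro z
    rw [hΨ1]
    by_cases hz : z = z0
    · simp [hz, Wr.pr]
    · simp only [hz, if_false]
      rfl
  let P : Wr θ p →* Wr θQ p :=
    { toFun := fun s => ⟨fun c => ∑ i, s.v (c, i), s.g⟩
      map_one' := by
        refine Wr.ext (funext fun c => ?_) ?_
        · skip
          show ∑ i, (1 : Wr θ p).v (c, i) = 0
          simp [Wr.one_v]
        · rfl
      map_mul' := by
        intro s t
        refine Wr.ext (funext fun c => ?_) ?_
        · skip
          show ∑ i, (s * t).v (c, i) = (∑ i, s.v (c, i)) + ∑ i, t.v (((θQ s.g)⁻¹ c), i)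
          simp only [Wr.mul_v, Finset.sum_add_distrib]
          congr 1
          rw [hθQi]
          simp only [hθi]
          exact Fintype.sum_equiv (Equiv.addLeft (- Multiplicative.toAdd s.g.2)) _ _
            (fun i => rfl)
        · rfl }
  have hmain := eq_comp p ι ex uq fin (Wr θ p) (Wr θQ p) (Wr.isPGroup θ p hG1)
    (Wr.isPGroup θQ p hG1) Ψ hΨ P ((Wr.D θQ p o).comp ψ) (by
      have : ((Wr.D θQ p o).comp ψ).ker = ψ.ker := by
        ext a
        simp only [MonoidHom.mem_ker, MonoidHom.comp_apply]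
        constructor
        · intro h
          exact congrArg Wr.g h
        · intro h
          rw [h, map_one]
      rw [this]; exact hψ) (by
      intro z
      rw [hΨ1]
      by_cases hz : z = z0
      · subst hz
        simp only [if_true, MonoidHom.comp_apply]
        refine Wr.ext (funext fun c => ?_) ?_
        · skip
          show (if c = θQ (ψ (ι z)) o then (1 : ZMod p) else 0) - (if c = o then 1 else 0) =
            ∑ i : ZMod (p ^ (r + 1)), (0 : ZMod p)
          have : θQ (ψ (ι z)) o = o := hyo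
          rw [this]
          simp
        · rfl
      · simp only [hz, if_false, MonoidHom.comp_apply]
        refine Wr.ext (funext fun c => ?_) ?_
        · skip
          show (if c = θQ (ψ (ι z)) o then (1 : ZMod p) else 0) - (if c = o then 1 else 0) =
            ∑ i : ZMod (p ^ (r + 1)),
              ((if (c, i) = θ (ψ (ι z)) (o, 0) then (1 : ZMod p) else 0) -
                (if (c, i) = (o, 0) then 1 else 0))
          rw [Finset.sum_sub_distrib]
          have aux : ∀ (c0 : Q) (i0 : ZMod (p ^ (r + 1))),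
              ∑ i : ZMod (p ^ (r + 1)), (if (c, i) = (c0, i0) then (1 : ZMod p) else 0) =
              if c = c0 then 1 else 0 := by
            intro c0 i0
            by_cases hc : c = c0
            · simp [hc]
            · simp [hc]
          rw [hθ, aux, aux]
          rfl
        · rfl) k
  -- invariance
  have hinv : ∀ ω, (Ψ k).v (θ (ψ (ι z0)) ω) = (Ψ k).v ω := by
    intro ω
    have hy : ∀ ω, (Ψ (ι z0)).v ω = 0 := by
      intro ω
      rw [hΨ1]
      simp
    have h1 : (Ψ k * Ψ (ι z0)).v (θ (ψ (ι z0)) ω) = (Ψ (ι z0) * Ψ k).v (θ (ψ (ι z0)) ω) := by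
      rw [← map_mul, ← map_mul, hk]
    rw [Wr.mul_v, Wr.mul_v, hy, hy, ← hg] at h1
    simpa using h1
  have hinv2 : ∀ (n : ℕ) ω, (Ψ k).v (θ (ψ (ι z0) ^ n) ω) = (Ψ k).v ω := by
    intro n
    induction n with
    | zero => intro ω; simp
    | succ n ih =>
      intro ω
      rw [_root_.pow_succ (ψ (ι z0)) n, map_mul, Equiv.Perm.mul_apply, ih, hinv]
  have hy2 : ψ (ι z0) ^ (p ^ r) = (1, Multiplicative.ofAdd ((p ^ r : ℕ) : ZMod (p ^ (r + 1)))) := by
    refine Prod.ext ?_ ?_
    · exact hr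
    · show e (ι z0) ^ (p ^ r) = Multiplicative.ofAdd ((p ^ r : ℕ) : ZMod (p ^ (r + 1)))
      rw [he1, if_pos rfl, ← ofAdd_nsmul, nsmul_one]
  have hsum : ∀ c, ∑ i, (Ψ k).v (c, i) = 0 := by
    intro c
    apply sum_inv_zero p r (fun i => (Ψ k).v (c, i))
    intro i
    have := hinv2 (p ^ r) (c, i)
    rw [hy2, hθ] at this
    simpa using this
  have h2 := congrFun (congrArg Wr.v hmain) o
  have h3 : (P (Ψ k)).v o = 0 := hsum o
  rw [h3] at h2
  have h4 : (if o = φ k • o then (1 : ZMod p) else 0) - (if o = o then 1 else 0) = 0 := h2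
  have h5 : o = φ k • o := by
    by_contra hne
    rw [if_neg hne, if_pos rfl] at h4
    have : (1 : ZMod p) = 0 := by linear_combination -h4
    exact one_ne_zero this
  have h6 : (QuotientGroup.mk 1 : Q) = QuotientGroup.mk (φ k * 1) := h5
  rw [QuotientGroup.eq] at h6
  simpa using h6


end Pool.Agent.Helper948.ProP.Central
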