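import Mathlib

set_option autoImplicit false

/-! Uniform first-order definability (after helper437's `ModelDef`). -/

namespace Pool.Agent.Helper948.ProP.MD

open FirstOrder FirstOrder.Language

/-- `cns a w` is the sequence `a, w 0, w 1, ...`. -/
def cns {A : Type*} (a : A) (w : ℕ → A) : ℕ → A := fun n => Nat.casesOn n a w

@[simp] theorem cns_zero {A : Type*} (a : A) (w : ℕ → A) : cns a w 0 = a := rfl
@[simp] theorem cns_succ {A : Type*} (a : A) (w : ℕ → A) (n : ℕ) : cns a w (n + 1) = w n := rfl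
theorem cns_comp {A B : Type*} (g : A → B) (a : A) (w : ℕ → A) :
    g ∘ cns a w = cns (g a) (g ∘ w) := by
  funext n; cases n <;> rfl
theorem cns_eta {A : Type*} (w : ℕ → A) : cns (w 0) (fun n => w (n + 1)) = w := by
  funext n; cases n <;> rfl


universe u v w x y

section
variable {L : FirstOrder.Language.{u, v}} {ι : Type x} {M : ι → Type w} [∀ i, L.Structure (M i)] {P : Type y}

/-- `R` is uniformly definable in the family `M` with parameters `par`. -/
def DM (L : FirstOrder.Language.{u, v}) {ι : Type x} {M : ι → Type w} [∀ i, L.Structure (M i)] {P : Type y}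
    (par : ∀ i, P → M i) (R : ∀ i, (ℕ → M i) → Prop) : Prop :=
  ∃ φ : L.Formula (P ⊕ ℕ), ∀ i (v : ℕ → M i), φ.Realize (Sum.elim (par i) v) ↔ R i v

/-- variable shift used for quantification -/
def shft : P ⊕ ℕ → (P ⊕ ℕ) ⊕ Fin 1
  | .inl p => .inl (.inl p)
  | .inr 0 => .inr 0
  | .inr (n + 1) => .inl (.inr n)

/-- universal quantification over variable `0`, shifting the others down -/
def qall (φ : L.Formula (P ⊕ ℕ)) : L.Formula (P ⊕ ℕ) :=
  (BoundedFormula.relabel (n := 1) (shft (P := P)) φ : L.BoundedFormula (P ⊕ ℕ) 1).all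

theorem realize_qall {N : Type w} [L.Structure N] (φ : L.Formula (P ⊕ ℕ)) (p : P → N) (v : ℕ → N) :
    (qall φ).Realize (Sum.elim p v) ↔ ∀ a : N, φ.Realize (Sum.elim p (cns a v)) := by
  unfold qall Formula.Realize
  rw [BoundedFormula.realize_all]
  refine forall_congr' fun a => ?_
  rw [BoundedFormula.realize_relabel]
  have h1 : (Sum.elim (Sum.elim p v) ((Fin.snoc default a : Fin 1 → N) ∘ Fin.castAdd 0) ∘ shft)
      = Sum.elim p (cns a v) := by
    funext s
    rcases s with p' | n
    · rfl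
    · cases n with
      | zero => rfl
      | succ n => rfl
  rw [h1]
  have h2 : ((Fin.snoc default a : Fin 1 → N) ∘ Fin.natAdd 1 : Fin 0 → N) = default :=
    Subsingleton.elim _ _
  exact iff_of_eq (congrArg (BoundedFormula.Realize φ (Sum.elim p (cns a v))) h2)

/-- renaming of variables -/
theorem realize_ren {N : Type w} [L.Structure N] (φ : L.Formula (P ⊕ ℕ)) (ρ : ℕ → ℕ) (p : P → N)
    (v : ℕ → N) :
    (φ.relabel (Sum.map id ρ)).Realize (Sum.elim p v) ↔
      φ.Realize (Sum.elim p (fun n => v (ρ n))) := by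
  rw [Formula.realize_relabel]
  have : Sum.elim p v ∘ Sum.map id ρ = Sum.elim p (fun n => v (ρ n)) := by
    funext s; rcases s with p' | n <;> rfl
  rw [this]

namespace DM

variable {par : ∀ i, P → M i}

theorem iff {R S : ∀ i, (ℕ → M i) → Prop} (h : ∀ i v, R i v ↔ S i v) (hR : DM L par R) :
    DM L par S := by
  obtain ⟨φ, hφ⟩ := hR
  exact ⟨φ, fun i v => (hφ i v).trans (h i v)⟩

theorem bot : DM L par (fun _ _ => False) := ⟨⊥, fun _ _ => Formula.realize_bot⟩

theorem imp {R S : ∀ i, (ℕ → M i) → Prop} (hR : DM L par R) (hS : DM L par S) :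
    DM L par (fun i v => R i v → S i v) := by
  obtain ⟨φ, hφ⟩ := hR
  obtain ⟨ψ, hψ⟩ := hS
  exact ⟨φ.imp ψ, fun i v => by rw [Formula.realize_imp, hφ, hψ]⟩

theorem not {R : ∀ i, (ℕ → M i) → Prop} (hR : DM L par R) : DM L par (fun i v => ¬ R i v) :=
  imp hR bot

theorem and {R S : ∀ i, (ℕ → M i) → Prop} (hR : DM L par R) (hS : DM L par S) :
    DM L par (fun i v => R i v ∧ S i v) :=
  iff (fun i v => by tauto) (not (imp hR (not hS)))

theorem or {R S : ∀ i, (ℕ → M i) → Prop} (hR : DM L par R) (hS : DM L par S) :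
    DM L par (fun i v => R i v ∨ S i v) :=
  iff (fun i v => by tauto) (imp (not hR) hS)

theorem iff' {R S : ∀ i, (ℕ → M i) → Prop} (hR : DM L par R) (hS : DM L par S) :
    DM L par (fun i v => R i v ↔ S i v) :=
  iff (fun i v => by tauto) (and (imp hR hS) (imp hS hR))

theorem all {S : ∀ i, M i → (ℕ → M i) → Prop}
    (hR : DM L par (fun i v => S i (v 0) (fun n => v (n + 1)))) :
    DM L par (fun i v => ∀ a, S i a v) := by
  obtain ⟨φ, hφ⟩ := hR
  refine ⟨qall φ, fun i v => ?_⟩
  rw [realize_qall]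
  refine forall_congr' fun a => ?_
  rw [hφ]
  simp

theorem ex {S : ∀ i, M i → (ℕ → M i) → Prop}
    (hR : DM L par (fun i v => S i (v 0) (fun n => v (n + 1)))) :
    DM L par (fun i v => ∃ a, S i a v) :=
  iff (fun i v => by simp) (not (all (S := fun i a v => ¬ S i a v) (not hR)))

theorem ren {R : ∀ i, (ℕ → M i) → Prop} (ρ : ℕ → ℕ) (hR : DM L par R) :
    DM L par (fun i v => R i (fun n => v (ρ n))) := by
  obtain ⟨φ, hφ⟩ := hR
  exact ⟨φ.relabel (Sum.map id ρ), fun i v => by rw [realize_ren, hφ]⟩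

theorem term (t₁ t₂ : L.Term (P ⊕ ℕ)) :
    DM L par (fun i v => t₁.realize (Sum.elim (par i) v) = t₂.realize (Sum.elim (par i) v)) :=
  ⟨t₁.equal t₂, fun _ _ => Formula.realize_equal⟩

theorem const (p : Prop) : DM L par (fun _ _ => p) := by
  by_cases h : p
  · exact iff (fun _ _ => by simp [h]) (not bot)
  · exact iff (fun _ _ => by simp [h]) bot

theorem var_eq (a b : ℕ) : DM L par (fun _ v => v a = v b) :=
  term (Term.var (Sum.inr a)) (Term.var (Sum.inr b))

theorem var_eq_par (a : ℕ) (p : P) : DM L par (fun i v => v a = par i p) :=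
  term (Term.var (Sum.inr a)) (Term.var (Sum.inl p))

end DM


end

end Pool.Agent.Helper948.ProP.MD
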