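import Mathlib
import Pool.Agent.Helper948.ProP.DioBasic

set_option autoImplicit false

namespace Pool.Agent.Helper948.ProP.Dio

open Dioph Function

theorem majorant {γ : Type} (p : Poly γ) : ∃ g : (γ → ℕ) → ℕ, (∃ q : Poly γ, ∀ x, (g x : ℤ) = q x) ∧
    (∀ x y : γ → ℕ, (∀ i, x i ≤ y i) → g x ≤ g y) ∧ ∀ x, (p x).natAbs ≤ g x := by
  refine Poly.induction (C := fun p => ∃ g : (γ → ℕ) → ℕ, (∃ q : Poly γ, ∀ x, (g x : ℤ) = q x) ∧
    (∀ x y : γ → ℕ, (∀ i, x i ≤ y i) → g x ≤ g y) ∧ ∀ x, (p x).natAbs ≤ g x) ?_ ?_ ?_ ?_ p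
  · intro i
    exact ⟨fun x => x i, ⟨Poly.proj i, fun x => rfl⟩, fun x y h => h i, fun x => by simp⟩
  · intro n
    refine ⟨fun _ => n.natAbs, ⟨Poly.const n.natAbs, fun x => by simp⟩, fun x y h => le_rfl,
      fun x => by simp⟩
  · rintro f g ⟨F, ⟨qF, hF⟩, mF, bF⟩ ⟨G, ⟨qG, hG⟩, mG, bG⟩
    refine ⟨fun x => F x + G x, ⟨qF + qG, fun x => by simp [hF, hG]⟩,
      fun x y h => Nat.add_le_add (mF x y h) (mG x y h), fun x => ?_⟩
    simp only [Poly.sub_apply]
    have := bF x
    have := bG x
    omega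
  · rintro f g ⟨F, ⟨qF, hF⟩, mF, bF⟩ ⟨G, ⟨qG, hG⟩, mG, bG⟩
    refine ⟨fun x => F x * G x, ⟨qF * qG, fun x => by simp [hF, hG]⟩,
      fun x y h => Nat.mul_le_mul (mF x y h) (mG x y h), fun x => ?_⟩
    simp only [Poly.mul_apply, Int.natAbs_mul]
    exact Nat.mul_le_mul (bF x) (bG x)

theorem poly_finite {α β : Type} (p : Poly (α ⊕ β)) : ∃ (F : Finset β) (q : Poly (α ⊕ F)),
    ∀ (v : α → ℕ) (t : β → ℕ), p (Sum.elim v t) = q (Sum.elim v (fun i => t i)) := by
  classical
  refine Poly.induction (C := fun p => ∃ (F : Finset β) (q : Poly (α ⊕ F)),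
    ∀ (v : α → ℕ) (t : β → ℕ), p (Sum.elim v t) = q (Sum.elim v (fun i => t i))) ?_ ?_ ?_ ?_ p
  · rintro (i | i)
    · exact ⟨∅, Poly.proj (Sum.inl i), fun v t => rfl⟩
    · exact ⟨{i}, Poly.proj (Sum.inr ⟨i, by simp⟩), fun v t => rfl⟩
  · intro n
    exact ⟨∅, Poly.const n, fun v t => rfl⟩
  · rintro f g ⟨F, p, hp⟩ ⟨G, q, hq⟩
    refine ⟨F ∪ G, p.map (Sum.map id fun i => ⟨i.1, by simp [i.2]⟩)
      - q.map (Sum.map id fun i => ⟨i.1, by simp [i.2]⟩), fun v t => ?_⟩
    rw [Poly.sub_apply, Poly.sub_apply, Poly.map_apply, Poly.map_apply, hp, hq]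
    congr 2 <;> · ext x; rcases x with x | x <;> rfl
  · rintro f g ⟨F, p, hp⟩ ⟨G, q, hq⟩
    refine ⟨F ∪ G, p.map (Sum.map id fun i => ⟨i.1, by simp [i.2]⟩)
      * q.map (Sum.map id fun i => ⟨i.1, by simp [i.2]⟩), fun v t => ?_⟩
    rw [Poly.mul_apply, Poly.mul_apply, Poly.map_apply, Poly.map_apply, hp, hq]
    congr 2 <;> · ext x; rcases x with x | x <;> rfl

theorem finite_dummies {α : Type} {S : Set (α → ℕ)} (d : Dioph S) :
    ∃ (δ : Type) (_ : Fintype δ) (p : Poly (α ⊕ δ)), ∀ v, v ∈ S ↔ ∃ t, p (Sum.elim v t) = 0 := by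
  classical
  obtain ⟨β, p, hp⟩ := d
  obtain ⟨F, q, hq⟩ := poly_finite p
  refine ⟨F, inferInstance, q, fun v => ?_⟩
  rw [hp]
  constructor
  · rintro ⟨t, ht⟩
    exact ⟨fun i => t i, by rw [← hq]; exact ht⟩
  · rintro ⟨t, ht⟩
    refine ⟨fun i => if h : i ∈ F then t ⟨i, h⟩ else 0, ?_⟩
    rw [hq]
    convert ht using 3
    ext i
    simp [i.2]

theorem poly_modEq {γ : Type} (p : Poly γ) (m : ℤ) (x y : γ → ℕ)
    (h : ∀ i, (x i : ℤ) ≡ y i [ZMOD m]) : p x ≡ p y [ZMOD m] := by
  refine Poly.induction (C := fun p => p x ≡ p y [ZMOD m]) ?_ ?_ ?_ ?_ p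
  · intro i; exact h i
  · intro n; exact Int.ModEq.refl _
  · intro f g hf hg; exact Int.ModEq.sub hf hg
  · intro f g hf hg; exact Int.ModEq.mul hf hg

theorem true_dioph {α : Type} : Dioph {_v : α → ℕ | True} := by
  have : Dioph {v : α → ℕ | (fun _ => 0 : (α → ℕ) → ℕ) v = (fun _ => 0 : (α → ℕ) → ℕ) v} :=
    eq_dioph (const' 0) (const' 0)
  exact Dioph.ext this fun v => by simp

theorem forall_dioph {α δ : Type} [Fintype δ] (S : δ → (α → ℕ) → Prop)
    (h : ∀ i, Dioph {v | S i v}) : Dioph {v | ∀ i, S i v} := by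
  classical
  have key : ∀ F : Finset δ, Dioph {v | ∀ i ∈ F, S i v} := by
    intro F
    induction F using Finset.induction_on with
    | empty => exact Dioph.ext true_dioph fun v => by simp
    | insert a s ha ih =>
      exact Dioph.ext (and_dioph (h a) ih) fun v => by simp
  exact Dioph.ext (key Finset.univ) fun v => by simp

theorem exfun_dioph {α δ : Type} (S : (δ → ℕ) → (α → ℕ) → Prop)
    (h : Dioph {w : α ⊕ δ → ℕ | S (w ∘ Sum.inr) (w ∘ Sum.inl)}) :
    Dioph {v : α → ℕ | ∃ a, S a v} :=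
  Dioph.ext (ex_dioph h) fun v => exists_congr fun a => Iff.rfl

/-- the core number theoretic equivalence (Davis, Putnam, Robinson) -/
theorem bq_core {α δ : Type} [Fintype δ] (p : Poly (Option α ⊕ δ)) (g : (Option α ⊕ δ → ℕ) → ℕ)
    (gmono : ∀ x y : Option α ⊕ δ → ℕ, (∀ i, x i ≤ y i) → g x ≤ g y)
    (gb : ∀ x, (p x).natAbs ≤ g x) (v : α → ℕ) (Y : ℕ) :
    (∀ k < Y, ∃ t : δ → ℕ, p (Sum.elim (Option.elim' k v) t) = 0) ↔
    ∃ u c : ℕ, ∃ a : δ → ℕ,
      mprod (g (Sum.elim (Option.elim' Y v) (fun _ => u)) + Y + u + 1).factorial Y ∣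
        1 + (c + 1) * (g (Sum.elim (Option.elim' Y v) (fun _ => u)) + Y + u + 1).factorial ∧
      (∀ i, mprod (g (Sum.elim (Option.elim' Y v) (fun _ => u)) + Y + u + 1).factorial Y ∣
        (a i).descFactorial (u + 1)) ∧
      mprod (g (Sum.elim (Option.elim' Y v) (fun _ => u)) + Y + u + 1).factorial Y ∣
        (p (Sum.elim (Option.elim' c v) a)).natAbs := by
  classical
  constructor
  · intro H
    choose! t ht using H
    -- the bound
    obtain ⟨u, hu⟩ : ∃ u, ∀ k < Y, ∀ i, t k i ≤ u := by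
      refine ⟨∑ k ∈ Finset.range Y, ∑ i, t k i, fun k hk i => ?_⟩
      calc t k i ≤ ∑ i, t k i := Finset.single_le_sum (f := fun i => t k i) (fun _ _ => Nat.zero_le _) (Finset.mem_univ i)
        _ ≤ _ := Finset.single_le_sum (f := fun k => ∑ i, t k i) (fun _ _ => Nat.zero_le _) (Finset.mem_range.2 hk)
    set Q := g (Sum.elim (Option.elim' Y v) (fun _ => u)) + Y + u + 1 with hQ
    set T := Q.factorial with hT
    have hTpos : 0 < T := Nat.factorial_pos _
    have hcop : ∀ k < Y, ∀ l < Y, k ≠ l → Nat.Coprime (1 + (k + 1) * T) (1 + (l + 1) * T) := by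
      have aux : ∀ k < Y, ∀ l < Y, k < l → Nat.Coprime (1 + (k + 1) * T) (1 + (l + 1) * T) := by
        intro k hk l hl hkl
        apply Nat.coprime_of_dvd
        intro q hq h1 h2
        have h3 : q ∣ (l - k) * T := by
          have : (l - k) * T = (1 + (l + 1) * T) - (1 + (k + 1) * T) := by
            obtain ⟨s, rfl⟩ : ∃ s, l = k + s := ⟨l - k, by omega⟩
            have : (k + s + 1) * T = (k + 1) * T + s * T := by ring
            rw [this]
            have : k + s - k = s := by omega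
            rw [this]
            omega
          rw [this]
          exact Nat.dvd_sub h2 h1
        have hqT : q ∣ T → False := by
          intro h
          have : q ∣ 1 := by
            have h5 : q ∣ (k + 1) * T := Dvd.dvd.mul_left h _
            exact (Nat.dvd_add_left h5).1 h1
          exact hq.one_lt.ne' (Nat.dvd_one.1 this)
        rcases (Nat.Prime.dvd_mul hq).1 h3 with h | h
        · have : q ≤ l - k := Nat.le_of_dvd (by omega) h
          exact hqT ((Nat.dvd_factorial hq.pos (by omega)))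
        · exact hqT h
      intro k hk l hl hne
      rcases lt_or_gt_of_ne hne with h | h
      · exact aux k hk l hl h
      · exact (aux l hl k hk h).symm
    have hpair : (↑(Finset.range Y) : Set ℕ).Pairwise (Function.onFun Nat.Coprime (fun k => 1 + (k + 1) * T)) := by
      intro k hk l hl hne
      exact hcop k (by simpa using hk) l (by simpa using hl) hne
    have hne0 : ∀ i ∈ Finset.range Y, (fun k => 1 + (k + 1) * T) i ≠ 0 := by
      intro i _; simp
    have crt : ∀ b : ℕ → ℕ, ∃ x, ∀ k < Y, x ≡ b k [MOD (1 + (k + 1) * T)] := by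
      intro b
      obtain ⟨x, hx⟩ := Nat.chineseRemainderOfFinset b (fun k => 1 + (k + 1) * T) (Finset.range Y) hne0 hpair
      exact ⟨x, fun k hk => hx k (Finset.mem_range.2 hk)⟩
    have hdiv : ∀ n : ℕ, (∀ k < Y, (1 + (k + 1) * T) ∣ n) → mprod T Y ∣ n := by
      intro n hn
      unfold mprod
      apply Finset.prod_dvd_of_isRelPrime
      · intro k hk l hl hne
        exact Nat.coprime_iff_isRelPrime.1 (hpair hk hl hne)
      · intro k hk
        exact hn k (Finset.mem_range.1 hk)
    obtain ⟨c, hc⟩ := crt (fun k => k)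
    have ha : ∀ i, ∃ x, ∀ k < Y, x ≡ t k i [MOD (1 + (k + 1) * T)] := fun i => crt (fun k => t k i)
    choose a ha using ha
    refine ⟨u, c, a, ?_, ?_, ?_⟩
    · apply hdiv
      intro k hk
      have h1 : 1 + (c + 1) * T ≡ 1 + (k + 1) * T [MOD (1 + (k + 1) * T)] := by
        exact Nat.ModEq.add_left _ (Nat.ModEq.mul_right _ (Nat.ModEq.add_right _ (hc k hk)))
      exact (Nat.modEq_zero_iff_dvd.1 (h1.trans (Nat.modEq_zero_iff_dvd.2 dvd_rfl)))
    · intro i
      apply hdiv
      intro k hk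
      have h1 := ha i k hk
      have h2 := hu k hk i
      -- descFactorial is a product
      rw [Nat.descFactorial_eq_prod_range]
      rcases le_or_gt (t k i) (a i) with hle | hgt
      · have : (1 + (k + 1) * T) ∣ (a i - t k i) := (Nat.modEq_iff_dvd' hle).1 h1.symm
        exact this.trans (Finset.dvd_prod_of_mem (fun j => a i - j) (Finset.mem_range.2 (by omega)))
      · have : ∏ j ∈ Finset.range (u + 1), (a i - j) = 0 := by
          apply Finset.prod_eq_zero (i := a i) (Finset.mem_range.2 (by omega))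
          simp
        rw [this]; exact dvd_zero _
    · apply hdiv
      intro k hk
      have h1 : p (Sum.elim (Option.elim' c v) a) ≡ p (Sum.elim (Option.elim' k v) (t k))
          [ZMOD ((1 + (k + 1) * T : ℕ) : ℤ)] := by
        apply poly_modEq
        rintro (i | i)
        · rcases i with _ | i
          · simp only [Sum.elim_inl, Option.elim'_none]
            exact (Int.natCast_modEq_iff).2 (hc k hk)
          · simp only [Sum.elim_inl, Option.elim'_some]
            exact Int.ModEq.refl _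
        · simp only [Sum.elim_inr]
          exact (Int.natCast_modEq_iff).2 (ha i k hk)
      rw [ht k hk] at h1
      exact Int.natCast_dvd.1 (Int.modEq_zero_iff_dvd.1 h1)
  · rintro ⟨u, c, a, h1, h2, h3⟩ k hk
    set Q := g (Sum.elim (Option.elim' Y v) (fun _ => u)) + Y + u + 1 with hQ
    set T := Q.factorial with hT
    have hTpos : 0 < T := Nat.factorial_pos _
    have hmk : (1 + (k + 1) * T) ∣ mprod T Y := by
      unfold mprod
      exact Finset.dvd_prod_of_mem (fun k => 1 + (k + 1) * T) (Finset.mem_range.2 hk)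
    obtain ⟨q, hq, hqm⟩ := Nat.exists_prime_and_dvd (n := 1 + (k + 1) * T) (by
      have : 0 < (k + 1) * T := by positivity
      omega)
    have hqT : ¬ q ∣ T := by
      intro h
      have : q ∣ 1 := by
        have h5 : q ∣ (k + 1) * T := Dvd.dvd.mul_left h _
        exact (Nat.dvd_add_left h5).1 hqm
      exact hq.one_lt.ne' (Nat.dvd_one.1 this)
    have hqQ : Q < q := by
      by_contra hcon
      exact hqT (Nat.dvd_factorial hq.pos (by omega))
    have hqM : q ∣ mprod T Y := hqm.trans hmk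
    have hck : (c : ℤ) ≡ k [ZMOD q] := by
      have e1 : q ∣ 1 + (c + 1) * T := hqM.trans h1
      have e2 : ((q : ℕ) : ℤ) ∣ ((c : ℤ) - k) * T := by
        have : ((c : ℤ) - k) * T = ((1 + (c + 1) * T : ℕ) : ℤ) - ((1 + (k + 1) * T : ℕ) : ℤ) := by
          push_cast; ring
        rw [this]
        exact dvd_sub (Int.natCast_dvd_natCast.2 e1) (Int.natCast_dvd_natCast.2 hqm)
      rcases (Int.Prime.dvd_mul' hq e2) with h | h
      · exact (Int.modEq_iff_dvd.2 (by have := dvd_neg.2 h; simpa using this))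
      · exact absurd (Int.natCast_dvd_natCast.1 h) hqT
    refine ⟨fun i => a i % q, ?_⟩
    have hai : ∀ i, a i % q ≤ u := by
      intro i
      have e1 : q ∣ (a i).descFactorial (u + 1) := hqM.trans (h2 i)
      rw [Nat.descFactorial_eq_prod_range] at e1
      obtain ⟨j, hj, hqj⟩ := (Prime.dvd_finsetProd_iff hq.prime _).1 e1
      have hj' := Finset.mem_range.1 hj
      rcases le_or_gt j (a i) with hle | hgt
      · have : a i ≡ j [MOD q] := ((Nat.modEq_iff_dvd' hle).2 hqj).symm
        have h4 : a i % q = j % q := this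
        rw [h4]
        exact (Nat.mod_le _ _).trans (by omega)
      · exact (Nat.mod_le _ _).trans (by omega)
    have e3 : p (Sum.elim (Option.elim' k v) (fun i => a i % q)) ≡ p (Sum.elim (Option.elim' c v) a) [ZMOD q] := by
      apply poly_modEq
      rintro (i | i)
      · rcases i with _ | i
        · simp only [Sum.elim_inl, Option.elim'_none]
          exact hck.symm
        · simp only [Sum.elim_inl, Option.elim'_some]
          exact Int.ModEq.refl _
      · simp only [Sum.elim_inr]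
        exact (Int.natCast_modEq_iff).2 (Nat.mod_modEq _ _)
    have e4 : (q : ℤ) ∣ p (Sum.elim (Option.elim' c v) a) := Int.natCast_dvd.2 (hqM.trans h3)
    have e5 : (q : ℤ) ∣ p (Sum.elim (Option.elim' k v) (fun i => a i % q)) :=
      (Int.ModEq.dvd_iff e3).2 e4
    have e6 : (p (Sum.elim (Option.elim' k v) (fun i => a i % q))).natAbs ≤ Q := by
      refine (gb _).trans ?_
      have : g (Sum.elim (Option.elim' k v) (fun i => a i % q)) ≤ g (Sum.elim (Option.elim' Y v) (fun _ => u)) := by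
        apply gmono
        rintro (i | i)
        · rcases i with _ | i
          · simp only [Sum.elim_inl, Option.elim'_none]; omega
          · simp
        · simp only [Sum.elim_inr]; exact hai i
      omega
    have e7 := Int.natCast_dvd.1 e5
    exact Int.natAbs_eq_zero.1 (Nat.eq_zero_of_dvd_of_lt e7 (by omega))

end Pool.Agent.Helper948.ProP.Dio

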