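import Mathlib

set_option autoImplicit false

namespace Pool.Agent.Helper948.ProP.Lte




theorem lte_mul {p : ℤ} (hp : Prime p) {s t : ℕ} {a b : ℤ} (ha : ¬ p ^ s ∣ a) (hb : ¬ p ^ t ∣ b) :
    ¬ p ^ (s + t) ∣ a * b := by
  rw [← emultiplicity_lt_iff_not_dvd] at *
  rw [emultiplicity_mul hp]
  obtain ⟨k, hk⟩ := ENat.ne_top_iff_exists.1 (ne_top_of_lt ha)
  obtain ⟨l, hl⟩ := ENat.ne_top_iff_exists.1 (ne_top_of_lt hb)
  rw [← hk] at ha ⊢
  rw [← hl] at hb ⊢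
  norm_cast at *
  omega

theorem lte_one (p : ℕ) [Fact p.Prime] (n : ℕ) :
    emultiplicity (p : ℤ) ((1 + (p : ℤ) ^ 2) ^ n - 1) = 2 + emultiplicity (p : ℤ) n := by
  have hp : p.Prime := Fact.out
  have hpz : Prime (p : ℤ) := Nat.prime_iff_prime_int.1 hp
  have h2 : emultiplicity (p : ℤ) ((1 + (p : ℤ) ^ 2) - 1) = 2 := by
    rw [add_sub_cancel_left]
    exact_mod_cast emultiplicity_pow_self hpz.ne_zero hpz.not_unit 2
  have hnd : ¬ (p : ℤ) ∣ 1 + (p : ℤ) ^ 2 := by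
    intro h
    have h3 : (p : ℤ) ∣ 1 := by
      have h4 : (p : ℤ) ∣ (p : ℤ) ^ 2 := dvd_pow_self _ (by norm_num)
      have := dvd_sub h h4
      simpa using this
    exact hpz.not_unit (isUnit_of_dvd_one h3)
  rcases hp.eq_two_or_odd' with h | h
  · subst h
    have h5 := Int.two_pow_sub_pow' (x := 1 + ((2 : ℕ) : ℤ) ^ 2) (y := 1) n (by norm_num) (by
      simpa using hnd)
    rw [one_pow] at h5
    simp only [Nat.cast_ofNat] at h2 h5 ⊢
    rw [h5, h2]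
  · have h5 := Int.emultiplicity_pow_sub_pow hp h (x := 1 + (p : ℤ) ^ 2) (y := 1) (by
      rw [add_sub_cancel_left]; exact dvd_pow_self _ (by norm_num)) hnd n
    rw [one_pow] at h5
    rw [h5, h2, Int.natCast_emultiplicity]

theorem lte_fac (p : ℕ) [Fact p.Prime] (r i b : ℕ) (h : ¬ ((p : ℤ) ^ r ∣ (i : ℤ) - b)) :
    ¬ ((p : ℤ) ^ (r + 3) ∣ (1 + (p : ℤ) ^ 2) ^ (1 + p * b) - (1 + (p : ℤ) ^ 2) ^ (1 + p * i)) := by
  have hp : p.Prime := Fact.out
  have hpz : Prime (p : ℤ) := Nat.prime_iff_prime_int.1 hp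
  have hnd : ¬ (p : ℤ) ∣ 1 + (p : ℤ) ^ 2 := by
    intro h
    have h3 : (p : ℤ) ∣ 1 := by
      have h4 : (p : ℤ) ∣ (p : ℤ) ^ 2 := dvd_pow_self _ (by norm_num)
      have := dvd_sub h h4
      simpa using this
    exact hpz.not_unit (isUnit_of_dvd_one h3)
  -- the core statement
  have core : ∀ c d : ℕ, ¬ ((p : ℤ) ^ r ∣ (d : ℤ)) →
      ¬ ((p : ℤ) ^ (r + 3) ∣ (1 + (p : ℤ) ^ 2) ^ (1 + p * (c + d)) -
        (1 + (p : ℤ) ^ 2) ^ (1 + p * c)) := by
    intro c d hd hdiv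
    have e : (1 + (p : ℤ) ^ 2) ^ (1 + p * (c + d)) - (1 + (p : ℤ) ^ 2) ^ (1 + p * c) =
        (1 + (p : ℤ) ^ 2) ^ (1 + p * c) * ((1 + (p : ℤ) ^ 2) ^ (p * d) - 1) := by
      have : 1 + p * (c + d) = (1 + p * c) + p * d := by ring
      rw [this, pow_add]; ring
    rw [e] at hdiv
    have hcop : IsCoprime ((p : ℤ) ^ (r + 3)) ((1 + (p : ℤ) ^ 2) ^ (1 + p * c)) :=
      ((Prime.coprime_iff_not_dvd hpz).2 hnd).pow
    have hdiv2 := hcop.dvd_of_dvd_mul_left hdiv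
    have hlt : emultiplicity (p : ℤ) (d : ℤ) < r := emultiplicity_lt_iff_not_dvd.2 hd
    have h6 : emultiplicity (p : ℤ) ((1 + (p : ℤ) ^ 2) ^ (p * d) - 1) < ((r + 3 : ℕ) : ℕ∞) := by
      rw [lte_one, Nat.cast_mul, emultiplicity_mul hpz]
      have h7 : emultiplicity (p : ℤ) (p : ℤ) = 1 := by
        have := emultiplicity_pow_self hpz.ne_zero hpz.not_unit 1
        simpa using this
      rw [h7]
      obtain ⟨k, hk⟩ := ENat.ne_top_iff_exists.1 (ne_top_of_lt hlt)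
      rw [← hk] at hlt ⊢
      norm_cast at *
      omega
    exact (emultiplicity_lt_iff_not_dvd.1 h6) hdiv2
  rcases le_total i b with hib | hib
  · obtain ⟨d, rfl⟩ := Nat.exists_eq_add_of_le hib
    apply core i d
    intro hd
    apply h
    have : (i : ℤ) - ((i + d : ℕ) : ℤ) = -(d : ℤ) := by push_cast; ring
    rw [this]
    exact (dvd_neg).2 hd
  · obtain ⟨d, rfl⟩ := Nat.exists_eq_add_of_le hib
    intro hdiv
    refine core b d ?_ ?_
    · intro hd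
      apply h
      have : (((b + d : ℕ) : ℤ)) - (b : ℤ) = (d : ℤ) := by push_cast; ring
      rw [this]
      exact hd
    · have := (dvd_neg).2 hdiv
      rwa [neg_sub] at this

/-- valuation bound (lifting the exponent, uniform in all primes, `q = p ^ 2`) -/
theorem lte_prod (p : ℕ) [Fact p.Prime] (r n i : ℕ) (b : ℕ → ℕ)
    (h : ∀ j ∈ Finset.range n, ¬ ((p : ℤ) ^ r ∣ (i : ℤ) - b j)) (m : ℕ) (hm : n * (r + 3) < m) :
    ¬ ((p : ℤ) ^ m ∣ ∏ j ∈ Finset.range n,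
      ((1 + (p : ℤ) ^ 2) ^ (1 + p * b j) - (1 + (p : ℤ) ^ 2) ^ (1 + p * i))) := by
  have hp : p.Prime := Fact.out
  have hpz : Prime (p : ℤ) := Nat.prime_iff_prime_int.1 hp
  have key : ∀ n : ℕ, (∀ j ∈ Finset.range n, ¬ ((p : ℤ) ^ r ∣ (i : ℤ) - b j)) →
      ¬ ((p : ℤ) ^ (n * (r + 3) + 1) ∣ ∏ j ∈ Finset.range n,
        ((1 + (p : ℤ) ^ 2) ^ (1 + p * b j) - (1 + (p : ℤ) ^ 2) ^ (1 + p * i))) := by
    intro n
    induction n with
    | zero =>
      intro _ hd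
      simp only [zero_mul, zero_add, pow_one, Finset.range_zero, Finset.prod_empty] at hd
      exact hpz.not_unit (isUnit_of_dvd_one hd)
    | succ n ih =>
      intro hn
      rw [Finset.prod_range_succ]
      have h1 := ih (fun j hj => hn j (Finset.mem_range.2
        ((Finset.mem_range.1 hj).trans (Nat.lt_succ_self n))))
      have h2 := lte_fac p r i (b n) (hn n (Finset.mem_range.2 (Nat.lt_succ_self n)))
      have h3 := lte_mul hpz h1 h2
      have e : n * (r + 3) + 1 + (r + 3) = (n + 1) * (r + 3) + 1 := by ring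
      rwa [e] at h3
  intro hd
  exact key n h ((pow_dvd_pow _ (by omega)).trans hd)


end Pool.Agent.Helper948.ProP.Lte
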