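import Mathlib
import Pool.Agent.Helper948.ProP.Defs

set_option autoImplicit false

namespace Pool.Agent.Helper948.ProP.W1

open Pool.Agent.Helper948.ProP




section
variable {Γ : Type*} [Group Γ]

/-- the lower central series -/
def gg (Γ : Type*) [Group Γ] (i : ℕ) : Subgroup Γ := (⊤ : Subgroup Γ).lowerCentralSeries i

instance gg_normal (i : ℕ) : (gg Γ i).Normal := by
  unfold gg
  infer_instance

theorem cm_mem (i : ℕ) {c : Γ} (hc : c ∈ gg Γ i) (w : Γ) : cm c w ∈ gg Γ (i + 1) :=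
  Subgroup.commutator_mem_commutator hc (Subgroup.mem_top w)

/-- the projection modulo `g_{i+2}` -/
def pr (Γ : Type*) [Group Γ] (i : ℕ) : Γ →* Γ ⧸ (gg Γ (i + 2)) := QuotientGroup.mk' _

theorem pr_eq_one (i : ℕ) {e : Γ} (he : e ∈ gg Γ (i + 2)) : pr Γ i e = 1 :=
  (QuotientGroup.eq_one_iff e).mpr he

theorem pr_central (i : ℕ) {e : Γ} (he : e ∈ gg Γ (i + 1)) (v : Γ) :
    pr Γ i e * pr Γ i v = pr Γ i v * pr Γ i e := by
  have h1 : pr Γ i (cm e v) = 1 := pr_eq_one i (cm_mem (i + 1) he v)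
  have h2 : cm e v * (v * e) = e * v := by unfold cm; group
  rw [← map_mul, ← map_mul, ← h2, map_mul, h1, one_mul]

theorem pr_left (i : ℕ) {c : Γ} (hc : c ∈ gg Γ i) (c' w : Γ) :
    pr Γ i (cm (c' * c) w) = pr Γ i (cm c w) * pr Γ i (cm c' w) := by
  have h1 : cm (c' * c) w = c' * cm c w * c'⁻¹ * cm c' w := by unfold cm; group
  have h2 := pr_central i (cm_mem i hc w) c'
  rw [h1, map_mul, map_mul, map_mul, ← h2, mul_assoc (pr Γ i (cm c w)), ← map_mul (pr Γ i) c',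
    mul_inv_cancel, map_one, mul_one]

theorem pr_right (i : ℕ) {c : Γ} (hc : c ∈ gg Γ i) (w w' : Γ) :
    pr Γ i (cm c (w * w')) = pr Γ i (cm c w) * pr Γ i (cm c w') := by
  have h1 : cm c (w * w') = cm c w * (w * cm c w' * w⁻¹) := by unfold cm; group
  have h2 := pr_central i (cm_mem i hc w') w
  rw [h1, map_mul, map_mul, map_mul, ← h2, mul_assoc (pr Γ i (cm c w')), ← map_mul (pr Γ i) w,
    mul_inv_cancel, map_one, mul_one]

theorem cm_one_left (w : Γ) : cm 1 w = 1 := by unfold cm; group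

theorem cm_one_right (c : Γ) : cm c 1 = 1 := by unfold cm; group

theorem pr_left_inv (i : ℕ) {c : Γ} (hc : c ∈ gg Γ i) (w : Γ) :
    pr Γ i (cm c⁻¹ w) = (pr Γ i (cm c w))⁻¹ := by
  have h := pr_left i hc c⁻¹ w
  rw [inv_mul_cancel, cm_one_left, map_one] at h
  exact eq_inv_of_mul_eq_one_right h.symm

theorem pr_right_inv (i : ℕ) {c : Γ} (hc : c ∈ gg Γ i) (w : Γ) :
    pr Γ i (cm c w⁻¹) = (pr Γ i (cm c w))⁻¹ := by
  have h := pr_right i hc w w⁻¹
  rw [mul_inv_cancel, cm_one_right, map_one] at h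
  exact eq_inv_of_mul_eq_one_right h.symm

/-- the elements of the form `[a,x][b,y]` modulo `g_{i+2}` -/
def HH (x y : Γ) (i : ℕ) : Subgroup Γ where
  carrier := {e | ∃ a ∈ gg Γ i, ∃ b ∈ gg Γ i, pr Γ i e = pr Γ i (cm a x) * pr Γ i (cm b y)}
  one_mem' := ⟨1, one_mem _, 1, one_mem _, by rw [cm_one_left, cm_one_left, map_one, mul_one]⟩
  mul_mem' := by
    rintro e e' ⟨a, ha, b, hb, h⟩ ⟨a', ha', b', hb', h'⟩
    refine ⟨a' * a, mul_mem ha' ha, b' * b, mul_mem hb' hb, ?_⟩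
    rw [map_mul, h, h', pr_left i ha a' x, pr_left i hb b' y]
    have h2 := pr_central i (cm_mem i hb y) (cm a' x)
    calc pr Γ i (cm a x) * pr Γ i (cm b y) * (pr Γ i (cm a' x) * pr Γ i (cm b' y))
        = pr Γ i (cm a x) * (pr Γ i (cm b y) * pr Γ i (cm a' x)) * pr Γ i (cm b' y) := by group
      _ = pr Γ i (cm a x) * (pr Γ i (cm a' x) * pr Γ i (cm b y)) * pr Γ i (cm b' y) := by rw [h2]
      _ = _ := by group
  inv_mem' := by
    rintro e ⟨a, ha, b, hb, h⟩
    refine ⟨a⁻¹, inv_mem ha, b⁻¹, inv_mem hb, ?_⟩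
    rw [map_inv, h, pr_left_inv i ha, pr_left_inv i hb, mul_inv_rev]
    have h2 := pr_central i (cm_mem i (inv_mem hb) y) (cm a⁻¹ x)
    rw [pr_left_inv i ha, pr_left_inv i hb] at h2
    exact h2

theorem HH_comm {x y : Γ} (hgen : Subgroup.closure {x, y} = ⊤) (i : ℕ) {c : Γ} (hc : c ∈ gg Γ i)
    (w : Γ) : cm c w ∈ HH x y i := by
  have hw : w ∈ Subgroup.closure {x, y} := by rw [hgen]; exact Subgroup.mem_top w
  have key : ∀ w w' : Γ, pr Γ i w = pr Γ i w' → w ∈ HH x y i → w' ∈ HH x y i := by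
    rintro w w' h ⟨a, ha, b, hb, h'⟩
    exact ⟨a, ha, b, hb, by rw [← h]; exact h'⟩
  induction hw using Subgroup.closure_induction with
  | mem w hw =>
    rcases hw with rfl | hw
    · exact ⟨c, hc, 1, one_mem _, by rw [cm_one_left, map_one, mul_one]⟩
    · rw [Set.mem_singleton_iff] at hw
      subst hw
      exact ⟨1, one_mem _, c, hc, by rw [cm_one_left, map_one, one_mul]⟩
  | one => rw [cm_one_right]; exact one_mem _
  | mul w w' _ _ h h' =>
    exact key (cm c w * cm c w') _ (by rw [map_mul, pr_right i hc]) (mul_mem h h')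
  | inv w _ h =>
    exact key (cm c w)⁻¹ _ (by rw [map_inv, pr_right_inv i hc]) (inv_mem h)

theorem HH_le {x y : Γ} (hgen : Subgroup.closure {x, y} = ⊤) (i : ℕ) : gg Γ (i + 1) ≤ HH x y i := by
  have h : ⁅gg Γ i, (⊤ : Subgroup Γ)⁆ ≤ HH x y i := by
    rw [Subgroup.commutator_le]
    intro c hc w _
    exact HH_comm hgen i hc w
  exact h

theorem approx {x y : Γ} (hgen : Subgroup.closure {x, y} = ⊤) {c : Γ} (hc : c ∈ commutator Γ)
    (i : ℕ) : ∃ a b : Γ, (cm a x * cm b y)⁻¹ * c ∈ gg Γ (i + 1) := by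
  induction i with
  | zero =>
    refine ⟨1, 1, ?_⟩
    rw [cm_one_left, cm_one_left, mul_one, inv_one, one_mul]
    have : gg Γ 1 = commutator Γ := Subgroup.top_lowerCentralSeries_one
    rw [zero_add, this]
    exact hc
  | succ i ih =>
    obtain ⟨a, b, h⟩ := ih
    obtain ⟨a2, ha2, b2, hb2, h2⟩ := HH_le hgen i h
    refine ⟨a * a2, b * b2, ?_⟩
    rw [← QuotientGroup.eq_one_iff]
    change pr Γ i _ = 1
    have e1 : pr Γ i c = pr Γ i (cm a x * cm b y) * (pr Γ i (cm a2 x) * pr Γ i (cm b2 y)) := by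
      rw [← h2, ← map_mul, mul_inv_cancel_left]
    have e2 : pr Γ i (cm (a * a2) x * cm (b * b2) y) =
        pr Γ i (cm a x * cm b y) * (pr Γ i (cm a2 x) * pr Γ i (cm b2 y)) := by
      rw [map_mul, pr_left i ha2 a x, pr_left i hb2 b y, map_mul]
      have c1 := pr_central i (cm_mem i ha2 x) (cm a x)
      have c2 := pr_central i (cm_mem i ha2 x) (cm b y)
      have c3 := pr_central i (cm_mem i hb2 y) (cm b y)
      calc pr Γ i (cm a2 x) * pr Γ i (cm a x) * (pr Γ i (cm b2 y) * pr Γ i (cm b y))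
          = pr Γ i (cm a x) * pr Γ i (cm a2 x) * (pr Γ i (cm b y) * pr Γ i (cm b2 y)) := by rw [c1, c3]
        _ = pr Γ i (cm a x) * (pr Γ i (cm a2 x) * pr Γ i (cm b y)) * pr Γ i (cm b2 y) := by group
        _ = pr Γ i (cm a x) * (pr Γ i (cm b y) * pr Γ i (cm a2 x)) * pr Γ i (cm b2 y) := by rw [c2]
        _ = _ := by group
    rw [map_mul, map_inv, e2, e1, inv_mul_cancel]

end

/-- In a finite `p`-group generated by two elements `x, y` every element of the commutator subgroup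
is `[a,x][b,y]`. -/
theorem width1 {Γ : Type*} [Group Γ] [Finite Γ] (p : ℕ) [Fact p.Prime] (hΓ : IsPGroup p Γ)
    (x y : Γ) (hgen : Subgroup.closure {x, y} = ⊤) (c : Γ) (hc : c ∈ commutator Γ) :
    ∃ a b : Γ, c = cm a x * cm b y := by
  have hnil : Group.IsNilpotent Γ := hΓ.isNilpotent
  obtain ⟨n, hn⟩ := Subgroup.nilpotent_iff_lowerCentralSeries.mp hnil
  obtain ⟨a, b, h⟩ := approx hgen hc n
  have hle : gg Γ (n + 1) ≤ gg Γ n := Subgroup.lowerCentralSeries_antitone (⊤ : Subgroup Γ) (Nat.le_succ n)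
  have h1 : (cm a x * cm b y)⁻¹ * c ∈ gg Γ n := hle h
  have h2 : gg Γ n = ⊥ := hn
  rw [h2, Subgroup.mem_bot] at h1
  refine ⟨a, b, ?_⟩
  exact (inv_mul_eq_one.mp h1).symm


end Pool.Agent.Helper948.ProP.W1
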