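import Mathlib
import Pool.Agent.Helper948.ProP.Defs

set_option autoImplicit false

/-! The finite width theorem: the lower `p`-series relative to a normal subgroup. -/

namespace Pool.Agent.Helper948.ProP

section
variable {Γ Δ : Type*} [Group Γ] [Group Δ]

theorem map_cm (f : Γ →* Δ) (a b : Γ) : f (cm a b) = cm (f a) (f b) := by simp [cm]

theorem map_TT (p : ℕ) (f : Γ →* Δ) (a b : Γ) : f (TT p a b) = TT p (f a) (f b) := by simp [TT]

theorem cm_eq_one_iff (a b : Γ) : cm a b = 1 ↔ Commute a b := by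
  unfold cm
  constructor
  · intro h
    show a * b = b * a
    calc a * b = (a * b * a⁻¹ * b⁻¹) * (b * a) := by group
      _ = b * a := by rw [h, one_mul]
  · intro h
    rw [h.eq]; group

theorem cm_one_left (a : Γ) : cm 1 a = 1 := by simp [cm]
theorem cm_one_right (a : Γ) : cm a 1 = 1 := by simp [cm]

/-- `(a b)^n = a^n b^n c^(n choose 2)` for `c = [b,a]` central -/
theorem mul_pow_central (a b : Γ) (hc : ∀ g : Γ, Commute (cm b a) g) (n : ℕ) :
    (a * b) ^ n = a ^ n * b ^ n * (cm b a) ^ (n.choose 2) := by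
  have hba : b * a = cm b a * (a * b) := by unfold cm; group
  set c := cm b a with hcdef
  have hbn : ∀ n : ℕ, b ^ n * a = c ^ n * (a * b ^ n) := by
    intro n
    induction n with
    | zero => simp
    | succ n ih =>
      rw [pow_succ b, mul_assoc, hba]
      have h1 : b ^ n * (c * (a * b)) = c * (b ^ n * a) * b := by
        have := (hc (b ^ n)).eq
        calc b ^ n * (c * (a * b)) = (b ^ n * c) * (a * b) := by group
          _ = (c * b ^ n) * (a * b) := by rw [this]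
          _ = c * (b ^ n * a) * b := by group
      rw [h1, ih, pow_succ' c]
      group
  induction n with
  | zero => simp
  | succ n ih =>
    rw [pow_succ, ih, Nat.choose_succ_succ' n 1, Nat.choose_one_right]
    have h1 : ∀ (m : ℕ) (g : Γ), Commute (c ^ m) g := fun m g => (hc g).pow_left m
    have h2 : a ^ n * b ^ n * c ^ n.choose 2 * (a * b) = a ^ n * (b ^ n * a) * b * c ^ n.choose 2 := by
      calc a ^ n * b ^ n * c ^ n.choose 2 * (a * b) = a ^ n * b ^ n * (c ^ n.choose 2 * (a * b)) := by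
            group
        _ = a ^ n * b ^ n * ((a * b) * c ^ n.choose 2) := by rw [(h1 _ (a * b)).eq]
        _ = _ := by group
    rw [h2, hbn]
    have h3 : a ^ n * (c ^ n * (a * b ^ n)) = c ^ n * (a ^ n * (a * b ^ n)) := by
      calc a ^ n * (c ^ n * (a * b ^ n)) = (a ^ n * c ^ n) * (a * b ^ n) := by group
        _ = (c ^ n * a ^ n) * (a * b ^ n) := by rw [(h1 n (a ^ n)).eq]
        _ = _ := by group
    rw [h3]
    calc c ^ n * (a ^ n * (a * b ^ n)) * b * c ^ n.choose 2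
        = c ^ n * ((a ^ n * a) * (b ^ n * b) * c ^ n.choose 2) := by group
      _ = ((a ^ n * a) * (b ^ n * b) * c ^ n.choose 2) * c ^ n := by rw [(h1 n _).eq]
      _ = a ^ (n + 1) * b ^ (n + 1) * c ^ (n + n.choose 2) := by
          rw [pow_succ a, pow_succ b, pow_add, (h1 n (c ^ n.choose 2)).eq]
          group

/-- lower exponent-`p` series below `K`, relative to `Γ` -/
def ser (p : ℕ) (K : Subgroup Γ) : ℕ → Subgroup Γ
  | 0 => K
  | i + 1 => Subgroup.normalClosure {c | ∃ k ∈ ser p K i, (∃ g : Γ, c = cm k g) ∨ c = k ^ p}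

instance ser_normal (p : ℕ) (K : Subgroup Γ) [K.Normal] (i : ℕ) : (ser p K i).Normal := by
  cases i with
  | zero => exact (inferInstance : K.Normal)
  | succ i => exact Subgroup.normalClosure_normal

theorem cm_mem_ser (p : ℕ) (K : Subgroup Γ) (i : ℕ) {k : Γ} (hk : k ∈ ser p K i) (g : Γ) :
    cm k g ∈ ser p K (i + 1) :=
  Subgroup.subset_normalClosure ⟨k, hk, Or.inl ⟨g, rfl⟩⟩

theorem pow_mem_ser (p : ℕ) (K : Subgroup Γ) (i : ℕ) {k : Γ} (hk : k ∈ ser p K i) :
    k ^ p ∈ ser p K (i + 1) :=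
  Subgroup.subset_normalClosure ⟨k, hk, Or.inr rfl⟩

theorem ser_succ_le (p : ℕ) (K : Subgroup Γ) [K.Normal] (i : ℕ) : ser p K (i + 1) ≤ ser p K i := by
  refine Subgroup.normalClosure_le_normal ?_
  rintro c ⟨k, hk, ⟨g, rfl⟩ | rfl⟩
  · have h1 : g * k⁻¹ * g⁻¹ ∈ ser p K i :=
      (ser_normal p K i).conj_mem _ (inv_mem hk) g
    have h2 : cm k g = k * (g * k⁻¹ * g⁻¹) := by unfold cm; group
    show cm k g ∈ ser p K i
    rw [h2]
    exact mul_mem hk h1
  · exact pow_mem hk p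

theorem ser_anti (p : ℕ) (K : Subgroup Γ) [K.Normal] {i j : ℕ} (h : i ≤ j) :
    ser p K j ≤ ser p K i := by
  induction h with
  | refl => exact le_rfl
  | step _ ih => exact (ser_succ_le p K _).trans ih

theorem ser_le (p : ℕ) (K : Subgroup Γ) [K.Normal] (i : ℕ) : ser p K i ≤ K :=
  ser_anti p K (Nat.zero_le i)

/-- elements of `ser i` are central modulo `ser (i+1)` -/
theorem ser_comm (p : ℕ) (K : Subgroup Γ) [K.Normal] (i : ℕ) {k : Γ} (hk : k ∈ ser p K i)
    (g : Γ ⧸ ser p K (i + 1)) : Commute (k : Γ ⧸ ser p K (i + 1)) g := by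
  induction g using QuotientGroup.induction_on with
  | H g =>
    rw [← cm_eq_one_iff, ← QuotientGroup.mk'_apply, ← QuotientGroup.mk'_apply, ← map_cm,
      QuotientGroup.mk'_apply, QuotientGroup.eq_one_iff]
    exact cm_mem_ser p K i hk g

theorem ser_pow (p : ℕ) (K : Subgroup Γ) [K.Normal] (i : ℕ) {k : Γ} (hk : k ∈ ser p K i) :
    (k : Γ ⧸ ser p K (i + 1)) ^ p = 1 := by
  rw [← QuotientGroup.mk_pow, QuotientGroup.eq_one_iff]
  exact pow_mem_ser p K i hk

theorem cm_mul_right (a b c : Γ) : cm a (b * c) = cm a b * (b * cm a c * b⁻¹) := by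
  unfold cm; group

theorem cm_mul_left (a b c : Γ) : cm (a * b) c = (a * cm b c * a⁻¹) * cm a c := by
  unfold cm; group

theorem cm_inv_right (a b : Γ) : cm a b⁻¹ = b⁻¹ * (cm a b)⁻¹ * b := by
  unfold cm; group

/-- `g ↦ [k,g]` is a homomorphism modulo `ser (i+2)` -/
theorem cm_mul_ser (p : ℕ) (K : Subgroup Γ) [K.Normal] (i : ℕ) {k : Γ} (hk : k ∈ ser p K i)
    (g h : Γ) : ((cm k (g * h) : Γ) : Γ ⧸ ser p K (i + 2)) = (cm k g : Γ) * (cm k h : Γ) := by
  rw [cm_mul_right, QuotientGroup.mk_mul, QuotientGroup.mk_mul, QuotientGroup.mk_mul]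
  have h1 := (ser_comm p K (i + 1) (cm_mem_ser p K i hk h) (g : Γ ⧸ ser p K (i + 2))).eq
  rw [← h1, QuotientGroup.mk_inv, mul_inv_cancel_right]

/-- the homomorphism `g ↦ [k,g]` modulo `ser (i+2)` -/
def cmHom (p : ℕ) (K : Subgroup Γ) [K.Normal] (i : ℕ) (k : Γ) (hk : k ∈ ser p K i) :
    Γ →* Γ ⧸ ser p K (i + 2) :=
  MonoidHom.mk' (fun g => ((cm k g : Γ) : Γ ⧸ ser p K (i + 2))) (cm_mul_ser p K i hk)

theorem cmHom_apply (p : ℕ) (K : Subgroup Γ) [K.Normal] (i : ℕ) (k : Γ) (hk : k ∈ ser p K i)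
    (g : Γ) : cmHom p K i k hk g = ((cm k g : Γ) : Γ ⧸ ser p K (i + 2)) := rfl

theorem cm_pow_mem (p : ℕ) (K : Subgroup Γ) [K.Normal] (i : ℕ) {k : Γ} (hk : k ∈ ser p K i)
    (g : Γ) : cm k (g ^ p) ∈ ser p K (i + 2) := by
  rw [← QuotientGroup.eq_one_iff, ← cmHom_apply p K i k hk, map_pow, cmHom_apply,
    ser_pow p K (i + 1) (cm_mem_ser p K i hk g)]

theorem cm_cm_mem (p : ℕ) (K : Subgroup Γ) [K.Normal] (i : ℕ) {k : Γ} (hk : k ∈ ser p K i)
    (g h : Γ) : cm k (cm g h) ∈ ser p K (i + 2) := by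
  rw [← QuotientGroup.eq_one_iff, ← cmHom_apply p K i k hk, map_cm, cm_eq_one_iff, cmHom_apply]
  exact ser_comm p K (i + 1) (cm_mem_ser p K i hk g) _

/-- elements whose commutators with `ser i` lie in `ser (i+2)` -/
def cent (p : ℕ) (K : Subgroup Γ) [K.Normal] (i : ℕ) : Subgroup Γ where
  carrier := {g | ∀ k ∈ ser p K i, cm k g ∈ ser p K (i + 2)}
  mul_mem' := by
    intro a b ha hb k hk
    rw [cm_mul_right]
    exact mul_mem (ha k hk) ((ser_normal p K (i + 2)).conj_mem _ (hb k hk) a)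
  one_mem' := by
    intro k _
    rw [cm_one_right]; exact one_mem _
  inv_mem' := by
    intro a ha k hk
    rw [cm_inv_right]
    have := (ser_normal p K (i + 2)).conj_mem _ (inv_mem (ha k hk)) a⁻¹
    rwa [inv_inv] at this

instance cent_normal (p : ℕ) (K : Subgroup Γ) [K.Normal] (i : ℕ) : (cent p K i).Normal := by
  constructor
  intro g hg w k hk
  have h1 : cm k (w * g * w⁻¹) = w * cm (w⁻¹ * k * w) g * w⁻¹ := by unfold cm; group
  rw [h1]
  refine (ser_normal p K (i + 2)).conj_mem _ (hg _ ?_) w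
  have := (ser_normal p K i).conj_mem _ hk w⁻¹
  rwa [inv_inv] at this

/-- the basic relator -/
theorem TT_eq (p : ℕ) (u x : Γ) : TT p u x = ((x⁻¹) ^ p) ^ p * cm x⁻¹ u := by
  unfold TT cm
  have h1 : x ^ (1 + p ^ 2) = x * x ^ (p ^ 2) := by rw [pow_add, pow_one]
  have h2 : x⁻¹ ^ p = (x ^ p)⁻¹ := inv_pow x p
  rw [h1, h2, inv_pow, ← pow_mul, ← pow_two]
  group

variable (p : ℕ) (x u : Γ)

/-- the normal subgroup generated by the relator -/
abbrev KK : Subgroup Γ := Subgroup.normalClosure {TT p u x}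

theorem KK_le_cent (i : ℕ) : KK p x u ≤ cent p (KK p x u) i := by
  refine Subgroup.normalClosure_le_normal ?_
  rintro _ rfl
  refine Eq.mpr (congrArg (fun z => z ∈ cent p (KK p x u) i) (TT_eq p u x)) ?_
  refine mul_mem ?_ ?_
  · intro k hk
    exact cm_pow_mem p _ i hk _
  · intro k hk
    exact cm_cm_mem p _ i hk _ _

theorem cm_KK {i : ℕ} {k κ : Γ} (hk : k ∈ ser p (KK p x u) i) (hκ : κ ∈ KK p x u) :
    cm k κ ∈ ser p (KK p x u) (i + 2) := KK_le_cent p x u i hκ k hk

theorem cm_pow_x (j : ℕ) : ∀ (i : ℕ) (k : Γ), k ∈ ser p (KK p x u) i →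
    cm k (x ^ p ^ j) ∈ ser p (KK p x u) (i + j + 1) := by
  induction j with
  | zero =>
    intro i k hk
    exact cm_mem_ser p _ i hk _
  | succ j ih =>
    intro i k hk
    have h0 := ih i k hk
    set X := x ^ p ^ j with hX
    have hX2 : x ^ p ^ (j + 1) = X ^ p := by rw [hX, ← pow_mul, pow_succ]
    rw [hX2]
    have h1 : ∀ n : ℕ, ((cm k (X ^ n) : Γ) : Γ ⧸ ser p (KK p x u) (i + j + 1 + 1)) =
        ((cm k X : Γ) : Γ ⧸ ser p (KK p x u) (i + j + 1 + 1)) ^ n := by
      intro n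
      induction n with
      | zero => rw [pow_zero, pow_zero, cm_one_right]; rfl
      | succ n ihn =>
        rw [pow_succ, cm_mul_right, QuotientGroup.mk_mul, ihn, QuotientGroup.mk_mul,
          QuotientGroup.mk_mul]
        have h2 := (ser_comm p (KK p x u) (i + j + 1) h0
          ((X ^ n : Γ) : Γ ⧸ ser p (KK p x u) (i + j + 1 + 1))).eq
        rw [← h2, QuotientGroup.mk_inv, mul_inv_cancel_right]
        exact (pow_succ _ _).symm
    have h3 := h1 p
    rw [ser_pow p (KK p x u) (i + j + 1) h0, QuotientGroup.eq_one_iff] at h3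
    exact h3

end

end Pool.Agent.Helper948.ProP
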