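import Mathlib
import Pool.Agent.Helper948.ProP.Defs
import Pool.Agent.Helper948.ProP.Ser

set_option autoImplicit false

namespace Pool.Agent.Helper948.ProP

section W2
variable {Γ : Type*} [Group Γ] (p : ℕ) (x u : Γ)

/-- the sets `⟨x^(p^i)⟩ · K_i` -/
def NS (K : Subgroup Γ) (i : ℕ) : Set Γ :=
  {h | ∃ a : ℤ, ∃ k ∈ ser p K (i - 1), h = (x ^ p ^ i) ^ a * k}

end W2

end Pool.Agent.Helper948.ProP
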