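import Mathlib
import Pool.Agent.Helper948.ProP.Defs
import Pool.Agent.Helper948.ProP.Ser

set_option autoImplicit false

namespace Pool.Agent.Helper948.ProP.Term

open Pool.Agent.Helper948.ProP


variable {Γ : Type*} [Group Γ]





theorem ser_mono (p : ℕ) (K : Subgroup Γ) (i : ℕ) : ser p K i ≤ ser p ⊤ i := by
  induction i with
  | zero => exact le_top
  | succ i ih =>
    refine Subgroup.normalClosure_mono ?_
    rintro c ⟨k, hk, h⟩
    exact ⟨k, ih hk, h⟩

theorem ser_comap {Δ : Type*} [Group Δ] (f : Γ →* Δ) (p : ℕ) (i : ℕ) :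
    ser p (⊤ : Subgroup Γ) i ≤ (ser p (⊤ : Subgroup Δ) i).comap f := by
  induction i with
  | zero => intro x _; trivial
  | succ i ih =>
    haveI : (ser p (⊤ : Subgroup Δ) (i + 1)).Normal := Subgroup.normalClosure_normal
    refine Subgroup.normalClosure_le_normal ?_
    rintro c ⟨k, hk, h⟩
    show f c ∈ ser p ⊤ (i + 1)
    refine Subgroup.subset_normalClosure ⟨f k, ih hk, ?_⟩
    rcases h with ⟨g, rfl⟩ | rfl
    · exact Or.inl ⟨f g, by simp [cm]⟩
    · exact Or.inr (by simp)

theorem ser_aux.{u} (p : ℕ) [Fact p.Prime] (n : ℕ) :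
    ∀ (G : Type u) [Group G] [Finite G], IsPGroup p G → Nat.card G ≤ n →
      ∃ i, ser p (⊤ : Subgroup G) i = ⊥ := by
  induction n with
  | zero =>
    intro G _ _ _ h
    have : 0 < Nat.card G := Nat.card_pos
    omega
  | succ n ih =>
    intro G _ _ hG hn
    rcases subsingleton_or_nontrivial G with hs | hs
    · exact ⟨0, Subsingleton.elim _ _⟩
    · haveI := hG.center_nontrivial
      obtain ⟨m, hm, hcard⟩ := ((hG.to_subgroup (Subgroup.center G)).nontrivial_iff_card).1 this
      obtain ⟨z, hz⟩ := exists_prime_orderOf_dvd_card' (G := Subgroup.center G) p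
        (by rw [hcard]; exact dvd_pow_self p (by omega))
      have hcom : ∀ g : G, g * (z : G) = (z : G) * g := fun g => Subgroup.mem_center_iff.1 z.2 g
      have hcomm : ∀ x ∈ Subgroup.zpowers (z : G), ∀ g : G, g * x = x * g := by
        intro x hx g
        obtain ⟨j, rfl⟩ := Subgroup.mem_zpowers_iff.1 hx
        exact (show Commute g (z : G) from hcom g).zpow_right j
      haveI hnorm : (Subgroup.zpowers (z : G)).Normal := by
        refine ⟨fun x hx g => ?_⟩
        rw [hcomm x hx g, mul_inv_cancel_right]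
        exact hx
      have hzo : orderOf (z : G) = p := by rw [Subgroup.orderOf_coe]; exact hz
      have hc : Nat.card G = Nat.card (G ⧸ Subgroup.zpowers (z : G)) * p := by
        rw [Subgroup.card_eq_card_quotient_mul_card_subgroup (Subgroup.zpowers (z : G)),
          Nat.card_zpowers, hzo]
      have hp2 : 2 ≤ p := (Fact.out : p.Prime).two_le
      have hpos : 0 < Nat.card (G ⧸ Subgroup.zpowers (z : G)) := Nat.card_pos
      have hlt : Nat.card (G ⧸ Subgroup.zpowers (z : G)) ≤ n := by nlinarith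
      obtain ⟨i, hi⟩ := ih (G ⧸ Subgroup.zpowers (z : G)) (hG.to_quotient _) hlt
      have hle : ser p (⊤ : Subgroup G) i ≤ Subgroup.zpowers (z : G) := by
        have h1 := ser_comap (QuotientGroup.mk' (Subgroup.zpowers (z : G))) p i
        rw [hi] at h1
        intro x hx
        have h2 := h1 hx
        rw [Subgroup.mem_comap, Subgroup.mem_bot] at h2
        exact (QuotientGroup.eq_one_iff x).1 h2
      refine ⟨i + 1, ?_⟩
      rw [eq_bot_iff]
      refine Subgroup.normalClosure_le_normal ?_
      rintro c ⟨k, hk, h⟩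
      have hk' := hle hk
      show c ∈ (⊥ : Subgroup G)
      rw [Subgroup.mem_bot]
      rcases h with ⟨g, rfl⟩ | rfl
      · unfold cm
        rw [← hcomm k hk' g]
        group
      · obtain ⟨j, rfl⟩ := Subgroup.mem_zpowers_iff.1 hk'
        rw [← zpow_natCast, ← zpow_mul, mul_comm, zpow_mul, zpow_natCast, ← hzo,
          pow_orderOf_eq_one, one_zpow]

/-- In a finite `p`-group the series reaches `1`. -/
theorem ser_eq_bot [Finite Γ] (p : ℕ) [Fact p.Prime] (hΓ : IsPGroup p Γ) (K : Subgroup Γ) :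
    ∃ i, ser p K i = ⊥ := by
  obtain ⟨i, hi⟩ := ser_aux p (Nat.card Γ) Γ hΓ le_rfl
  exact ⟨i, eq_bot_iff.2 ((ser_mono p K i).trans hi.le)⟩


end Pool.Agent.Helper948.ProP.Term
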