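import Mathlib
import Pool.Agent.Helper948.ProP.Defs
import Pool.Agent.Helper948.ProP.Ser
import Pool.Agent.Helper948.ProP.NSDef

set_option autoImplicit false

namespace Pool.Agent.Helper948.ProP.W2a

open Pool.Agent.Helper948.ProP




section W2
variable {Γ : Type*} [Group Γ] (p : ℕ) (x u : Γ)


theorem TT_zpow {Q : Type*} [Group Q] (p : ℕ) (U X : Q) (h : TT p U X = 1) (a : ℤ) :
    TT p U (X ^ a) = 1 := by
  unfold TT at h ⊢
  have h3 : U * X * U⁻¹ = X ^ (1 + p ^ 2) := by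
    rw [inv_mul_eq_one] at h; exact h.symm
  rw [inv_mul_eq_one, ← conj_zpow, h3, ← zpow_natCast, ← zpow_natCast, ← zpow_mul, ← zpow_mul,
    mul_comm]

theorem NS_mk (K : Subgroup Γ) [K.Normal] (i : ℕ) {h : Γ} {a : ℤ}
    (hq : (h : Γ ⧸ ser p K i) = (((x ^ p ^ (i + 1)) ^ a : Γ) : Γ ⧸ ser p K i)) :
    h ∈ NS p x K (i + 1) :=
  ⟨a, ((x ^ p ^ (i + 1)) ^ a)⁻¹ * h, QuotientGroup.eq.1 hq.symm, by group⟩

theorem pw_eq (i : ℕ) (a : ℤ) : ((x ^ p ^ i) ^ a) ^ p = (x ^ p ^ (i + 1)) ^ a := by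
  rw [pow_succ p i, pow_mul x, ← zpow_natCast, ← zpow_mul, mul_comm a, zpow_mul, zpow_natCast]

theorem NS_pow (K : Subgroup Γ) [K.Normal] (i : ℕ) {h : Γ} (hh : h ∈ NS p x K i) :
    h ^ p ∈ NS p x K (i + 1) := by
  obtain ⟨a, k, hk, rfl⟩ := hh
  apply NS_mk p x K i (a := a)
  rw [← pw_eq p x i a]
  cases i with
  | zero =>
    have h1 : ((k : Γ) : Γ ⧸ ser p K 0) = 1 := (QuotientGroup.eq_one_iff k).2 hk
    rw [QuotientGroup.mk_pow, QuotientGroup.mk_mul, h1, mul_one, ← QuotientGroup.mk_pow]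
  | succ j =>
    have hc := ser_comm p K j hk (((x ^ p ^ (j + 1)) ^ a : Γ) : Γ ⧸ ser p K (j + 1))
    rw [QuotientGroup.mk_pow, QuotientGroup.mk_mul, hc.symm.mul_pow, ser_pow p K j hk, mul_one,
      ← QuotientGroup.mk_pow]

theorem NS_mul (K : Subgroup Γ) [K.Normal] (i : ℕ) {h g : Γ} (hh : h ∈ NS p x K i)
    (hg : g ∈ NS p x K i) : h * g ∈ NS p x K i := by
  obtain ⟨a, k, hk, rfl⟩ := hh
  obtain ⟨b, l, hl, rfl⟩ := hg
  refine ⟨a + b, ((x ^ p ^ i) ^ b)⁻¹ * k * (x ^ p ^ i) ^ b * l, ?_, ?_⟩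
  · refine mul_mem ?_ hl
    have := (ser_normal p K (i - 1)).conj_mem _ hk ((x ^ p ^ i) ^ b)⁻¹
    rwa [inv_inv] at this
  · rw [zpow_add]; group

theorem NS_inv (K : Subgroup Γ) [K.Normal] (i : ℕ) {h : Γ} (hh : h ∈ NS p x K i) :
    h⁻¹ ∈ NS p x K i := by
  obtain ⟨a, k, hk, rfl⟩ := hh
  refine ⟨-a, (x ^ p ^ i) ^ a * k⁻¹ * ((x ^ p ^ i) ^ a)⁻¹, ?_, ?_⟩
  · exact (ser_normal p K (i - 1)).conj_mem _ (inv_mem hk) _
  · rw [zpow_neg]; group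

theorem NS_le (K : Subgroup Γ) [K.Normal] (i : ℕ) {h : Γ} (hh : h ∈ NS p x K i) :
    h ∈ NS p x K 0 := by
  obtain ⟨a, k, hk, rfl⟩ := hh
  refine ⟨(p ^ i : ℕ) * a, k, ser_le p K (i - 1) hk, ?_⟩
  rw [pow_zero, pow_one, zpow_mul, zpow_natCast]

theorem TT_NS (i : ℕ) {h : Γ} (hh : h ∈ NS p x (KK p x u) i) :
    TT p u h ∈ ser p (KK p x u) i := by
  induction i generalizing h with
  | zero =>
    obtain ⟨a, k, hk, rfl⟩ := hh
    have h1 : ((k : Γ) : Γ ⧸ ser p (KK p x u) 0) = 1 := (QuotientGroup.eq_one_iff k).2 hk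
    have h2 : ((TT p u x : Γ) : Γ ⧸ ser p (KK p x u) 0) = 1 := (QuotientGroup.eq_one_iff _).2
      (Subgroup.subset_normalClosure rfl)
    have e : ∀ y : Γ, ((TT p u y : Γ) : Γ ⧸ ser p (KK p x u) 0) =
      TT p (u : Γ ⧸ ser p (KK p x u) 0) (y : Γ ⧸ ser p (KK p x u) 0) := fun y =>
      map_TT p (QuotientGroup.mk' _) u y
    rw [← QuotientGroup.eq_one_iff, e, QuotientGroup.mk_mul, h1, mul_one, pow_zero, pow_one,
      QuotientGroup.mk_zpow]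
    rw [e] at h2
    set X := ((x : Γ) : Γ ⧸ ser p (KK p x u) 0)
    set U := ((u : Γ) : Γ ⧸ ser p (KK p x u) 0)
    exact TT_zpow p U X h2 a
  | succ i ih =>
    obtain ⟨a, k, hk, rfl⟩ := hh
    change k ∈ ser p (KK p x u) i at hk
    have hY : (x ^ p ^ i) ^ a ∈ NS p x (KK p x u) i := ⟨a, 1, one_mem _, by rw [mul_one]⟩
    have hτ := ih hY
    rw [← pw_eq p x i a]
    set Y := (x ^ p ^ i) ^ a with hYdef
    have hc1 := ser_comm p (KK p x u) i hk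
    have hp1 := ser_pow p (KK p x u) i hk
    have hc2 := ser_comm p (KK p x u) i hτ
    have hp2 := ser_pow p (KK p x u) i hτ
    have e : ∀ y : Γ, ((TT p u y : Γ) : Γ ⧸ ser p (KK p x u) (i + 1)) =
      TT p (u : Γ ⧸ ser p (KK p x u) (i + 1)) (y : Γ ⧸ ser p (KK p x u) (i + 1)) := fun y =>
      map_TT p (QuotientGroup.mk' _) u y
    rw [← QuotientGroup.eq_one_iff, e, QuotientGroup.mk_mul, QuotientGroup.mk_pow]
    rw [e] at hc2 hp2
    generalize ((k : Γ) : Γ ⧸ ser p (KK p x u) (i + 1)) = k' at hc1 hp1 ⊢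
    generalize ((Y : Γ) : Γ ⧸ ser p (KK p x u) (i + 1)) = y at hc2 hp2 ⊢
    generalize ((u : Γ) : Γ ⧸ ser p (KK p x u) (i + 1)) = U at hc2 hp2 ⊢
    have hUy : U * y * U⁻¹ = y ^ (1 + p ^ 2) * TT p U y := by
      unfold TT; group
    have hkk : k' ^ (1 + p ^ 2) = k' := by
      rw [pow_add, pow_one, pow_two, pow_mul, hp1, one_pow, mul_one]
    have hT : U * (y ^ p * k') * U⁻¹ = (y ^ p) ^ (1 + p ^ 2) * k' := by
      have h1 : U * (y ^ p * k') * U⁻¹ = U * y ^ p * (k' * U⁻¹) := by group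
      rw [h1, (hc1 U⁻¹).eq]
      have h2 : U * y ^ p * (U⁻¹ * k') = (U * y ^ p * U⁻¹) * k' := by group
      rw [h2, ← conj_pow, hUy, (hc2 (y ^ (1 + p ^ 2))).symm.mul_pow, hp2, mul_one, ← pow_mul,
        ← pow_mul, mul_comm]
    unfold TT
    rw [hT, (hc1 (y ^ p)).symm.mul_pow, hkk, inv_mul_cancel]

theorem cm_NS (i : ℕ) {g : Γ} (hg : g ∈ NS p x (KK p x u) i) :
    cm g x ∈ ser p (KK p x u) i := by
  obtain ⟨a, k, hk, rfl⟩ := hg
  rw [cm_mul_left]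
  have h1 : cm ((x ^ p ^ i) ^ a) x = 1 := by
    rw [cm_eq_one_iff]
    exact ((Commute.refl x).pow_left _).zpow_left a
  rw [h1, mul_one]
  refine (ser_normal p (KK p x u) i).conj_mem _ ?_ _
  have h2 := cm_mem_ser p (KK p x u) (i - 1) hk x
  cases i with
  | zero => exact ser_succ_le p (KK p x u) 0 h2
  | succ j => exact h2

end W2


end Pool.Agent.Helper948.ProP.W2a
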