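import Mathlib
import Pool.Agent.Helper948.ProP.Defs
import Pool.Agent.Helper948.ProP.Ser
import Pool.Agent.Helper948.ProP.NSDef
import Pool.Agent.Helper948.ProP.W2a

set_option autoImplicit false

namespace Pool.Agent.Helper948.ProP.W2b

open Pool.Agent.Helper948.ProP Pool.Agent.Helper948.ProP.W2a




section W2
variable {Γ : Type*} [Group Γ] (p : ℕ) (x u : Γ)


-- GIVEN (proved elsewhere, leave the sorries of NS_mul, NS_inv, NS_le, TT_NS, cm_NS)



-- TARGET

theorem lin_comm {N : Subgroup Γ} [N.Normal] {a b : Γ} (h : cm a b ∈ N) :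
    Commute (a : Γ ⧸ N) (b : Γ ⧸ N) := by
  rw [← cm_eq_one_iff, ← QuotientGroup.mk'_apply, ← QuotientGroup.mk'_apply, ← map_cm,
    QuotientGroup.mk'_apply, QuotientGroup.eq_one_iff]
  exact h

theorem lin_mem {N : Subgroup Γ} [N.Normal] {a b : Γ} (h : Commute (a : Γ ⧸ N) (b : Γ ⧸ N)) :
    cm a b ∈ N := by
  rw [← cm_eq_one_iff, ← QuotientGroup.mk'_apply, ← QuotientGroup.mk'_apply, ← map_cm,
    QuotientGroup.mk'_apply, QuotientGroup.eq_one_iff] at h
  exact h

theorem lin_pow (i : ℕ) {κ : Γ} (hκ : κ ∈ KK p x u) :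
    cm κ (x ^ p ^ (i + 1)) ∈ ser p (KK p x u) (i + 2) := by
  have h := cm_pow_x p x u (i + 1) 0 κ hκ
  have e : 0 + (i + 1) + 1 = i + 2 := by omega
  rw [e] at h
  exact h

theorem lin_one (i : ℕ) {κ h : Γ} (hκ : κ ∈ KK p x u) (hh : h ∈ NS p x (KK p x u) (i + 1)) :
    Commute (κ : Γ ⧸ ser p (KK p x u) (i + 2)) (h : Γ ⧸ ser p (KK p x u) (i + 2)) := by
  obtain ⟨a, k, hk, rfl⟩ := hh
  rw [Nat.add_sub_cancel] at hk
  rw [QuotientGroup.mk_mul, QuotientGroup.mk_zpow]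
  exact ((lin_comm (lin_pow p x u i hκ)).zpow_right a).mul_right
    (lin_comm (cm_KK p x u hk hκ)).symm

theorem lin_two (i : ℕ) {h H : Γ} (hh : h ∈ NS p x (KK p x u) (i + 1))
    (hH : H ∈ NS p x (KK p x u) 0) : cm h H ∈ ser p (KK p x u) (i + 1) := by
  apply lin_mem
  obtain ⟨a, k, hk, rfl⟩ := hh
  obtain ⟨b, κ, hκ, rfl⟩ := hH
  rw [Nat.add_sub_cancel] at hk
  have hκ' : κ ∈ KK p x u := hκ
  rw [QuotientGroup.mk_mul]
  refine Commute.mul_left ?_ (ser_comm p (KK p x u) i hk _)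
  rw [QuotientGroup.mk_zpow, QuotientGroup.mk_mul, QuotientGroup.mk_zpow]
  refine Commute.zpow_left (Commute.mul_right (Commute.zpow_right ?_ b) ?_) a
  · have h1 : Commute (x ^ p ^ (i + 1)) (x ^ p ^ 0) := (Commute.refl x).pow_pow _ _
    exact h1.map (QuotientGroup.mk' (ser p (KK p x u) (i + 1)))
  · exact (lin_comm (ser_anti p (KK p x u) (Nat.le_succ _) (lin_pow p x u i hκ'))).symm

theorem lin_choose [hp : Fact p.Prime] : p ∣ (1 + p ^ 2).choose 2 := by
  have h1 : (1 + p ^ 2).choose 2 * 2 = (1 + p ^ 2) * p ^ 2 := by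
    have := Nat.triangle_succ (p ^ 2)
    rw [Nat.choose_two_right, Nat.add_sub_cancel_left]
    have he : 2 ∣ (1 + p ^ 2) * p ^ 2 := by
      have := Nat.even_mul_succ_self (p ^ 2)
      rw [mul_comm, add_comm]
      exact this.two_dvd
    exact Nat.div_mul_cancel he
  rcases hp.out.eq_two_or_odd' with h2 | h2
  · subst h2
    decide
  · have hd : p ∣ (1 + p ^ 2).choose 2 * 2 := by
      rw [h1, pow_two]
      exact Dvd.intro_left ((1 + p * p) * p) (by ring)
    have hc : Nat.Coprime p 2 := Nat.Coprime.symm (Nat.coprime_two_left.2 h2)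
    exact hc.dvd_of_dvd_mul_right hd

/-- linearity of the corrections -/
theorem lin [Fact p.Prime] (i : ℕ) {H G h g : Γ} (hH : H ∈ NS p x (KK p x u) 0)
    (hG : G ∈ NS p x (KK p x u) 0) (hh : h ∈ NS p x (KK p x u) (i + 1))
    (hg : g ∈ NS p x (KK p x u) (i + 1)) :
    ((TT p u (H * h) * cm (G * g) x : Γ) : Γ ⧸ ser p (KK p x u) (i + 2)) =
      ((TT p u H * cm G x * (TT p u h * cm g x) : Γ) : Γ ⧸ ser p (KK p x u) (i + 2)) := by
  have hcen1 : ∀ {k : Γ}, k ∈ ser p (KK p x u) (i + 1) → ∀ q : Γ ⧸ ser p (KK p x u) (i + 2),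
      Commute (k : Γ ⧸ ser p (KK p x u) (i + 2)) q := fun hk q =>
    ser_comm p (KK p x u) (i + 1) hk q
  have hc := lin_two p x u i hh hH
  have hTH : TT p u H ∈ KK p x u := TT_NS p x u 0 hH
  have hTh : TT p u h ∈ ser p (KK p x u) (i + 1) := TT_NS p x u (i + 1) hh
  have hgx : cm g x ∈ ser p (KK p x u) (i + 1) := cm_NS p x u (i + 1) hg
  have hcomm := lin_one p x u i hTH hh
  have hcp : ((cm h H : Γ) : Γ ⧸ ser p (KK p x u) (i + 2)) ^ p = 1 :=
    ser_pow p (KK p x u) (i + 1) hc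
  have hcen := hcen1 hc
  have hTHcen := hcen1 hTh
  have hgxcen := hcen1 hgx
  let π : Γ →* Γ ⧸ ser p (KK p x u) (i + 2) := QuotientGroup.mk' _
  have hπ : ∀ a : Γ, ((a : Γ) : Γ ⧸ ser p (KK p x u) (i + 2)) = π a := fun _ => rfl
  simp only [hπ] at *
  rw [map_mul, map_mul, map_mul, map_mul]
  -- (3)
  have hpow : (π H * π h) ^ (1 + p ^ 2) = π H ^ (1 + p ^ 2) * π h ^ (1 + p ^ 2) := by
    have h1 := mul_pow_central (π H) (π h) (by rw [← map_cm]; exact hcen) (1 + p ^ 2)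
    rw [h1, ← map_cm]
    obtain ⟨m, hm⟩ := lin_choose p
    rw [hm, pow_mul, hcp, one_pow, mul_one]
  -- (4)
  have hT : π (TT p u (H * h)) = π (TT p u H) * π (TT p u h) := by
    rw [map_TT, map_TT p π u h, map_mul]
    rw [map_TT] at hcomm ⊢
    have h2 : TT p (π u) (π H * π h) = (π h ^ (1 + p ^ 2))⁻¹ * TT p (π u) (π H) *
        (π u * π h * (π u)⁻¹) := by
      unfold TT
      rw [hpow]
      group
    rw [h2, ← ((hcomm.pow_right (1 + p ^ 2)).inv_right).eq]
    unfold TT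
    group
  -- (5)
  have hG : π (cm (G * g) x) = π (cm G x) * π (cm g x) := by
    rw [cm_mul_left, map_mul, map_mul, map_mul, ← (hgxcen (π G)).eq, map_inv,
      mul_inv_cancel_right, (hgxcen (π (cm G x))).eq]
  rw [hT, hG]
  calc π (TT p u H) * π (TT p u h) * (π (cm G x) * π (cm g x))
      = π (TT p u H) * (π (TT p u h) * π (cm G x)) * π (cm g x) := by group
    _ = π (TT p u H) * (π (cm G x) * π (TT p u h)) * π (cm g x) := by
        rw [(hTHcen (π (cm G x))).eq]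
    _ = π (TT p u H) * π (cm G x) * (π (TT p u h) * π (cm g x)) := by group

end W2


end Pool.Agent.Helper948.ProP.W2b
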