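import Mathlib
import Pool.Agent.Helper948.ProP.Defs
import Pool.Agent.Helper948.ProP.Ser
import Pool.Agent.Helper948.ProP.NSDef
import Pool.Agent.Helper948.ProP.W2a
import Pool.Agent.Helper948.ProP.W2b

set_option autoImplicit false

namespace Pool.Agent.Helper948.ProP.W2c

open Pool.Agent.Helper948.ProP Pool.Agent.Helper948.ProP.W2a Pool.Agent.Helper948.ProP.W2b




section W2
variable {Γ : Type*} [Group Γ] (p : ℕ) (x u : Γ)


-- GIVEN (proved elsewhere, leave these sorries): NS_pow NS_mul NS_inv NS_le TT_NS cm_NS lin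





-- TARGET

theorem approx_one_mem (K : Subgroup Γ) (i : ℕ) : (1 : Γ) ∈ NS p x K i :=
  ⟨0, 1, one_mem _, by simp⟩

theorem approx_mem (K : Subgroup Γ) (i : ℕ) {k : Γ} (hk : k ∈ ser p K i) :
    k ∈ NS p x K (i + 1) :=
  ⟨0, k, hk, by simp⟩

theorem approx_TT_one : TT p u 1 = 1 := by simp [TT]

/-- the corrections form a subgroup -/
def approx_E [Fact p.Prime] (i : ℕ) : Subgroup (Γ ⧸ ser p (KK p x u) (i + 2)) where
  carrier := {q | ∃ h ∈ NS p x (KK p x u) (i + 1), ∃ g ∈ NS p x (KK p x u) (i + 1),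
      q = ((TT p u h * cm g x : Γ) : Γ ⧸ ser p (KK p x u) (i + 2))}
  mul_mem' := by
    rintro _ _ ⟨h1, hh1, g1, hg1, rfl⟩ ⟨h2, hh2, g2, hg2, rfl⟩
    refine ⟨h1 * h2, NS_mul p x _ _ hh1 hh2, g1 * g2, NS_mul p x _ _ hg1 hg2, ?_⟩
    rw [lin p x u i (NS_le p x _ _ hh1) (NS_le p x _ _ hg1) hh2 hg2]
    rfl
  one_mem' := ⟨1, approx_one_mem p x _ _, 1, approx_one_mem p x _ _, by
    rw [approx_TT_one, cm_one_left, one_mul]; rfl⟩
  inv_mem' := by
    rintro _ ⟨h, hh, g, hg, rfl⟩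
    refine ⟨h⁻¹, NS_inv p x _ _ hh, g⁻¹, NS_inv p x _ _ hg, ?_⟩
    have h1 := lin p x u i (NS_le p x _ _ hh) (NS_le p x _ _ hg) (NS_inv p x _ _ hh)
      (NS_inv p x _ _ hg)
    rw [mul_inv_cancel, mul_inv_cancel, approx_TT_one, cm_one_left, one_mul,
      QuotientGroup.mk_mul] at h1
    exact inv_eq_of_mul_eq_one_right h1.symm

theorem approx_E_central [Fact p.Prime] (i : ℕ) {q : Γ ⧸ ser p (KK p x u) (i + 2)}
    (hq : q ∈ approx_E p x u i) (q' : Γ ⧸ ser p (KK p x u) (i + 2)) : Commute q q' := by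
  obtain ⟨h, hh, g, hg, rfl⟩ := hq
  exact ser_comm p (KK p x u) (i + 1) (mul_mem (TT_NS p x u (i + 1) hh) (cm_NS p x u (i + 1) hg)) q'

theorem approx_TT_inv (k : Γ) : TT p u k⁻¹ = k ^ (p ^ 2) * cm k u := by
  unfold TT cm
  rw [inv_pow, inv_inv, add_comm 1, pow_succ]
  simp only [mul_assoc]

theorem approx_cm [Fact p.Prime] (hgen : Subgroup.closure {x, u} = ⊤) (i : ℕ) {k : Γ}
    (hk : k ∈ ser p (KK p x u) i) (w : Γ) :
    ((cm k w : Γ) : Γ ⧸ ser p (KK p x u) (i + 2)) ∈ approx_E p x u i := by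
  have h1 : Subgroup.closure {x, u} ≤
      (approx_E p x u i).comap (cmHom p (KK p x u) i k hk) := by
    rw [Subgroup.closure_le]
    intro z hz
    rcases hz with hz | hz
    · rw [hz]
      refine ⟨1, approx_one_mem p x _ _, k, approx_mem p x _ i hk, ?_⟩
      rw [approx_TT_one, one_mul]
      rfl
    · rw [Set.mem_singleton_iff] at hz
      rw [hz]
      refine ⟨k⁻¹, approx_mem p x _ i (inv_mem hk), 1, approx_one_mem p x _ _, ?_⟩
      have h2 : k ^ (p ^ 2) ∈ ser p (KK p x u) (i + 2) := by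
        rw [pow_two, pow_mul]
        exact pow_mem_ser p _ (i + 1) (pow_mem_ser p _ i hk)
      rw [cm_one_left, mul_one, approx_TT_inv, QuotientGroup.mk_mul,
        (QuotientGroup.eq_one_iff _).2 h2, one_mul]
      rfl
  have h2 : w ∈ Subgroup.closure {x, u} := by
    rw [hgen]
    exact Subgroup.mem_top w
  exact h1 h2

theorem approx_T_mem [Fact p.Prime] (i : ℕ) {h : Γ} (hh : h ∈ NS p x (KK p x u) (i + 1)) :
    ((TT p u h : Γ) : Γ ⧸ ser p (KK p x u) (i + 2)) ∈ approx_E p x u i := by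
  refine ⟨h, hh, 1, approx_one_mem p x _ _, ?_⟩
  rw [cm_one_left, mul_one]

theorem approx_c_mem [Fact p.Prime] (i : ℕ) {g : Γ} (hg : g ∈ NS p x (KK p x u) (i + 1)) :
    ((cm g x : Γ) : Γ ⧸ ser p (KK p x u) (i + 2)) ∈ approx_E p x u i := by
  refine ⟨1, approx_one_mem p x _ _, g, hg, ?_⟩
  rw [approx_TT_one, one_mul]

theorem approx_central (i : ℕ) {k : Γ} (hk : k ∈ ser p (KK p x u) i) (A : Γ)
    (g : Γ ⧸ ser p (KK p x u) (i + 2)) :
    Commute (cm (k : Γ ⧸ ser p (KK p x u) (i + 2)) (A : Γ ⧸ ser p (KK p x u) (i + 2))) g :=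
  ser_comm p (KK p x u) (i + 1) (cm_mem_ser p _ i hk A) g

theorem approx_tau [Fact p.Prime] (hgen : Subgroup.closure {x, u} = ⊤) (i : ℕ) {h0 : Γ}
    (hh0 : h0 ∈ NS p x (KK p x u) i) :
    (((TT p u h0) : Γ) : Γ ⧸ ser p (KK p x u) (i + 2)) ^ p ∈ approx_E p x u i := by
  have hτ := TT_NS p x u i hh0
  have h1 := mul_pow_central ((h0 ^ (1 + p ^ 2) : Γ) : Γ ⧸ ser p (KK p x u) (i + 2))
    ((TT p u h0 : Γ) : Γ ⧸ ser p (KK p x u) (i + 2))
    (approx_central p x u i hτ (h0 ^ (1 + p ^ 2))) p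
  have h2 : TT p u (h0 ^ p) = ((h0 ^ (1 + p ^ 2)) ^ p)⁻¹ * (h0 ^ (1 + p ^ 2) * TT p u h0) ^ p := by
    have e1 : h0 ^ (1 + p ^ 2) * TT p u h0 = u * h0 * u⁻¹ := by
      unfold TT
      rw [mul_inv_cancel_left]
    rw [e1, conj_pow]
    unfold TT
    rw [← pow_mul, ← pow_mul, mul_comm p]
  have h3 : ((TT p u (h0 ^ p) : Γ) : Γ ⧸ ser p (KK p x u) (i + 2)) =
      ((TT p u h0 : Γ) : Γ ⧸ ser p (KK p x u) (i + 2)) ^ p *
      ((cm (TT p u h0) (h0 ^ (1 + p ^ 2)) : Γ) : Γ ⧸ ser p (KK p x u) (i + 2)) ^ (p.choose 2) := by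
    rw [h2, QuotientGroup.mk_mul, QuotientGroup.mk_pow, QuotientGroup.mk_mul, h1,
      QuotientGroup.mk_inv, QuotientGroup.mk_pow]
    rw [mul_assoc, inv_mul_cancel_left]
    rfl
  have h4 := approx_T_mem p x u i (NS_pow p x _ i hh0)
  have h5 := pow_mem (approx_cm p x u hgen i hτ (h0 ^ (1 + p ^ 2))) (p.choose 2)
  have h6 := mul_mem h4 (inv_mem h5)
  rw [h3, mul_inv_cancel_right] at h6
  exact h6

theorem approx_sigma [Fact p.Prime] (hgen : Subgroup.closure {x, u} = ⊤) (i : ℕ) {g0 : Γ}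
    (hg0 : g0 ∈ NS p x (KK p x u) i) :
    ((cm g0 x : Γ) : Γ ⧸ ser p (KK p x u) (i + 2)) ^ p ∈ approx_E p x u i := by
  have hσ := cm_NS p x u i hg0
  have h1 := mul_pow_central ((g0⁻¹ : Γ) : Γ ⧸ ser p (KK p x u) (i + 2))
    ((cm g0 x : Γ) : Γ ⧸ ser p (KK p x u) (i + 2))
    (approx_central p x u i hσ g0⁻¹) p
  have h2 : cm (g0 ^ p) x = g0 ^ p * (g0⁻¹ * cm g0 x) ^ p := by
    have e1 : g0⁻¹ * cm g0 x = x * g0⁻¹ * x⁻¹ := by
      unfold cm
      group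
    rw [e1, conj_pow]
    unfold cm
    rw [inv_pow]
    group
  have h3 : ((cm (g0 ^ p) x : Γ) : Γ ⧸ ser p (KK p x u) (i + 2)) =
      ((cm g0 x : Γ) : Γ ⧸ ser p (KK p x u) (i + 2)) ^ p *
      ((cm (cm g0 x) g0⁻¹ : Γ) : Γ ⧸ ser p (KK p x u) (i + 2)) ^ (p.choose 2) := by
    rw [h2, QuotientGroup.mk_mul, QuotientGroup.mk_pow, QuotientGroup.mk_pow,
      QuotientGroup.mk_mul, h1, QuotientGroup.mk_inv, inv_pow]
    rw [mul_assoc, mul_inv_cancel_left]
    rfl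
  have h4 := approx_c_mem p x u i (NS_pow p x _ i hg0)
  have h5 := pow_mem (approx_cm p x u hgen i hσ g0⁻¹) (p.choose 2)
  have h6 := mul_mem h4 (inv_mem h5)
  rw [h3, mul_inv_cancel_right] at h6
  exact h6

theorem approx_pow [Fact p.Prime] (hgen : Subgroup.closure {x, u} = ⊤) (i : ℕ) {k h0 g0 : Γ}
    (hh0 : h0 ∈ NS p x (KK p x u) i) (hg0 : g0 ∈ NS p x (KK p x u) i)
    (he : (k : Γ ⧸ ser p (KK p x u) (i + 1)) =
        ((TT p u h0 * cm g0 x : Γ) : Γ ⧸ ser p (KK p x u) (i + 1))) :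
    ((k ^ p : Γ) : Γ ⧸ ser p (KK p x u) (i + 2)) ∈ approx_E p x u i := by
  have hτ := TT_NS p x u i hh0
  have hσ := cm_NS p x u i hg0
  have hκ : (TT p u h0 * cm g0 x)⁻¹ * k ∈ ser p (KK p x u) (i + 1) :=
    QuotientGroup.eq.1 he.symm
  have hk : k = TT p u h0 * cm g0 x * ((TT p u h0 * cm g0 x)⁻¹ * k) := by
    rw [mul_inv_cancel_left]
  generalize (TT p u h0 * cm g0 x)⁻¹ * k = κ at hκ hk
  have h1 : Commute ((TT p u h0 : Γ) : Γ ⧸ ser p (KK p x u) (i + 2))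
      ((cm g0 x : Γ) : Γ ⧸ ser p (KK p x u) (i + 2)) := by
    rw [← cm_eq_one_iff]
    have h2 := cm_KK p x u hτ (ser_le p _ i hσ)
    rw [← QuotientGroup.eq_one_iff] at h2
    exact h2
  have h2 : ∀ q, Commute ((κ : Γ) : Γ ⧸ ser p (KK p x u) (i + 2)) q :=
    ser_comm p (KK p x u) (i + 1) hκ
  have h3 : ((κ : Γ) : Γ ⧸ ser p (KK p x u) (i + 2)) ^ p = 1 := ser_pow p (KK p x u) (i + 1) hκ
  rw [hk, QuotientGroup.mk_pow, QuotientGroup.mk_mul, QuotientGroup.mk_mul,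
    ((h2 _).symm).mul_pow, h3, mul_one, h1.mul_pow]
  exact mul_mem (approx_tau p x u hgen i hh0) (approx_sigma p x u hgen i hg0)

theorem approx_base {e : Γ} (he : e ∈ KK p x u) : ∃ a : ℤ,
    (e : Γ ⧸ ser p (KK p x u) 1) = ((TT p u x : Γ) : Γ ⧸ ser p (KK p x u) 1) ^ a := by
  have hr : TT p u x ∈ ser p (KK p x u) 0 := Subgroup.subset_normalClosure rfl
  have hcen : ∀ q, Commute ((TT p u x : Γ) : Γ ⧸ ser p (KK p x u) 1) q :=
    ser_comm p (KK p x u) 0 hr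
  have hn : ((Subgroup.zpowers ((TT p u x : Γ) : Γ ⧸ ser p (KK p x u) 1)).comap
      (QuotientGroup.mk' (ser p (KK p x u) 1))).Normal := by
    constructor
    intro n hn w
    obtain ⟨a, ha⟩ := hn
    refine ⟨a, ?_⟩
    beta_reduce at ha ⊢
    rw [map_mul, map_mul, ← ha, map_inv, ((hcen _).zpow_left a).symm.eq, mul_inv_cancel_right]
  have hle : KK p x u ≤ (Subgroup.zpowers ((TT p u x : Γ) : Γ ⧸ ser p (KK p x u) 1)).comap
      (QuotientGroup.mk' (ser p (KK p x u) 1)) := by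
    refine Subgroup.normalClosure_le_normal ?_
    intro z hz
    rw [Set.mem_singleton_iff] at hz
    rw [hz]
    exact ⟨1, by simp⟩
  obtain ⟨a, ha⟩ := hle he
  exact ⟨a, ha.symm⟩

theorem approx_T_zpow (a : ℤ) : ((TT p u (x ^ a) : Γ) : Γ ⧸ ser p (KK p x u) 1) =
    ((TT p u x : Γ) : Γ ⧸ ser p (KK p x u) 1) ^ a := by
  have hr : TT p u x ∈ ser p (KK p x u) 0 := Subgroup.subset_normalClosure rfl
  have hcen : ∀ q, Commute ((TT p u x : Γ) : Γ ⧸ ser p (KK p x u) 1) q :=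
    ser_comm p (KK p x u) 0 hr
  have h2 : TT p u (x ^ a) = ((x ^ (1 + p ^ 2)) ^ a)⁻¹ * (x ^ (1 + p ^ 2) * TT p u x) ^ a := by
    have e1 : x ^ (1 + p ^ 2) * TT p u x = u * x * u⁻¹ := by
      unfold TT
      rw [mul_inv_cancel_left]
    rw [e1, conj_zpow]
    unfold TT
    rw [← zpow_natCast, ← zpow_natCast, ← zpow_mul, ← zpow_mul, mul_comm a]
  rw [h2, QuotientGroup.mk_mul, QuotientGroup.mk_zpow, QuotientGroup.mk_mul,
    ((hcen _).symm).mul_zpow, QuotientGroup.mk_inv, QuotientGroup.mk_zpow, inv_mul_cancel_left]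

/-- every element of `ser i` is `T(h)[g,x]` modulo `ser (i+1)` -/
theorem approx [Fact p.Prime] (hgen : Subgroup.closure {x, u} = ⊤) (i : ℕ) {e : Γ}
    (he : e ∈ ser p (KK p x u) i) :
    ∃ h ∈ NS p x (KK p x u) i, ∃ g ∈ NS p x (KK p x u) i,
      (e : Γ ⧸ ser p (KK p x u) (i + 1)) =
        ((TT p u h * cm g x : Γ) : Γ ⧸ ser p (KK p x u) (i + 1)) := by
  induction i generalizing e with
  | zero =>
    obtain ⟨a, ha⟩ := approx_base p x u he
    refine ⟨x ^ a, ⟨a, 1, one_mem _, by simp⟩, 1, approx_one_mem p x _ _, ?_⟩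
    rw [cm_one_left, mul_one]
    exact ha.trans (approx_T_zpow p x u a).symm
  | succ i ih =>
    have hn : ((approx_E p x u i).comap
        (QuotientGroup.mk' (ser p (KK p x u) (i + 2)))).Normal := by
      constructor
      intro n hn w
      rw [Subgroup.mem_comap] at hn ⊢
      rw [map_mul, map_mul, map_inv, (approx_E_central p x u i hn _).symm.eq,
        mul_inv_cancel_right]
      exact hn
    have hle : ser p (KK p x u) (i + 1) ≤ (approx_E p x u i).comap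
        (QuotientGroup.mk' (ser p (KK p x u) (i + 2))) := by
      refine Subgroup.normalClosure_le_normal ?_
      rintro c ⟨k, hk, hc⟩
      rcases hc with ⟨g, hc⟩ | hc
      · rw [hc]
        exact approx_cm p x u hgen i hk g
      · rw [hc]
        obtain ⟨h0, hh0, g0, hg0, h1⟩ := ih hk
        exact approx_pow p x u hgen i hh0 hg0 h1
    exact hle he

end W2


end Pool.Agent.Helper948.ProP.W2c
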