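import Mathlib
import Pool.Agent.Helper948.ProP.Defs
import Pool.Agent.Helper948.ProP.Ser
import Pool.Agent.Helper948.ProP.NSDef
import Pool.Agent.Helper948.ProP.W2a
import Pool.Agent.Helper948.ProP.W2b
import Pool.Agent.Helper948.ProP.W2c
import Pool.Agent.Helper948.ProP.Term

set_option autoImplicit false

namespace Pool.Agent.Helper948.ProP.W2d

open Pool.Agent.Helper948.ProP Pool.Agent.Helper948.ProP.W2a Pool.Agent.Helper948.ProP.W2b Pool.Agent.Helper948.ProP.W2c Pool.Agent.Helper948.ProP.Term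




section W2
variable {Γ : Type*} [Group Γ] (p : ℕ) (x u : Γ)


-- GIVEN (proved elsewhere, leave these sorries): NS_mul NS_inv NS_le TT_NS cm_NS lin approx ser_eq_bot






/-- TARGET: the finite width theorem -/
theorem width2_aux [Fact p.Prime]
    (hgen : Subgroup.closure {x, u} = ⊤) (g : Γ) (hg : g ∈ KK p x u) (i : ℕ) :
    ∃ H ∈ NS p x (KK p x u) 0, ∃ G ∈ NS p x (KK p x u) 0,
      (g : Γ ⧸ ser p (KK p x u) i) = ((TT p u H * cm G x : Γ) : Γ ⧸ ser p (KK p x u) i) := by
  have hone : (1 : Γ) ∈ NS p x (KK p x u) 0 := ⟨0, 1, one_mem _, by simp⟩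
  induction i with
  | zero =>
    refine ⟨1, hone, 1, hone, ?_⟩
    have h1 : TT p u (1 : Γ) * cm 1 x = 1 := by simp [TT, cm]
    rw [h1, QuotientGroup.mk_one, QuotientGroup.eq_one_iff]
    exact hg
  | succ i ih =>
    cases i with
    | zero =>
      obtain ⟨h, hh, g2, hg2, he⟩ := approx p x u hgen 0 (e := g) hg
      exact ⟨h, hh, g2, hg2, he⟩
    | succ j =>
      obtain ⟨H, hH, G, hG, hgHG⟩ := ih
      have he : (TT p u H * cm G x)⁻¹ * g ∈ ser p (KK p x u) (j + 1) :=
        QuotientGroup.eq.mp hgHG.symm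
      obtain ⟨h, hh, g2, hg2, he2⟩ := approx p x u hgen (j + 1) he
      refine ⟨H * h, NS_mul p x (KK p x u) 0 hH (NS_le p x (KK p x u) (j + 1) hh),
        G * g2, NS_mul p x (KK p x u) 0 hG (NS_le p x (KK p x u) (j + 1) hg2), ?_⟩
      rw [lin p x u j hH hG hh hg2, QuotientGroup.mk_mul, ← he2, ← QuotientGroup.mk_mul]
      congr 1
      group

theorem NS_zero_le {h : Γ} (hh : h ∈ NS p x (KK p x u) 0) :
    h ∈ Subgroup.normalClosure {x} := by
  have hx : x ∈ Subgroup.normalClosure ({x} : Set Γ) :=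
    Subgroup.subset_normalClosure (Set.mem_singleton x)
  have hK : KK p x u ≤ Subgroup.normalClosure {x} := by
    refine Subgroup.normalClosure_le_normal ?_
    rintro _ rfl
    show TT p u x ∈ Subgroup.normalClosure {x}
    unfold TT
    exact mul_mem (inv_mem (pow_mem hx _)) (Subgroup.normalClosure_normal.conj_mem _ hx u)
  obtain ⟨a, k, hk, rfl⟩ := hh
  exact mul_mem (zpow_mem (pow_mem hx _) _) (hK hk)

/-- TARGET: the finite width theorem -/
theorem width2 [Finite Γ] [Fact p.Prime] (hΓ : IsPGroup p Γ)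
    (hgen : Subgroup.closure {x, u} = ⊤) (g : Γ) (hg : g ∈ KK p x u) :
    ∃ H ∈ Subgroup.normalClosure {x}, ∃ G ∈ Subgroup.normalClosure {x},
      g = TT p u H * cm G x := by
  obtain ⟨i, hi⟩ := ser_eq_bot p hΓ (KK p x u)
  obtain ⟨H, hH, G, hG, hgHG⟩ := width2_aux p x u hgen g hg i
  refine ⟨H, NS_zero_le p x u hH, G, NS_zero_le p x u hG, ?_⟩
  have h1 := QuotientGroup.eq.mp hgHG
  rw [hi, Subgroup.mem_bot] at h1
  exact inv_mul_eq_one.mp h1

end W2


end Pool.Agent.Helper948.ProP.W2d
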