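import Mathlib
import Pool.Agent.Helper948.ProP.Defs
import Pool.Agent.Helper948.ProP.Central
import Pool.Agent.Helper948.ProP.Lte
import Pool.Agent.Helper948.ProP.W1
import Pool.Agent.Helper948.ProP.W2d

set_option autoImplicit false

namespace Pool.Agent.Helper948.ProP

theorem central_zpowers (p : ℕ) [Fact p.Prime] {X F : Type} [Group F] [TopologicalSpace F]
    (ι : X → F) (hF : FinFree p ι) (z0 : X) (k : F) (hk : k * ι z0 = ι z0 * k)
    (G : Type) [Group G] [Finite G] (hG : IsPGroup p G) (φ : F →* G)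
    (hφ : IsOpen (φ.ker : Set F)) :
    φ k ∈ Subgroup.zpowers (φ (ι z0)) :=
  Central.central_zpowers p ι hF.ex hF.uq hF.fin z0 k hk G hG φ hφ

theorem lte_prod (p : ℕ) [Fact p.Prime] (r n i : ℕ) (b : ℕ → ℕ)
    (h : ∀ j ∈ Finset.range n, ¬ ((p : ℤ) ^ r ∣ (i : ℤ) - b j)) (m : ℕ) (hm : n * (r + 3) < m) :
    ¬ ((p : ℤ) ^ m ∣ ∏ j ∈ Finset.range n,
      ((1 + (p : ℤ) ^ 2) ^ (1 + p * b j) - (1 + (p : ℤ) ^ 2) ^ (1 + p * i))) :=
  Lte.lte_prod p r n i b h m hm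

theorem width1 {Γ : Type*} [Group Γ] [Finite Γ] (p : ℕ) [Fact p.Prime] (hΓ : IsPGroup p Γ)
    (x y : Γ) (hgen : Subgroup.closure {x, y} = ⊤) (c : Γ) (hc : c ∈ commutator Γ) :
    ∃ a b : Γ, c = cm a x * cm b y :=
  W1.width1 p hΓ x y hgen c hc

theorem width2 {Γ : Type*} [Group Γ] (p : ℕ) (x u : Γ) [Finite Γ] [Fact p.Prime]
    (hΓ : IsPGroup p Γ) (hgen : Subgroup.closure {x, u} = ⊤) (g : Γ)
    (hg : g ∈ Subgroup.normalClosure {TT p u x}) :
    ∃ H ∈ Subgroup.normalClosure {x}, ∃ G ∈ Subgroup.normalClosure {x},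
      g = TT p u H * cm G x :=
  W2d.width2 p x u hΓ hgen g hg

end Pool.Agent.Helper948.ProP
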