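import Mathlib
import Pool.Agent.Helper948.ProP.Defs
import Pool.Agent.Helper948.ProP.Glue

set_option autoImplicit false

namespace Pool.Agent.Helper948.ProP.E1

open Pool.Agent.Helper948.ProP




-- TARGETS

theorem TT_map {Γ Δ : Type*} [Group Γ] [Group Δ] (p : ℕ) (f : Γ →* Δ) (u H : Γ) :
    f (TT p u H) = TT p (f u) (f H) := by
  simp [TT]

theorem cm_map {Γ Δ : Type*} [Group Γ] [Group Δ] (f : Γ →* Δ) (a b : Γ) :
    f (cm a b) = cm (f a) (f b) := by
  simp [cm]

theorem NN_map {Γ Δ : Type*} [Group Γ] [Group Δ] (f : Γ →* Δ) {x y H : Γ} (h : NN x y H) :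
    NN (f x) (f y) (f H) := by
  obtain ⟨k, a, b, hk, rfl⟩ := h
  refine ⟨f k, f a, f b, ?_, ?_⟩
  · rw [← map_mul, ← map_mul, hk]
  · rw [map_mul, map_mul, cm_map, cm_map]

/-- positive existential formulas are preserved by homomorphisms -/
theorem PP_map {Γ Δ : Type*} [Group Γ] [Group Δ] (p : ℕ) (f : Γ →* Δ) {x y g u : Γ}
    (h : PP p x y g u) : PP p (f x) (f y) (f g) (f u) := by
  obtain ⟨H, G, hH, hG, rfl⟩ := h
  refine ⟨f H, f G, NN_map f hH, NN_map f hG, ?_⟩
  rw [map_mul, TT_map, cm_map]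

theorem gn_map {Γ Δ : Type*} [Group Γ] [Group Δ] (p : ℕ) (f : Γ →* Δ) (x y : Γ) (α n : ℕ) :
    f (gn p x y α n) = gn p (f x) (f y) α n := by
  induction n with
  | zero => rfl
  | succ n ih =>
    show f (TT p (y ^ (1 + p * α * (n + 1))) (gn p x y α n)) =
      TT p ((f y) ^ (1 + p * α * (n + 1))) (gn p (f x) (f y) α n)
    rw [TT_map, ih, map_pow]

theorem NN_of_mem {Δ : Type*} [Group Δ] [Finite Δ] (p : ℕ) [Fact p.Prime] (hΔ : IsPGroup p Δ)
    (x y : Δ) (hgen : Subgroup.closure {x, y} = ⊤) {H : Δ}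
    (hH : H ∈ Subgroup.normalClosure {x}) : NN x y H := by
  have h1 : Subgroup.normalClosure {x} ≤
      (Subgroup.zpowers (Abelianization.of x)).comap (Abelianization.of : Δ →* _) := by
    apply Subgroup.normalClosure_le_normal
    intro z hz
    rw [Set.mem_singleton_iff] at hz
    subst hz
    exact Subgroup.mem_zpowers _
  obtain ⟨i, hi⟩ := Subgroup.mem_zpowers_iff.mp (h1 hH)
  have h2 : x ^ (-i) * H ∈ commutator Δ := by
    rw [← Abelianization.ker_of, MonoidHom.mem_ker, map_mul, map_zpow]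
    have hi' : Abelianization.of x ^ i = Abelianization.of H := hi
    rw [← hi']
    simp
  obtain ⟨a, b, hab⟩ := width1 p hΔ x y hgen _ h2
  refine ⟨x ^ i, a, b, ?_, ?_⟩
  · exact (Commute.refl x).zpow_left i
  · rw [mul_assoc, ← hab, zpow_neg, mul_inv_cancel_left]

theorem zp_aux {Δ : Type*} [Group Δ] [Finite Δ] (p : ℕ) (x w : Δ)
    (hgen : Subgroup.closure {x, w} = ⊤) {H : Δ} (hH : H ∈ Subgroup.normalClosure {x}) :
    ∃ i : ℤ, QuotientGroup.mk' (Subgroup.normalClosure {TT p w x}) H =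
      (QuotientGroup.mk' (Subgroup.normalClosure {TT p w x}) x) ^ i := by
  set K := Subgroup.normalClosure {TT p w x} with hK
  set π := QuotientGroup.mk' K with hπ
  have hT : π (TT p w x) = 1 := by
    rw [hπ, QuotientGroup.mk'_apply, QuotientGroup.eq_one_iff]
    exact Subgroup.subset_normalClosure rfl
  have hwx : π w * π x * (π w)⁻¹ = π x ^ (1 + p ^ 2) := by
    rw [TT_map] at hT
    unfold TT at hT
    exact (inv_mul_eq_one.mp hT).symm
  -- the submonoid
  let S : Submonoid Δ :=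
    { carrier := {g | ∀ h ∈ Subgroup.zpowers (π x), π g * h * (π g)⁻¹ ∈ Subgroup.zpowers (π x)}
      one_mem' := by
        intro h hh
        simpa using hh
      mul_mem' := by
        intro a b ha hb h hh
        have := ha _ (hb h hh)
        rw [map_mul, mul_inv_rev]
        simpa [mul_assoc] using this }
  have hS : S = ⊤ := by
    rw [eq_top_iff]
    have h1 : (Subgroup.closure {x, w}).toSubmonoid = Submonoid.closure {x, w} :=
      Subgroup.closure_toSubmonoid_of_finite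
    rw [hgen] at h1
    have h2 : (⊤ : Submonoid Δ) = Submonoid.closure {x, w} := by
      rw [← h1]; rfl
    rw [h2, Submonoid.closure_le]
    intro g hg
    rcases hg with rfl | hg
    · intro h hh
      exact Subgroup.mul_mem _ (Subgroup.mul_mem _ (Subgroup.mem_zpowers _) hh)
        (Subgroup.inv_mem _ (Subgroup.mem_zpowers _))
    · rw [Set.mem_singleton_iff] at hg
      subst hg
      intro h hh
      obtain ⟨i, rfl⟩ := Subgroup.mem_zpowers_iff.mp hh
      rw [← conj_zpow, hwx]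
      exact Subgroup.zpow_mem _ (Subgroup.pow_mem _ (Subgroup.mem_zpowers _) _) _
  have hnorm : ((Subgroup.zpowers (π x)).comap π).Normal := by
    constructor
    intro n hn g
    have hg : g ∈ S := by rw [hS]; trivial
    have := hg (π n) hn
    rw [Subgroup.mem_comap, map_mul, map_mul, map_inv]
    exact this
  have h3 : Subgroup.normalClosure {x} ≤ (Subgroup.zpowers (π x)).comap π := by
    apply Subgroup.normalClosure_le_normal
    intro z hz
    rw [Set.mem_singleton_iff] at hz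
    subst hz
    exact Subgroup.mem_zpowers _
  obtain ⟨i, hi⟩ := Subgroup.mem_zpowers_iff.mp (h3 hH)
  exact ⟨i, hi.symm⟩

theorem TT_zpow {Q : Type*} [Group Q] (p : ℕ) (w x : Q) (hwx : w * x * w⁻¹ = x ^ (1 + p ^ 2))
    (i : ℤ) : TT p w (x ^ i) = 1 := by
  unfold TT
  rw [← conj_zpow, hwx, inv_mul_eq_one, ← zpow_natCast, ← zpow_natCast, ← zpow_mul, ← zpow_mul,
      mul_comm]

theorem TT_mem_K {Δ : Type*} [Group Δ] [Finite Δ] (p : ℕ) (x w : Δ)
    (hgen : Subgroup.closure {x, w} = ⊤) {H : Δ} (hH : H ∈ Subgroup.normalClosure {x}) :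
    TT p w H ∈ Subgroup.normalClosure {TT p w x} := by
  obtain ⟨i, hi⟩ := zp_aux p x w hgen hH
  set K := Subgroup.normalClosure {TT p w x} with hK
  set π := QuotientGroup.mk' K with hπ
  have hT : π (TT p w x) = 1 := by
    rw [hπ, QuotientGroup.mk'_apply, QuotientGroup.eq_one_iff]
    exact Subgroup.subset_normalClosure rfl
  have hwx : π w * π x * (π w)⁻¹ = π x ^ (1 + p ^ 2) := by
    rw [TT_map] at hT
    unfold TT at hT
    exact (inv_mul_eq_one.mp hT).symm
  have h1 : π (TT p w H) = 1 := by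
    rw [TT_map, hi]
    exact TT_zpow p _ _ hwx i
  rw [hπ, QuotientGroup.mk'_apply, QuotientGroup.eq_one_iff] at h1
  exact h1

theorem TT_mem_normal {Δ : Type*} [Group Δ] (p : ℕ) (N : Subgroup Δ) (hN : N.Normal) (v H : Δ)
    (hH : H ∈ N) : TT p v H ∈ N := by
  unfold TT
  exact N.mul_mem (N.inv_mem (N.pow_mem hH _)) (hN.conj_mem H hH v)

theorem gn_mem_x {Δ : Type*} [Group Δ] (p : ℕ) (x y : Δ) (α n : ℕ) :
    gn p x y α n ∈ Subgroup.normalClosure {x} := by
  induction n with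
  | zero => exact Subgroup.subset_normalClosure rfl
  | succ n ih => exact TT_mem_normal p _ Subgroup.normalClosure_normal _ _ ih

theorem gen_w {Δ : Type*} [Group Δ] [Finite Δ] (p : ℕ) [Fact p.Prime] (hΔ : IsPGroup p Δ)
    (x y : Δ) (hgen : Subgroup.closure {x, y} = ⊤) (α j : ℕ) :
    Subgroup.closure {x, y ^ (1 + p * α * j)} = ⊤ := by
  rw [eq_top_iff, ← hgen, Subgroup.closure_le]
  have hco : Nat.Coprime (1 + p * α * j) (orderOf y) := by
    obtain ⟨k, hk⟩ := (IsPGroup.iff_orderOf.mp hΔ) y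
    rw [hk]
    apply Nat.Coprime.pow_right
    rw [mul_assoc]
    simp
  obtain ⟨m, hm⟩ := exists_pow_eq_self_of_coprime hco
  intro g hg
  rcases hg with rfl | hg
  · exact Subgroup.subset_closure (Or.inl rfl)
  · rw [Set.mem_singleton_iff] at hg
    subst hg
    have h1 : g ^ (1 + p * α * j) ∈ Subgroup.closure {x, g ^ (1 + p * α * j)} :=
      Subgroup.subset_closure (Or.inr rfl)
    have h2 := Subgroup.pow_mem _ h1 m
    rw [hm] at h2
    exact h2

theorem gn_mem_K {Δ : Type*} [Group Δ] [Finite Δ] (p : ℕ) [Fact p.Prime] (hΔ : IsPGroup p Δ)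
    (x y : Δ) (hgen : Subgroup.closure {x, y} = ⊤) (α n j : ℕ) (hj : 1 ≤ j) (hjn : j ≤ n) :
    gn p x y α n ∈ Subgroup.normalClosure {TT p (y ^ (1 + p * α * j)) x} := by
  induction n, hjn using Nat.le_induction with
  | base =>
    obtain ⟨i, rfl⟩ : ∃ i, j = i + 1 := ⟨j - 1, by omega⟩
    exact TT_mem_K p x _ (gen_w p hΔ x y hgen α (i + 1)) (gn_mem_x p x y α i)
  | succ n hn ih => exact TT_mem_normal p _ Subgroup.normalClosure_normal _ _ ih

theorem fw_PP_gen {Δ : Type*} [Group Δ] [Finite Δ] (p : ℕ) [Fact p.Prime] (hΔ : IsPGroup p Δ)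
    (x y : Δ) (hgen : Subgroup.closure {x, y} = ⊤) (α n j : ℕ) (hj : 1 ≤ j) (hjn : j ≤ n) :
    PP p x y (gn p x y α n) (y ^ (1 + p * α * j)) := by
  obtain ⟨H, hH, G, hG, h⟩ := width2 p x (y ^ (1 + p * α * j)) hΔ (gen_w p hΔ x y hgen α j)
    (gn p x y α n) (gn_mem_K p hΔ x y hgen α n j hj hjn)
  exact ⟨H, G, NN_of_mem p hΔ x y hgen hH, NN_of_mem p hΔ x y hgen hG, h⟩

theorem fw_cert_gen {Δ : Type*} [Group Δ] [Finite Δ] (p : ℕ) [Fact p.Prime] (hΔ : IsPGroup p Δ)
    (x y : Δ) (hgen : Subgroup.closure {x, y} = ⊤) (α n : ℕ) :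
    ∃ k : Δ, k * x = x * k ∧ PP p x y (gn p x y α n * k⁻¹) y := by
  obtain ⟨i, hi⟩ := zp_aux p x y hgen (gn_mem_x p x y α n)
  refine ⟨x ^ i, (Commute.refl x).zpow_left i, ?_⟩
  have h1 : gn p x y α n * (x ^ i)⁻¹ ∈ Subgroup.normalClosure {TT p y x} := by
    rw [← QuotientGroup.eq_one_iff, ← QuotientGroup.mk'_apply, map_mul, hi, map_inv, map_zpow,
      mul_inv_cancel]
  obtain ⟨H, hH, G, hG, h⟩ := width2 p x y hΔ hgen _ h1
  exact ⟨H, G, NN_of_mem p hΔ x y hgen hH, NN_of_mem p hΔ x y hgen hG, h⟩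

theorem closure_sub {Γ : Type*} [Group Γ] (x y : Γ) :
    Subgroup.closure ({⟨x, Subgroup.subset_closure (Or.inl rfl)⟩,
      ⟨y, Subgroup.subset_closure (Or.inr rfl)⟩} : Set (Subgroup.closure {x, y})) = ⊤ := by
  have h := Subgroup.closure_closure_coe_preimage (k := ({x, y} : Set Γ))
  rw [← h]
  congr 1
  ext ⟨g, hg⟩
  simp [Subtype.ext_iff]

theorem fw_PP {Γ : Type*} [Group Γ] [Finite Γ] (p : ℕ) [Fact p.Prime] (hΓ : IsPGroup p Γ)
    (x y : Γ) (α n j : ℕ) (hj : 1 ≤ j) (hjn : j ≤ n) :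
    PP p x y (gn p x y α n) (y ^ (1 + p * α * j)) := by
  have h := fw_PP_gen p (hΓ.to_subgroup (Subgroup.closure {x, y})) _ _ (closure_sub x y) α n j
    hj hjn
  have h2 := PP_map p (Subgroup.closure {x, y}).subtype h
  rw [gn_map, map_pow] at h2
  exact h2

theorem fw_cert {Γ : Type*} [Group Γ] [Finite Γ] (p : ℕ) [Fact p.Prime] (hΓ : IsPGroup p Γ)
    (x y : Γ) (α n : ℕ) :
    ∃ k : Γ, k * x = x * k ∧ PP p x y (gn p x y α n * k⁻¹) y := by
  obtain ⟨k, hk, h⟩ := fw_cert_gen p (hΓ.to_subgroup (Subgroup.closure {x, y})) _ _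
    (closure_sub x y) α n
  refine ⟨k, ?_, ?_⟩
  · exact congrArg Subtype.val hk
  · have h2 := PP_map p (Subgroup.closure {x, y}).subtype h
    rw [map_mul, gn_map, map_inv] at h2
    exact h2


end Pool.Agent.Helper948.ProP.E1
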