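import Mathlib
import Pool.Agent.Helper948.ProP.Defs
import Pool.Agent.Helper948.ProP.Glue
import Pool.Agent.Helper948.ProP.AffG

set_option autoImplicit false

namespace Pool.Agent.Helper948.ProP.E2

open Pool.Agent.Helper948.ProP Pool.Agent.Helper948.ProP.AffG




-- GIVEN (proved elsewhere, leave these sorries): om_*, Finite, isPGroup_aff, PP_b, gn_aff, central_zpowers, lte_prod, PP_map, gn_map, fw_PP, fw_cert



-- TARGETS
section helpers
variable (p m : ℕ) [Fact p.Prime]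

theorem aff_mul_b (s t : Aff p m) : (s * t).b = s.b + om p m s.j * t.b := rfl
theorem aff_mul_j (s t : Aff p m) : (s * t).j = s.j + t.j := rfl
theorem aff_one_b : (1 : Aff p m).b = 0 := rfl
theorem aff_one_j : (1 : Aff p m).j = 0 := rfl
theorem aff_inv_b (s : Aff p m) : (s⁻¹).b = -(om p m (-s.j) * s.b) := rfl
theorem aff_inv_j (s : Aff p m) : (s⁻¹).j = -s.j := rfl

theorem aff_pow_y (c : ZMod (p ^ m)) (n : ℕ) : (⟨0, c⟩ : Aff p m) ^ n = ⟨0, c * n⟩ := by
  induction n with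
  | zero => rw [pow_zero]; ext <;> simp [aff_one_b, aff_one_j]
  | succ n ih =>
    rw [pow_succ, ih]
    ext
    · rw [aff_mul_b]; simp
    · rw [aff_mul_j]; push_cast; ring

theorem aff_pow_x (n : ℕ) : (⟨1, 0⟩ : Aff p m) ^ n = ⟨n, 0⟩ := by
  induction n with
  | zero => rw [pow_zero]; ext <;> simp [aff_one_b, aff_one_j]
  | succ n ih =>
    rw [pow_succ, ih]
    ext
    · rw [aff_mul_b]; simp [om_zero]
    · rw [aff_mul_j]; simp

theorem aff_zpow_x (n : ℤ) : (⟨1, 0⟩ : Aff p m) ^ n = ⟨n, 0⟩ := by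
  obtain ⟨k, rfl | rfl⟩ := n.eq_nat_or_neg
  · rw [zpow_natCast, aff_pow_x]; simp
  · rw [zpow_neg, zpow_natCast, aff_pow_x]
    ext
    · rw [aff_inv_b]; simp [om_zero]
    · rw [aff_inv_j]; simp

end helpers

theorem NN_map' {F G : Type*} [Group F] [Group G] (φ : F →* G) {x y H : F} (h : NN x y H) :
    NN (φ x) (φ y) (φ H) := by
  obtain ⟨k, a, b, hk, rfl⟩ := h
  refine ⟨φ k, φ a, φ b, by rw [← map_mul, hk, map_mul], ?_⟩
  simp [cm]

theorem PP_map' {F G : Type*} [Group F] [Group G] (φ : F →* G) (p : ℕ) {x y g u : F}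
    (h : PP p x y g u) : PP p (φ x) (φ y) (φ g) (φ u) := by
  obtain ⟨H, K, hH, hK, rfl⟩ := h
  refine ⟨φ H, φ K, NN_map' φ hH, NN_map' φ hK, ?_⟩
  simp [TT, cm]

theorem exists_aff (p : ℕ) [Fact p.Prime] {X F : Type} [Group F] [TopologicalSpace F]
    (ι : X → F) (hF : FinFree p ι) (z0 z1 : X) (hz : z0 ≠ z1) (m : ℕ) :
    ∃ φ : F →* Aff p m, IsOpen (φ.ker : Set F) ∧ φ (ι z0) = ⟨1, 0⟩ ∧ φ (ι z1) = ⟨0, 1⟩ := by
  classical
  obtain ⟨φ, hφ, h⟩ := hF.ex (Aff p m) (isPGroup_aff p m)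
    (fun z => if z = z0 then ⟨1, 0⟩ else if z = z1 then ⟨0, 1⟩ else 1) (by
      refine (Set.toFinite {z0, z1}).subset ?_
      intro z hz'
      by_contra hcon
      simp only [Set.mem_insert_iff, Set.mem_singleton_iff, not_or] at hcon
      apply hz'
      simp [hcon.1, hcon.2])
  refine ⟨φ, hφ, ?_, ?_⟩
  · rw [h]; simp
  · rw [h]; simp [hz.symm]

theorem exists_aff1 (p : ℕ) [Fact p.Prime] {X F : Type} [Group F] [TopologicalSpace F]
    (ι : X → F) (hF : FinFree p ι) (z1 : X) (m : ℕ) :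
    ∃ φ : F →* Aff p m, φ (ι z1) = ⟨0, 1⟩ := by
  classical
  obtain ⟨φ, hφ, h⟩ := hF.ex (Aff p m) (isPGroup_aff p m)
    (fun z => if z = z1 then ⟨0, 1⟩ else 1) (by
      refine (Set.toFinite {z1}).subset ?_
      intro z hz'
      by_contra hcon
      simp only [Set.mem_singleton_iff] at hcon
      apply hz'
      simp [hcon])
  refine ⟨φ, ?_⟩
  rw [h]; simp

/-- powers of a basis element are distinct -/
theorem pow_inj (p : ℕ) [Fact p.Prime] {X F : Type} [Group F] [TopologicalSpace F]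
    (ι : X → F) (hF : FinFree p ι) (z1 : X) (m n : ℕ) (h : ι z1 ^ m = ι z1 ^ n) : m = n := by
  have hp : 1 < p := (Fact.out : p.Prime).one_lt
  have hM : max m n < p ^ (max m n) := Nat.lt_pow_self hp
  obtain ⟨φ, hφ⟩ := exists_aff1 p ι hF z1 (max m n)
  have h2 := congrArg φ h
  rw [map_pow, map_pow, hφ, aff_pow_y, aff_pow_y] at h2
  have h3 := congrArg Aff.j h2
  simp only [one_mul] at h3
  rw [ZMod.natCast_eq_natCast_iff'] at h3
  rwa [Nat.mod_eq_of_lt (lt_of_le_of_lt (le_max_left _ _) hM),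
    Nat.mod_eq_of_lt (lt_of_le_of_lt (le_max_right _ _) hM)] at h3

/-- soundness of the chain relation -/
theorem chain_sound (p : ℕ) [Fact p.Prime] {X F : Type} [Group F] [TopologicalSpace F]
    (ι : X → F) (hF : FinFree p ι) (z0 z1 : X) (hz : z0 ≠ z1) (α : ℕ) (hα : 1 ≤ α) (u : F)
    (h : Chain p (ι z0) (ι z1) (ι z1 ^ α) u) : ∃ n : ℕ, 1 ≤ n ∧ u = ι z1 ^ (α * n) := by
  classical
  have hp : 1 < p := (Fact.out : p.Prime).one_lt
  by_contra hcon
  push Not at hcon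
  obtain ⟨g, k, hk, hk1, P1, P2, step⟩ := h
  have ind : ∀ i : ℕ, 1 ≤ i → PP p (ι z0) (ι z1) g (ι z1 * (ι z1 ^ (α * i)) ^ p) := by
    intro i hi
    induction i, hi using Nat.le_induction with
    | base => simpa using P2
    | succ i hi ih =>
      have hc : ι z1 ^ (α * i) * ι z1 = ι z1 * ι z1 ^ (α * i) := by
        rw [← pow_succ, ← pow_succ']
      rcases step _ hc ih with h | h
      · exact absurd h.symm (hcon i hi)
      · rw [← pow_add] at h
        rwa [Nat.mul_succ]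
  obtain ⟨G0, _, _, φ0, hG0, hφ0, hφk⟩ := hF.sep {k} (by simpa using hk1.symm)
  have hφk : φ0 k ≠ 1 := hφk k (by simp)
  obtain ⟨r, hr⟩ := hG0 (φ0 (ι z0))
  obtain ⟨φm, hφm, hx, hy⟩ := exists_aff p ι hF z0 z1 hz r
  let φ : F →* G0 × Aff p r := φ0.prod φm
  have hker : (φ.ker : Set F) = (φ0.ker : Set F) ∩ (φm.ker : Set F) := by
    ext z
    simp only [φ, SetLike.mem_coe, MonoidHom.mem_ker, MonoidHom.prod_apply, Prod.mk_eq_one,
      Set.mem_inter_iff]
  have hopen : IsOpen (φ.ker : Set F) := by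
    rw [hker]; exact hφ0.inter hφm
  have hpg : IsPGroup p (G0 × Aff p r) := by
    rintro ⟨a, b⟩
    obtain ⟨s, hs⟩ := hG0 a
    obtain ⟨t, ht⟩ := isPGroup_aff p r b
    refine ⟨s + t, ?_⟩
    ext1
    · show a ^ (p ^ (s + t)) = 1
      rw [pow_add, pow_mul, hs, one_pow]
    · show b ^ (p ^ (s + t)) = 1
      rw [add_comm, pow_add, pow_mul, ht, one_pow]
  obtain ⟨j, hj⟩ := central_zpowers p ι hF z0 k hk (G0 × Aff p r) hpg φ hopen
  have hj1 : φ0 (ι z0) ^ j = φ0 k := congrArg Prod.fst hj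
  have hj2 : φm (ι z0) ^ j = φm k := congrArg Prod.snd hj
  rw [hx, aff_zpow_x] at hj2
  have hom : om p r (1 : ZMod (p ^ r)) = 1 + (p : ZMod (p ^ r)) ^ 2 := by
    have := om_natCast p r 1
    simpa using this
  have hpr : ((p ^ r : ℕ) : ZMod (p ^ r)) = 0 := ZMod.natCast_self _
  have b1 : (φm g).b = 0 := by
    have h1 := PP_map' φm p (ind (p ^ r) (Nat.one_le_iff_ne_zero.2 (pow_ne_zero _ (by omega))))
    rw [hx] at h1
    refine PP_b p r _ _ _ _ rfl ?_ h1
    rw [map_mul, map_pow, map_pow, hy, aff_pow_y, aff_pow_y, aff_mul_j]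
    have : (1 : ZMod (p ^ r)) * ((α * p ^ r : ℕ) : ZMod (p ^ r)) * (p : ZMod (p ^ r)) = 0 := by
      rw [Nat.cast_mul, hpr]
      ring
    simp only [this, add_zero]
    exact hom
  have b2 : (φm (g * k⁻¹)).b = 0 := by
    have h1 := PP_map' φm p P1
    rw [hx] at h1
    refine PP_b p r _ _ _ _ rfl ?_ h1
    rw [hy]
    exact hom
  have b3 : φm g = φm (g * k⁻¹) * φm k := by rw [← map_mul]; simp
  have b4 := congrArg Aff.b b3
  rw [aff_mul_b, b1, b2, ← hj2, zero_add] at b4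
  have hunit : om p r (-(φm (g * k⁻¹)).j) * om p r (φm (g * k⁻¹)).j = 1 := by
    rw [← om_add, neg_add_cancel, om_zero]
  have b5 : ((j : ℤ) : ZMod (p ^ r)) = 0 := by
    have := congrArg (fun t => om p r (-(φm (g * k⁻¹)).j) * t) b4
    simp only [mul_zero, ← mul_assoc] at this
    rw [hunit, one_mul] at this
    exact this.symm
  rw [ZMod.intCast_zmod_eq_zero_iff_dvd] at b5
  obtain ⟨l, hl⟩ := b5
  apply hφk
  rw [← hj1, hl, zpow_mul]
  have : φ0 (ι z0) ^ ((p ^ r : ℕ) : ℤ) = 1 := by rw [zpow_natCast]; exact hr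
  rw [this, one_zpow]


end Pool.Agent.Helper948.ProP.E2
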