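import Mathlib
import Pool.Agent.Helper948.ProP.Defs
import Pool.Agent.Helper948.ProP.Glue
import Pool.Agent.Helper948.ProP.AffG
import Pool.Agent.Helper948.ProP.E1

set_option autoImplicit false

namespace Pool.Agent.Helper948.ProP.E3

open Pool.Agent.Helper948.ProP Pool.Agent.Helper948.ProP.AffG Pool.Agent.Helper948.ProP.E1




-- GIVEN (proved elsewhere, leave these sorries): om_*, Finite, isPGroup_aff, PP_b, gn_aff, central_zpowers, lte_prod, PP_map, gn_map, fw_PP, fw_cert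





-- TARGET
/-- auxiliary: the embedding of the second factor -/
def jHom (p m : ℕ) [Fact p.Prime] : Multiplicative (ZMod (p ^ m)) →* Aff p m where
  toFun j := ⟨0, Multiplicative.toAdd j⟩
  map_one' := rfl
  map_mul' a b := by
    ext
    · show (0 : ZMod (p ^ m)) = 0 + om p m _ * 0
      ring
    · rfl

theorem aff_zpow (p m : ℕ) [Fact p.Prime] (c : ZMod (p ^ m)) (j : ℤ) :
    ((⟨0, c⟩ : Aff p m)) ^ j = ⟨0, c * j⟩ := by
  have h : (⟨0, c⟩ : Aff p m) = jHom p m (Multiplicative.ofAdd c) := rfl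
  rw [h, ← map_zpow, ← ofAdd_zsmul]
  show (⟨0, j • c⟩ : Aff p m) = _
  rw [zsmul_eq_mul, mul_comm]

theorem aff_pow (p m : ℕ) [Fact p.Prime] (c : ZMod (p ^ m)) (j : ℕ) :
    ((⟨0, c⟩ : Aff p m)) ^ j = ⟨0, c * j⟩ := by
  have := aff_zpow p m c j
  simpa using this

theorem om_nat_mul (p m : ℕ) [Fact p.Prime] (z : ZMod (p ^ m)) (n : ℕ) :
    om p m (n * z) = om p m z ^ n := by
  induction n with
  | zero => simp [om_zero]
  | succ n ih => rw [Nat.cast_succ, add_mul, one_mul, om_add, ih, pow_succ]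

theorem exists_phi (p : ℕ) [Fact p.Prime] {X F : Type} [Group F] [TopologicalSpace F]
    (ι : X → F) (hF : FinFree p ι) (z0 z1 : X) (hz : z0 ≠ z1) (m : ℕ) (c : ZMod (p ^ m)) :
    ∃ φ : F →* Aff p m, IsOpen (φ.ker : Set F) ∧ φ (ι z0) = ⟨1, 0⟩ ∧ φ (ι z1) = ⟨0, c⟩ := by
  classical
  obtain ⟨φ, h1, h2⟩ := hF.ex (Aff p m) (isPGroup_aff p m)
    (fun z => if z = z0 then ⟨1, 0⟩ else if z = z1 then ⟨0, c⟩ else 1) (by
      apply Set.Finite.subset (Set.toFinite {z0, z1})
      intro z hz'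
      simp only [Set.mem_setOf_eq] at hz'
      by_contra hcon
      simp only [Set.mem_insert_iff, Set.mem_singleton_iff, not_or] at hcon
      rw [if_neg hcon.1, if_neg hcon.2] at hz'
      exact hz' rfl)
  refine ⟨φ, h1, ?_, ?_⟩
  · rw [h2]; simp
  · rw [h2, if_neg (Ne.symm hz)]; simp

theorem prod_zero (p : ℕ) [Fact p.Prime] {F : Type} [Group F] (x y : F) (m : ℕ)
    (c : ZMod (p ^ m))
    (φ : F →* Aff p m) (hx : φ x = ⟨1, 0⟩) (hy : φ y = ⟨0, c⟩) (α n : ℕ) (w : F)
    (hw : om p m (φ w).j = 1 + (p : ZMod (p ^ m)) ^ 2) (h : PP p x y (gn p x y α n) w) :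
    ∏ j ∈ Finset.range n, (om p m (c * (1 + p * α * (j + 1))) -
        (1 + (p : ZMod (p ^ m)) ^ 2)) = 0 := by
  have h1 := PP_map p φ h
  have h2 := PP_b p m _ _ _ _ hx hw h1
  rw [gn_map, hx, hy, gn_aff] at h2
  exact h2

theorem not_zero_prod (p : ℕ) [Fact p.Prime] (r n i : ℕ) (b : ℕ → ℕ)
    (h : ∀ j ∈ Finset.range n, ¬ ((p : ℤ) ^ r ∣ (i : ℤ) - b j)) (m : ℕ) (hm : n * (r + 3) < m) :
    ∏ j ∈ Finset.range n,
      ((1 + (p : ZMod (p ^ m)) ^ 2) ^ (1 + p * b j) -
        (1 + (p : ZMod (p ^ m)) ^ 2) ^ (1 + p * i)) ≠ 0 := by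
  intro h0
  apply lte_prod p r n i b h m hm
  have h1 : ((∏ j ∈ Finset.range n,
      ((1 + (p : ℤ) ^ 2) ^ (1 + p * b j) - (1 + (p : ℤ) ^ 2) ^ (1 + p * i)) : ℤ) :
        ZMod (p ^ m)) = 0 := by
    push_cast
    exact h0
  rw [CharP.intCast_eq_zero_iff (ZMod (p ^ m)) (p ^ m)] at h1
  exact_mod_cast h1

theorem isPGroup_prod' (p : ℕ) {G H : Type} [Group G] [Group H] (hG : IsPGroup p G)
    (hH : IsPGroup p H) : IsPGroup p (G × H) := by
  rintro ⟨a, b⟩
  obtain ⟨k, hk⟩ := hG a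
  obtain ⟨l, hl⟩ := hH b
  refine ⟨k + l, ?_⟩
  ext
  · show a ^ _ = 1
    rw [pow_add, pow_mul, hk, one_pow]
  · show b ^ _ = 1
    rw [pow_add, mul_comm, pow_mul, hl, one_pow]

theorem ker_prod_open {F G H : Type} [Group F] [TopologicalSpace F] [Group G] [Group H]
    (f : F →* G) (g : F →* H) (hf : IsOpen (f.ker : Set F)) (hg : IsOpen (g.ker : Set F)) :
    IsOpen ((f.prod g).ker : Set F) := by
  rw [MonoidHom.ker_prod, Subgroup.coe_inf]
  exact hf.inter hg

/-- completeness of the chain relation -/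
theorem chain_complete (p : ℕ) [Fact p.Prime] {X F : Type} [Group F] [TopologicalSpace F]
    (ι : X → F) (hF : FinFree p ι) (z0 z1 : X) (hz : z0 ≠ z1) (α : ℕ) (hα : 1 ≤ α) (n : ℕ)
    (hn : 1 ≤ n) : Chain p (ι z0) (ι z1) (ι z1 ^ α) (ι z1 ^ (α * n)) := by
  have hp : p.Prime := Fact.out
  have hPPj : ∀ j, 1 ≤ j → j ≤ n →
      PP p (ι z0) (ι z1) (gn p (ι z0) (ι z1) α n) ((ι z1) ^ (1 + p * α * j)) := by
    intro j hj hjn
    apply hF.cmpP
    intro G _ _ φ hG _ _
    rw [gn_map, map_pow]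
    exact fw_PP p hG (φ (ι z0)) (φ (ι z1)) α n j hj hjn
  obtain ⟨k, hk1, hk2⟩ := hF.cmpK (ι z0) (ι z1) (gn p (ι z0) (ι z1) α n) (ι z1) (by
    intro G _ _ φ hG _ _
    rw [gn_map]
    exact fw_cert p hG (φ (ι z0)) (φ (ι z1)) α n)
  refine ⟨gn p (ι z0) (ι z1) α n, k, hk1, ?_, hk2, ?_, ?_⟩
  · rintro rfl
    rw [inv_one, mul_one] at hk2
    obtain ⟨φ, -, h1, h2⟩ := exists_phi p ι hF z0 z1 hz (n * (α * n + 3) + 1) 1
    have h3 := prod_zero p (ι z0) (ι z1) _ 1 φ h1 h2 α n (ι z1) (by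
      rw [h2]
      show om p _ 1 = _
      have := om_natCast p (n * (α * n + 3) + 1) 1
      simpa using this) hk2
    refine not_zero_prod p (α * n) n 0 (fun j => α * (j + 1)) ?_ _ (Nat.lt_succ_self _) ?_
    · intro j hj hd
      rw [Finset.mem_range] at hj
      have hd2 : (p : ℤ) ^ (α * n) ∣ ((α * (j + 1) : ℕ) : ℤ) := by
        have := (dvd_neg.mpr hd)
        simpa using this
      have hd3 : p ^ (α * n) ∣ α * (j + 1) := by exact_mod_cast hd2
      have h4 := Nat.le_of_dvd (by positivity) hd3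
      have h5 : α * n < p ^ (α * n) := Nat.lt_pow_self hp.one_lt
      have h6 : α * (j + 1) ≤ α * n := Nat.mul_le_mul_left _ hj
      omega
    · rw [← h3]
      apply Finset.prod_congr rfl
      intro j _
      congr 1
      · rw [one_mul, ← om_natCast]
        congr 1
        push_cast
        ring
      · simp
  · have := hPPj 1 le_rfl hn
    rw [← pow_mul]
    rw [mul_one, pow_add, pow_one, mul_comm p α] at this
    exact this
  · intro v hv hPv
    by_cases hex : ∃ j, 1 ≤ j ∧ j ≤ n ∧ v = (ι z1) ^ (α * j)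
    · obtain ⟨j, hj1, hjn, rfl⟩ := hex
      rcases eq_or_lt_of_le hjn with h | h
      · left; rw [h]
      · right
        have := hPPj (j + 1) (by omega) h
        rw [← pow_add, ← pow_mul]
        rw [pow_add (ι z1) 1, pow_one] at this
        have he : (α * j + α) * p = p * α * (j + 1) := by ring
        rw [he]
        exact this
    · exfalso
      push Not at hex
      classical
      obtain ⟨G0, _, _, φ0, hG0, hφ0, hsep⟩ := hF.sep
        ((Finset.range n).image (fun j => v⁻¹ * (ι z1) ^ (α * (j + 1)))) (by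
        intro hmem
        rw [Finset.mem_image] at hmem
        obtain ⟨j, hj, hj2⟩ := hmem
        rw [Finset.mem_range] at hj
        exact hex (j + 1) (by omega) (by omega) (inv_mul_eq_one.mp hj2))
      have hsep' : ∀ j < n, φ0 v ≠ φ0 (ι z1) ^ (α * (j + 1)) := by
        intro j hj he
        apply hsep _ (Finset.mem_image_of_mem _ (Finset.mem_range.mpr hj))
        rw [map_mul, map_inv, map_pow, he, inv_mul_cancel]
      obtain ⟨r, hr⟩ := hG0 (φ0 (ι z1))
      obtain ⟨m, hm⟩ : ∃ m, m = n * (r + 3) + 1 := ⟨_, rfl⟩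
      obtain ⟨φ1, hφ1, h1x, h1y⟩ := exists_phi p ι hF z0 z1 hz m 1
      obtain ⟨j0, hj0⟩ := central_zpowers p ι hF z1 v hv (G0 × Aff p m)
        (isPGroup_prod' p hG0 (isPGroup_aff p m)) (φ0.prod φ1) (ker_prod_open φ0 φ1 hφ0 hφ1)
      have hj0a : φ0 (ι z1) ^ j0 = φ0 v := congrArg Prod.fst hj0
      have hj0b : φ1 v = ⟨0, (j0 : ZMod (p ^ m))⟩ := by
        have h : φ1 (ι z1) ^ j0 = φ1 v := congrArg Prod.snd hj0
        rw [← h, h1y, aff_zpow, one_mul]
      obtain ⟨i, hi1, hi2⟩ : ∃ i : ℕ, φ0 v = φ0 (ι z1) ^ i ∧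
          ((j0 : ZMod (p ^ m)) = (i : ZMod (p ^ m))) := by
        have hpos : (0 : ℤ) < (p : ℤ) ^ (r + m) := by
          have : (0 : ℤ) < p := by exact_mod_cast hp.pos
          positivity
        have hi : (((j0 % (p : ℤ) ^ (r + m)).toNat : ℕ) : ℤ) = j0 % (p : ℤ) ^ (r + m) :=
          Int.toNat_of_nonneg (Int.emod_nonneg _ hpos.ne')
        have hj : j0 = ((p ^ (r + m) : ℕ) : ℤ) * (j0 / (p : ℤ) ^ (r + m)) +
            (((j0 % (p : ℤ) ^ (r + m)).toNat : ℕ) : ℤ) := by
          rw [hi]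
          push_cast
          exact (Int.mul_ediv_add_emod _ _).symm
        refine ⟨(j0 % (p : ℤ) ^ (r + m)).toNat, ?_, ?_⟩
        · rw [← hj0a]
          conv_lhs => rw [hj]
          rw [zpow_add, zpow_mul, zpow_natCast, zpow_natCast, pow_add, pow_mul, hr, one_pow,
            one_zpow, one_mul]
        · conv_lhs => rw [hj]
          push_cast
          have h0 : (p : ZMod (p ^ m)) ^ m = 0 := by
            have := ZMod.natCast_self (p ^ m)
            push_cast at this
            exact this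
          rw [pow_add, h0]
          simp
      obtain ⟨c, hc⟩ : ∃ c : ZMod (p ^ m), c * (1 + p * i) = 1 := by
        refine ⟨((1 + p * i : ℕ) : ZMod (p ^ m))⁻¹, ?_⟩
        have := ZMod.coe_mul_inv_eq_one (n := p ^ m) (1 + p * i)
          (Nat.Coprime.pow_right m (by simp))
        rw [mul_comm]
        push_cast at this ⊢
        exact this
      obtain ⟨φc, hφc, hcx, hcy⟩ := exists_phi p ι hF z0 z1 hz m c
      obtain ⟨j1, hj1⟩ := central_zpowers p ι hF z1 v hv (Aff p m × Aff p m)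
        (isPGroup_prod' p (isPGroup_aff p m) (isPGroup_aff p m)) (φ1.prod φc)
        (ker_prod_open φ1 φc hφ1 hφc)
      have hj1a : φ1 (ι z1) ^ j1 = φ1 v := congrArg Prod.fst hj1
      have hj1b : φc (ι z1) ^ j1 = φc v := congrArg Prod.snd hj1
      rw [h1y, aff_zpow, one_mul, hj0b] at hj1a
      have hj1c : (j1 : ZMod (p ^ m)) = i := by
        rw [← hi2]; exact (Aff.ext_iff.mp hj1a).2
      rw [hcy, aff_zpow, hj1c] at hj1b
      have hw : om p m (φc (ι z1 * v ^ p)).j = 1 + (p : ZMod (p ^ m)) ^ 2 := by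
        rw [map_mul, map_pow, ← hj1b, hcy, aff_pow]
        show om p m (c + c * i * p) = _
        have : c + c * i * p = ((1 : ℕ) : ZMod (p ^ m)) := by
          push_cast
          rw [← hc]
          ring
        rw [this, om_natCast, pow_one]
      have h3 := prod_zero p (ι z0) (ι z1) m c φc hcx hcy α n _ hw hPv
      refine not_zero_prod p r n i (fun j => α * (j + 1)) ?_ m (by omega) ?_
      · intro j hj hdvd
        apply hsep' j (Finset.mem_range.mp hj)
        rw [hi1]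
        obtain ⟨q, hq⟩ := hdvd
        have h5 : (i : ℤ) = ((p ^ r : ℕ) : ℤ) * q + ((α * (j + 1) : ℕ) : ℤ) := by
          push_cast at hq ⊢
          linarith
        rw [← zpow_natCast, h5, zpow_add, zpow_mul, zpow_natCast, hr, one_zpow, one_mul,
          zpow_natCast]
      · have hd : ∏ j ∈ Finset.range n, (om p m (c * (1 + p * α * (j + 1))) -
            (1 + (p : ZMod (p ^ m)) ^ 2)) ∣ ∏ j ∈ Finset.range n,
            ((om p m (c * (1 + p * α * (j + 1)))) ^ (1 + p * i) -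
            (1 + (p : ZMod (p ^ m)) ^ 2) ^ (1 + p * i)) :=
          Finset.prod_dvd_prod_of_dvd _ _ (fun j _ => sub_dvd_pow_sub_pow _ _ (1 + p * i))
        rw [h3, zero_dvd_iff] at hd
        rw [← hd]
        apply Finset.prod_congr rfl
        intro j _
        congr 1
        rw [← om_nat_mul]
        have : ((1 + p * i : ℕ) : ZMod (p ^ m)) * (c * (1 + p * α * (j + 1))) =
            ((1 + p * (α * (j + 1)) : ℕ) : ZMod (p ^ m)) := by
          push_cast
          calc (1 + (p : ZMod (p ^ m)) * i) * (c * (1 + p * α * (j + 1)))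
              = (c * (1 + p * i)) * (1 + p * α * (j + 1)) := by ring
            _ = _ := by rw [hc]; ring
        rw [this, om_natCast]



end Pool.Agent.Helper948.ProP.E3
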