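import Mathlib
import Pool.Agent.Helper948.ProP.Defs

set_option autoImplicit false

namespace Pool.Agent.Helper948.ProP.Ex

open Pool.Agent.Helper948.ProP





section construct

/-- Indexing data: normal subgroups of `p`-power index of the free group containing almost all
generators. -/
structure Idx (p : ℕ) (X : Type) where
  N : Subgroup (FreeGroup X)
  nrm : N.Normal
  pw : ∃ k : ℕ, N.index = p ^ k
  fin : {z | FreeGroup.of z ∉ N}.Finite

variable {p : ℕ} {X : Type}

instance (n : Idx p X) : n.N.Normal := n.nrm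

/-- the quotient -/
def Qt (n : Idx p X) : Type := FreeGroup X ⧸ n.N

instance (n : Idx p X) : Group (Qt n) := inferInstanceAs (Group (FreeGroup X ⧸ n.N))
instance (n : Idx p X) : TopologicalSpace (Qt n) := ⊥
instance (n : Idx p X) : DiscreteTopology (Qt n) := ⟨rfl⟩

/-- the quotient map -/
def qmk (n : Idx p X) : FreeGroup X →* Qt n := QuotientGroup.mk' n.N

theorem qmk_one_iff (n : Idx p X) (w : FreeGroup X) : qmk n w = 1 ↔ w ∈ n.N :=
  QuotientGroup.eq_one_iff (N := n.N) w

theorem qmk_eq_iff (n : Idx p X) (v w : FreeGroup X) : qmk n v = qmk n w ↔ v⁻¹ * w ∈ n.N := by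
  rw [← qmk_one_iff, map_mul, map_inv, inv_mul_eq_one]

theorem qmk_surj (n : Idx p X) : Function.Surjective (qmk n) :=
  QuotientGroup.mk'_surjective n.N

theorem qt_card (n : Idx p X) : Nat.card (Qt n) = n.N.index := rfl

theorem qt_finite (hp : p.Prime) (n : Idx p X) : Finite (Qt n) := by
  obtain ⟨k, hk⟩ := n.pw
  apply Nat.finite_of_card_ne_zero
  rw [qt_card, hk]
  exact pow_ne_zero _ hp.ne_zero

/-- the diagonal map -/
def ii (p : ℕ) (X : Type) : FreeGroup X →* (∀ n : Idx p X, Qt n) :=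
  MonoidHom.pi (fun n => qmk n)

theorem ii_apply (w : FreeGroup X) (n : Idx p X) : ii p X w n = qmk n w := rfl

/-- the group -/
def FF (p : ℕ) (X : Type) : Subgroup (∀ n : Idx p X, Qt n) := (ii p X).range.topologicalClosure

theorem ii_mem (w : FreeGroup X) : ii p X w ∈ FF p X :=
  Subgroup.le_topologicalClosure _ ⟨w, rfl⟩

/-- the diagonal map into the group -/
def jj (p : ℕ) (X : Type) : FreeGroup X →* FF p X := (ii p X).codRestrict _ ii_mem

theorem jj_apply (w : FreeGroup X) (n : Idx p X) : (jj p X w).1 n = qmk n w := rfl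

theorem FF_induct (C : Set (∀ n : Idx p X, Qt n)) (hC : IsClosed C)
    (h : ∀ w, ii p X w ∈ C) (t : FF p X) : t.1 ∈ C := by
  have h1 : closure (Set.range (ii p X)) ⊆ C := by
    apply closure_minimal _ hC
    rintro _ ⟨w, rfl⟩
    exact h w
  exact h1 t.2

theorem compat (n m : Idx p X) (hnm : n.N ≤ m.N) (t : FF p X) (w : FreeGroup X)
    (h : t.1 n = qmk n w) : t.1 m = qmk m w := by
  have h1 := FF_induct (p := p) (X := X) {t | t n = qmk n w → t m = qmk m w} ?_ ?_ t
  · exact h1 h
  · have e : {t : ∀ n : Idx p X, Qt n | t n = qmk n w → t m = qmk m w} =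
        (fun t => t n) ⁻¹' {x | x ≠ qmk n w} ∪ (fun t => t m) ⁻¹' {x | x = qmk m w} := by
      ext t
      simp only [Set.mem_setOf_eq, Set.mem_union, Set.mem_preimage]
      tauto
    rw [e]
    exact ((isClosed_discrete _).preimage (continuous_apply n)).union
      ((isClosed_discrete _).preimage (continuous_apply m))
  · intro v hv
    have hv' : qmk n v = qmk n w := hv
    show qmk m v = qmk m w
    rw [qmk_eq_iff] at hv' ⊢
    exact hnm hv'

theorem idx_inf (hp : p.Prime) (n m : Idx p X) : ∃ l : Idx p X, l.N ≤ n.N ∧ l.N ≤ m.N := by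
  refine ⟨⟨n.N ⊓ m.N, inferInstance, ?_, ?_⟩, inf_le_left, inf_le_right⟩
  · obtain ⟨a, ha⟩ := n.pw
    obtain ⟨b, hb⟩ := m.pw
    have h1 : (n.N ⊓ m.N).relIndex m.N * m.N.index = (n.N ⊓ m.N).index :=
      Subgroup.relIndex_mul_index inf_le_right
    have h2 : (n.N ⊓ m.N).relIndex m.N = n.N.relIndex m.N := Subgroup.inf_relIndex_right _ _
    have h3 : n.N.relIndex m.N ∣ n.N.index := Subgroup.relIndex_dvd_index_of_normal _ _
    rw [ha] at h3
    obtain ⟨c, _, hc⟩ := (Nat.dvd_prime_pow hp).mp h3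
    exact ⟨c + b, by rw [← h1, h2, hc, hb, pow_add]⟩
  · refine (n.fin.union m.fin).subset ?_
    intro z hz
    simp only [Set.mem_setOf_eq, Subgroup.mem_inf, Set.mem_union] at hz ⊢
    tauto

theorem idx_fin (hp : p.Prime) (S : Finset (Idx p X)) : ∃ l : Idx p X, ∀ n ∈ S, l.N ≤ n.N := by
  classical
  induction S using Finset.induction_on with
  | empty =>
    exact ⟨⟨⊤, inferInstance, ⟨0, by simp⟩, by simp⟩, by simp⟩
  | insert a S _ ih =>
    obtain ⟨l, hl⟩ := ih
    obtain ⟨k, h1, h2⟩ := idx_inf hp a l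
    refine ⟨k, fun n hn => ?_⟩
    rcases Finset.mem_insert.mp hn with rfl | hn
    · exact h1
    · exact h2.trans (hl n hn)

theorem FF_basis (hp : p.Prime) (U : Set (FF p X)) (hU : U ∈ nhds (1 : FF p X)) :
    ∃ m : Idx p X, ∀ f : FF p X, f.1 m = 1 → f ∈ U := by
  rw [nhds_subtype_eq_comap, Filter.mem_comap] at hU
  obtain ⟨U', hU', hsub⟩ := hU
  rw [nhds_pi, Filter.mem_pi] at hU'
  obtain ⟨I, hI, t, ht, hsub'⟩ := hU'
  obtain ⟨m, hm⟩ := idx_fin hp hI.toFinset
  refine ⟨m, fun f hf => hsub (hsub' ?_)⟩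
  intro n hn
  have h1 : f.1 n = qmk n 1 := compat m n (hm n (by simpa using hn)) f 1 (by rw [hf, map_one])
  rw [h1, map_one]
  exact mem_of_mem_nhds (ht n)

/-- evaluation -/
def ev (m : Idx p X) : FF p X →* Qt m :=
  (Pi.evalMonoidHom (fun n : Idx p X => Qt n) m).comp (FF p X).subtype

theorem ev_apply (m : Idx p X) (t : FF p X) : ev m t = t.1 m := rfl

theorem ev_cont (m : Idx p X) : Continuous (ev m) :=
  (continuous_apply m).comp continuous_subtype_val

theorem ev_surj (m : Idx p X) : Function.Surjective (ev m) := by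
  intro x
  obtain ⟨w, rfl⟩ := qmk_surj m x
  exact ⟨jj p X w, rfl⟩

theorem FF_proP (hp : p.Prime) : IsProP p (FF p X) := by
  refine ⟨inferInstance, ?_, inferInstance, ?_⟩
  · have : ∀ n : Idx p X, Finite (Qt n) := fun n => qt_finite hp n
    have hc : IsCompact ((FF p X : Subgroup (∀ n : Idx p X, Qt n)) : Set (∀ n : Idx p X, Qt n)) :=
      IsClosed.isCompact (Subgroup.isClosed_topologicalClosure _)
    exact isCompact_iff_compactSpace.mp hc
  · intro U hU
    obtain ⟨m, hm⟩ := FF_basis hp U hU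
    refine ⟨(ev m).ker, inferInstance, ?_, fun f hf => hm f hf, ?_⟩
    · exact (isOpen_discrete ({1} : Set (Qt m))).preimage (ev_cont m)
    · obtain ⟨k, hk⟩ := m.pw
      refine ⟨k, ?_⟩
      rw [Subgroup.index_ker, MonoidHom.range_eq_top.mpr (ev_surj m), ← hk, ← qt_card]
      exact Nat.card_congr (Subgroup.topEquiv).toEquiv

theorem FF_conv (hp : p.Prime) : Conv (fun z : X => jj p X (FreeGroup.of z)) := by
  intro U hU
  obtain ⟨m, hm⟩ := FF_basis hp U hU
  refine m.fin.subset ?_
  intro z hz hz'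
  apply hz
  apply hm
  rw [jj_apply, qmk_one_iff]
  exact hz'

theorem jj_dense : DenseRange (jj p X) := by
  intro t
  rw [Topology.IsInducing.subtypeVal.closure_eq_preimage_closure_image, Set.mem_preimage]
  have : Subtype.val '' Set.range (jj p X) = Set.range (ii p X) := by
    ext y
    constructor
    · rintro ⟨_, ⟨w, rfl⟩, rfl⟩
      exact ⟨w, rfl⟩
    · rintro ⟨w, rfl⟩
      exact ⟨jj p X w, ⟨w, rfl⟩, rfl⟩
  have h2 : t.1 ∈ closure (Subtype.val '' Set.range (jj p X)) := by
    rw [this]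
    exact t.2
  exact h2

variable {G : Type} [Group G] [TopologicalSpace G]

/-- an open normal subgroup of `p`-power index -/
structure OW (p : ℕ) (G : Type) [Group G] [TopologicalSpace G] where
  W : Subgroup G
  nrm : W.Normal
  opn : IsOpen (W : Set G)
  pw : ∃ k : ℕ, W.index = p ^ k

instance (W : OW p G) : W.W.Normal := W.nrm

/-- pullback of an open normal subgroup -/
def pull (hp : p.Prime) (f : X → G) (hf : Conv f) (W : OW p G) : Idx p X where
  N := W.W.comap (FreeGroup.lift f)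
  nrm := inferInstance
  pw := by
    obtain ⟨k, hk⟩ := W.pw
    have h1 : (W.W.comap (FreeGroup.lift f)).index ∣ p ^ k := by
      rw [Subgroup.index_comap, ← hk]
      exact Subgroup.relIndex_dvd_index_of_normal _ _
    obtain ⟨c, _, hc⟩ := (Nat.dvd_prime_pow hp).mp h1
    exact ⟨c, hc⟩
  fin := by
    have := hf W.W (W.opn.mem_nhds W.W.one_mem)
    refine this.subset ?_
    intro z hz
    simpa using hz

theorem qmk_pull (hp : p.Prime) (f : X → G) (hf : Conv f) (W : OW p G) (v w : FreeGroup X) :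
    qmk (pull hp f hf W) v = qmk (pull hp f hf W) w ↔
      (FreeGroup.lift f v)⁻¹ * FreeGroup.lift f w ∈ W.W := by
  rw [qmk_eq_iff]
  show (FreeGroup.lift f) (v⁻¹ * w) ∈ W.W ↔ _
  rw [map_mul, map_inv]

/-- the relation defining the extension -/
def RR (hp : p.Prime) (f : X → G) (hf : Conv f) (t : FF p X) (g : G) : Prop :=
  ∀ W : OW p G, ∀ w : FreeGroup X, t.1 (pull hp f hf W) = qmk (pull hp f hf W) w →
    (FreeGroup.lift f w)⁻¹ * g ∈ W.W

theorem RR_unique (hp : p.Prime) (hG : IsProP p G) (f : X → G) (hf : Conv f) (t : FF p X)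
    (g h : G) (hg : RR hp f hf t g) (hh : RR hp f hf t h) : g = h := by
  have := hG.t2
  by_contra hne
  have h1 : (g⁻¹ * h) ≠ 1 := fun h => hne (inv_mul_eq_one.mp h)
  have h2 : ({g⁻¹ * h}ᶜ : Set G) ∈ nhds (1 : G) := isOpen_compl_singleton.mem_nhds h1.symm
  obtain ⟨V, hV1, hV2, hV3, hV4⟩ := hG.basis _ h2
  let W : OW p G := ⟨V, hV1, hV2, hV4⟩
  obtain ⟨w, hw⟩ := qmk_surj _ (t.1 (pull hp f hf W))
  have h3 := hg W w hw.symm
  have h4 := hh W w hw.symm
  have h5 : g⁻¹ * h ∈ V := by
    have := V.mul_mem (V.inv_mem h3) h4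
    simpa [mul_assoc] using this
  exact hV3 h5 rfl

theorem RR_exists (hp : p.Prime) (hG : IsProP p G) (f : X → G) (hf : Conv f) (t : FF p X) :
    ∃ g, RR hp f hf t g := by
  classical
  have := hG.t2
  have := hG.compact
  have := hG.topGroup
  let K : OW p G → Set G := fun W => {g | ∀ w : FreeGroup X,
    t.1 (pull hp f hf W) = qmk (pull hp f hf W) w → (FreeGroup.lift f w)⁻¹ * g ∈ W.W}
  have hsub : ∀ W₁ W₂ : OW p G, W₁.W ≤ W₂.W → K W₁ ⊆ K W₂ := by
    intro W₁ W₂ hle g hg w hw
    obtain ⟨v, hv⟩ := qmk_surj _ (t.1 (pull hp f hf W₁))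
    have h1 := hle (hg v hv.symm)
    have h2 : t.1 (pull hp f hf W₂) = qmk (pull hp f hf W₂) v :=
      compat _ _ (Subgroup.comap_mono hle) t v hv.symm
    rw [hw, qmk_pull] at h2
    have := W₂.W.mul_mem h2 h1
    simpa [mul_assoc] using this
  have hne : ∀ W, (K W).Nonempty := by
    intro W
    obtain ⟨v, hv⟩ := qmk_surj _ (t.1 (pull hp f hf W))
    refine ⟨FreeGroup.lift f v, fun w hw => ?_⟩
    rw [← hv, eq_comm, qmk_pull] at hw
    exact hw
  have hcl : ∀ W, IsClosed (K W) := by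
    intro W
    have e : K W = ⋂ w : FreeGroup X, {g | t.1 (pull hp f hf W) = qmk (pull hp f hf W) w →
        (FreeGroup.lift f w)⁻¹ * g ∈ W.W} := by
      ext g
      simp [K]
    rw [e]
    refine isClosed_iInter fun w => ?_
    by_cases h : t.1 (pull hp f hf W) = qmk (pull hp f hf W) w
    · simp only [h, forall_const]
      have hW : IsClosed (W.W : Set G) := Subgroup.isClosed_of_isOpen _ W.opn
      exact hW.preimage (continuous_const.mul continuous_id)
    · simp only [h, false_imp_iff, Set.setOf_true, isClosed_univ]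
  have hnon : Nonempty (OW p G) :=
    ⟨⟨⊤, inferInstance, isOpen_univ, 0, by simp⟩⟩
  have hdir : Directed (· ⊇ ·) K := by
    intro W₁ W₂
    have h1 : ((W₁.W : Set G) ∩ W₂.W) ∈ nhds (1 : G) :=
      (W₁.opn.inter W₂.opn).mem_nhds ⟨W₁.W.one_mem, W₂.W.one_mem⟩
    obtain ⟨V, hV1, hV2, hV3, hV4⟩ := hG.basis _ h1
    exact ⟨⟨V, hV1, hV2, hV4⟩, hsub _ _ (fun x hx => (hV3 hx).1),
      hsub _ _ (fun x hx => (hV3 hx).2)⟩
  obtain ⟨g, hg⟩ := IsCompact.nonempty_iInter_of_directed_nonempty_isCompact_isClosed K hdir hne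
    (fun W => (hcl W).isCompact) hcl
  rw [Set.mem_iInter] at hg
  exact ⟨g, fun W => hg W⟩

theorem RR_mul (hp : p.Prime) (f : X → G) (hf : Conv f) (s t : FF p X)
    (g h : G) (hg : RR hp f hf s g) (hh : RR hp f hf t h) : RR hp f hf (s * t) (g * h) := by
  intro W w hw
  obtain ⟨a, ha⟩ := qmk_surj _ (s.1 (pull hp f hf W))
  obtain ⟨b, hb⟩ := qmk_surj _ (t.1 (pull hp f hf W))
  have h1 := hg W a ha.symm
  have h2 := hh W b hb.symm
  have h3 : (s * t).1 (pull hp f hf W) = s.1 (pull hp f hf W) * t.1 (pull hp f hf W) := rfl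
  rw [h3, ← ha, ← hb, ← map_mul, eq_comm, qmk_pull] at hw
  have h4 : (FreeGroup.lift f b)⁻¹ * ((FreeGroup.lift f a)⁻¹ * g) * FreeGroup.lift f b ∈ W.W := by
    have := W.nrm.conj_mem _ h1 ((FreeGroup.lift f b)⁻¹)
    simpa using this
  have h5 := W.W.mul_mem hw (W.W.mul_mem h4 h2)
  have h6 : (FreeGroup.lift f w)⁻¹ * FreeGroup.lift f (a * b) *
      ((FreeGroup.lift f b)⁻¹ * ((FreeGroup.lift f a)⁻¹ * g) * FreeGroup.lift f b *
        ((FreeGroup.lift f b)⁻¹ * h)) = (FreeGroup.lift f w)⁻¹ * (g * h) := by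
    rw [map_mul]; group
  rw [h6] at h5
  exact h5

theorem RR_one (hp : p.Prime) (f : X → G) (hf : Conv f) (W : OW p G) (t : FF p X)
    (ht : t.1 (pull hp f hf W) = 1) (g : G) (hg : RR hp f hf t g) : g ∈ W.W := by
  have := hg W 1 (by rw [ht, map_one])
  simpa using this

theorem RR_jj (hp : p.Prime) (f : X → G) (hf : Conv f) (v : FreeGroup X) :
    RR hp f hf (jj p X v) (FreeGroup.lift f v) := by
  intro W w hw
  rw [jj_apply, eq_comm, qmk_pull] at hw
  exact hw

theorem FF_lift (hp : p.Prime) (hG : IsProP p G) (f : X → G) (hf : Conv f) :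
    ∃! φ : FF p X →ₜ* G, ∀ z, φ (jj p X (FreeGroup.of z)) = f z := by
  have := hG.t2
  have := hG.topGroup
  choose ψ hψ using RR_exists hp hG f hf
  have huniq : ∀ t g, RR hp f hf t g → ψ t = g := fun t g h =>
    RR_unique hp hG f hf t _ _ (hψ t) h
  let Ψ : FF p X →* G :=
    { toFun := ψ
      map_one' := by
        have := RR_jj hp f hf (1 : FreeGroup X)
        rw [map_one, map_one] at this
        exact huniq _ _ this
      map_mul' := fun s t => huniq _ _ (RR_mul hp f hf s t _ _ (hψ s) (hψ t)) }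
  have hcont : Continuous Ψ := by
    apply continuous_of_continuousAt_one
    intro U hU
    rw [map_one] at hU
    obtain ⟨V, hV1, hV2, hV3, hV4⟩ := hG.basis _ hU
    let W : OW p G := ⟨V, hV1, hV2, hV4⟩
    have h1 : {t : FF p X | ev (pull hp f hf W) t = 1} ∈ nhds (1 : FF p X) := by
      have : IsOpen {t : FF p X | ev (pull hp f hf W) t = 1} :=
        (isOpen_discrete ({1} : Set (Qt (pull hp f hf W)))).preimage (ev_cont _)
      exact this.mem_nhds (map_one _)
    rw [Filter.mem_map]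
    refine Filter.mem_of_superset h1 ?_
    intro t ht
    exact hV3 (RR_one hp f hf W t ht _ (hψ t))
  refine ⟨⟨Ψ, hcont⟩, ?_, ?_⟩
  · intro z
    have := RR_jj hp f hf (FreeGroup.of z)
    rw [FreeGroup.lift_apply_of] at this
    exact huniq _ _ this
  · intro χ hχ
    have hχj : ∀ w, χ (jj p X w) = FreeGroup.lift f w := by
      have : (χ : FF p X →* G).comp (jj p X) = FreeGroup.lift f := by
        ext z
        simpa using hχ z
      intro w
      exact DFunLike.congr_fun this w
    have hΨj : ∀ w, Ψ (jj p X w) = FreeGroup.lift f w := fun w => huniq _ _ (RR_jj hp f hf w)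
    have : (χ : FF p X → G) = Ψ := by
      apply jj_dense.equalizer χ.continuous_toFun hcont
      funext w
      show χ (jj p X w) = Ψ (jj p X w)
      rw [hχj, hΨj]
    apply ContinuousMonoidHom.ext
    intro t
    exact congrFun this t

end construct

/-- free pro-`p` groups exist -/
theorem exists_isFreeProP (p : ℕ) [Fact p.Prime] (X : Type) :
    ∃ (F : Type) (_ : Group F) (_ : TopologicalSpace F) (ι : X → F), IsFreeProP p ι := by
  have hp : p.Prime := Fact.out
  exact ⟨FF p X, inferInstance, inferInstance, fun z => jj p X (FreeGroup.of z),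
    FF_proP hp, FF_conv hp, fun G _ _ hG f hf => FF_lift hp hG f hf⟩



end Pool.Agent.Helper948.ProP.Ex
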