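import Mathlib
import Pool.Agent.Helper948.ProP.DM
import Pool.Agent.Helper948.ProP.Defs

set_option autoImplicit false

/-! The first-order language of groups, Gödel numbering, and the relations used. -/

namespace Pool.Agent.Helper948.ProP

open FirstOrder

/-- The function symbols `1` (constant), `⁻¹` (unary) and `·` (binary). -/
inductive GSym : ℕ → Type
  | one : GSym 0
  | inv : GSym 1
  | mul : GSym 2

/-- The first-order language of groups `(·, ⁻¹, 1)`; the only predicate is equality. -/
def LGrp : FirstOrder.Language := ⟨GSym, fun _ => Empty⟩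

/-- Every group is a structure for the language of groups in the obvious way. -/
instance grpStructure (F : Type) [Group F] : LGrp.Structure F where
  funMap := fun {n} (f : GSym n) => match n, f with
    | _, .one => fun _ => 1
    | _, .inv => fun v => (v 0)⁻¹
    | _, .mul => fun v => v 0 * v 1
  RelMap := fun {_} r => Empty.elim r

/-- Gödel number of a term. -/
def termCode {k : ℕ} : LGrp.Term (Empty ⊕ Fin k) → ℕ
  | .var (.inr i) => Nat.pair 0 i
  | .func GSym.one _ => Nat.pair 1 0
  | .func GSym.inv ts => Nat.pair 2 (termCode (ts 0))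
  | .func GSym.mul ts => Nat.pair 3 (Nat.pair (termCode (ts 0)) (termCode (ts 1)))

/-- Gödel number of a formula (of a sentence when `k = 0`). -/
def code : {k : ℕ} → LGrp.BoundedFormula Empty k → ℕ
  | _, .falsum => Nat.pair 0 0
  | _, .equal t₁ t₂ => Nat.pair 1 (Nat.pair (termCode t₁) (termCode t₂))
  | _, .imp φ ψ => Nat.pair 2 (Nat.pair (code φ) (code ψ))
  | _, .all φ => Nat.pair 3 (code φ)

/-- the family of all pairs of parameters in `F` -/
abbrev Fm (F : Type) : F × F → Type := fun _ => F

/-- the parameters: `0 ↦ x`, `1 ↦ y` -/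
abbrev pr (F : Type) : ∀ i : F × F, Fin 2 → Fm F i := fun i => ![i.1, i.2]

/-! ### The interpreted arithmetic -/

section rels
variable {F : Type} [Group F]

/-- the natural numbers `y ^ n` -/
def NatR (p : ℕ) (x y u : F) : Prop := u = 1 ∨ Chain p x y y u

/-- least common multiple -/
def LcmR (p : ℕ) (x y a b c : F) : Prop :=
  Chain p x y a c ∧ Chain p x y b c ∧
    ∀ d : F, NatR p x y d → Chain p x y a d → Chain p x y b d → Chain p x y c d

/-- multiplication -/
def MulR (p : ℕ) (x y a b c : F) : Prop :=
  (a = 1 ∧ c = 1) ∨ (b = 1 ∧ c = 1) ∨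
    ((a ≠ 1 ∧ b ≠ 1) ∧ ∃ s t r : F, (LcmR p x y a (a * y) s ∧ LcmR p x y b (b * y) t) ∧
      (LcmR p x y (a * b) (a * b * y) r ∧ r = s * t * (c * c)))

end rels

end Pool.Agent.Helper948.ProP
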