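import Mathlib
import Pool.Agent.Helper948.ProP.Defs
import Pool.Agent.Helper948.ProP.DM
import Pool.Agent.Helper948.ProP.Lang

set_option autoImplicit false

namespace Pool.Agent.Helper948.ProP.F2

open Pool.Agent.Helper948.ProP


namespace MD


end MD

open MD FirstOrder





/-! ### terms -/

section terms
variable {F : Type} [Group F]

/-- functions given by terms -/
def DT (t : (i : F × F) → (ℕ → F) → F) : Prop :=
  ∃ τ : LGrp.Term (Fin 2 ⊕ ℕ), ∀ (i : F × F) (v : ℕ → F),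
    τ.realize (Sum.elim (pr F i) v) = t i v

theorem DT.var (n : ℕ) : DT (F := F) (fun _ v => v n) :=
  ⟨Language.Term.var (Sum.inr n), fun _ _ => rfl⟩

theorem DT.par0 : DT (F := F) (fun i _ => i.1) :=
  ⟨Language.Term.var (Sum.inl 0), fun _ _ => rfl⟩

theorem DT.par1 : DT (F := F) (fun i _ => i.2) :=
  ⟨Language.Term.var (Sum.inl 1), fun _ _ => rfl⟩

theorem DT.one : DT (F := F) (fun _ _ => 1) :=
  ⟨Language.Term.func (GSym.one : LGrp.Functions 0) ![], fun _ _ => rfl⟩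

theorem DT.mul {s t : (i : F × F) → (ℕ → F) → F} (hs : DT s) (ht : DT t) :
    DT (fun i v => s i v * t i v) := by
  obtain ⟨a, ha⟩ := hs
  obtain ⟨b, hb⟩ := ht
  refine ⟨Language.Term.func (GSym.mul : LGrp.Functions 2) ![a, b], fun i v => ?_⟩
  show _ = s i v * t i v
  rw [← ha i v, ← hb i v]
  rfl

theorem DT.inv {s : (i : F × F) → (ℕ → F) → F} (hs : DT s) :
    DT (fun i v => (s i v)⁻¹) := by
  obtain ⟨a, ha⟩ := hs
  refine ⟨Language.Term.func (GSym.inv : LGrp.Functions 1) ![a], fun i v => ?_⟩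
  show _ = (s i v)⁻¹
  rw [← ha i v]
  rfl

theorem DT.pow {s : (i : F × F) → (ℕ → F) → F} (hs : DT s) (n : ℕ) :
    DT (fun i v => (s i v) ^ n) := by
  induction n with
  | zero => simpa using DT.one
  | succ n ih => simpa only [pow_succ] using ih.mul hs

theorem DT.cm {s t : (i : F × F) → (ℕ → F) → F} (hs : DT s) (ht : DT t) :
    DT (fun i v => cm (s i v) (t i v)) :=
  ((hs.mul ht).mul hs.inv).mul ht.inv

theorem DT.TT {s t : (i : F × F) → (ℕ → F) → F} (p : ℕ) (hs : DT s) (ht : DT t) :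
    DT (fun i v => TT p (s i v) (t i v)) :=
  (ht.pow (1 + p ^ 2)).inv.mul ((hs.mul ht).mul hs.inv)

theorem dm_eq {s t : (i : F × F) → (ℕ → F) → F} (hs : DT s) (ht : DT t) :
    DM LGrp (M := Fm F) (pr F) (fun i v => s i v = t i v) := by
  obtain ⟨a, ha⟩ := hs
  obtain ⟨b, hb⟩ := ht
  refine DM.iff (fun i v => ?_) (DM.term a b)
  rw [ha i v, hb i v]

theorem dm_subst {R : (i : F × F) → (ℕ → F) → Prop} {t : ℕ → (i : F × F) → (ℕ → F) → F}
    (hR : DM LGrp (M := Fm F) (pr F) R) (ht : ∀ n, DT (t n)) :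
    DM LGrp (M := Fm F) (pr F) (fun i v => R i (fun n => t n i v)) := by
  obtain ⟨φ, hφ⟩ := hR
  choose σ hσ using ht
  refine ⟨φ.subst (Sum.elim (fun p => Language.Term.var (Sum.inl p)) σ), fun i v => ?_⟩
  show _ ↔ R i (fun n => t n i v)
  rw [← hφ i]
  unfold Language.Formula.Realize
  rw [Language.BoundedFormula.realize_subst]
  have : (fun a => Language.Term.realize (Sum.elim (pr F i) v)
      (Sum.elim (fun p => Language.Term.var (Sum.inl p)) σ a))
      = Sum.elim (pr F i) (fun n => t n i v) := by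
    funext a
    rcases a with q | n
    · rfl
    · exact hσ n i v
  rw [this]

theorem dm_subst1 {R : (i : F × F) → F → Prop} {s : (i : F × F) → (ℕ → F) → F}
    (hR : DM LGrp (M := Fm F) (pr F) (fun i v => R i (v 0))) (hs : DT s) :
    DM LGrp (M := Fm F) (pr F) (fun i v => R i (s i v)) :=
  dm_subst (R := fun i v => R i (v 0)) (t := fun _ => s) hR (fun _ => hs)

theorem dm_subst2 {R : (i : F × F) → F → F → Prop} {s t : (i : F × F) → (ℕ → F) → F}
    (hR : DM LGrp (M := Fm F) (pr F) (fun i v => R i (v 0) (v 1))) (hs : DT s) (ht : DT t) :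
    DM LGrp (M := Fm F) (pr F) (fun i v => R i (s i v) (t i v)) :=
  dm_subst (R := fun i v => R i (v 0) (v 1)) (t := fun n => if n = 0 then s else t) hR
    (fun n => by
      by_cases h : n = 0
      · simpa [h] using hs
      · simpa [h] using ht)

theorem dm_subst3 {R : (i : F × F) → F → F → F → Prop} {s t u : (i : F × F) → (ℕ → F) → F}
    (hR : DM LGrp (M := Fm F) (pr F) (fun i v => R i (v 0) (v 1) (v 2))) (hs : DT s) (ht : DT t)
    (hu : DT u) :
    DM LGrp (M := Fm F) (pr F) (fun i v => R i (s i v) (t i v) (u i v)) :=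
  dm_subst (R := fun i v => R i (v 0) (v 1) (v 2))
    (t := fun n => if n = 0 then s else if n = 1 then t else u) hR
    (fun n => by
      by_cases h : n = 0
      · simpa [h] using hs
      · by_cases h' : n = 1
        · simpa [h'] using ht
        · simpa [h, h'] using hu)

theorem dm_NN0 : DM LGrp (M := Fm F) (pr F) (fun i v => NN i.1 i.2 (v 0)) := by
  unfold NN
  refine DM.ex (DM.ex (DM.ex (DM.and (dm_eq ?_ ?_) (dm_eq ?_ ?_))))
  · exact (DT.var 2).mul DT.par0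
  · exact DT.par0.mul (DT.var 2)
  · exact DT.var 3
  · exact ((DT.var 2).mul ((DT.var 1).cm DT.par0)).mul ((DT.var 0).cm DT.par1)

theorem dm_NN {s : (i : F × F) → (ℕ → F) → F} (hs : DT s) :
    DM LGrp (M := Fm F) (pr F) (fun i v => NN i.1 i.2 (s i v)) :=
  dm_subst1 (R := fun i h => NN i.1 i.2 h) dm_NN0 hs

theorem dm_PP0 (p : ℕ) :
    DM LGrp (M := Fm F) (pr F) (fun i v => PP p i.1 i.2 (v 0) (v 1)) := by
  unfold PP
  refine DM.ex (DM.ex (DM.and (dm_NN ?_) (DM.and (dm_NN ?_) (dm_eq ?_ ?_))))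
  · exact DT.var 1
  · exact DT.var 0
  · exact DT.var 2
  · exact (DT.TT p (DT.var 3) (DT.var 1)).mul ((DT.var 0).cm DT.par0)

theorem dm_PP (p : ℕ) {s t : (i : F × F) → (ℕ → F) → F} (hs : DT s) (ht : DT t) :
    DM LGrp (M := Fm F) (pr F) (fun i v => PP p i.1 i.2 (s i v) (t i v)) :=
  dm_subst2 (R := fun i g h => PP p i.1 i.2 g h) (dm_PP0 p) hs ht

theorem dm_Chain0 (p : ℕ) :
    DM LGrp (M := Fm F) (pr F) (fun i v => Chain p i.1 i.2 (v 0) (v 1)) := by
  unfold Chain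
  refine DM.ex (DM.ex (DM.and (dm_eq ?_ ?_) (DM.and (DM.not (dm_eq ?_ ?_))
    (DM.and (dm_PP p ?_ ?_) (DM.and (dm_PP p ?_ ?_) (DM.all (DM.imp (dm_eq ?_ ?_)
      (DM.imp (dm_PP p ?_ ?_) (DM.or (dm_eq ?_ ?_) (dm_PP p ?_ ?_))))))))))
  · exact (DT.var 0).mul DT.par0
  · exact DT.par0.mul (DT.var 0)
  · exact DT.var 0
  · exact DT.one
  · exact (DT.var 1).mul (DT.var 0).inv
  · exact DT.par1
  · exact DT.var 1
  · exact DT.par1.mul ((DT.var 2).pow p)
  · exact (DT.var 0).mul DT.par1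
  · exact DT.par1.mul (DT.var 0)
  · exact DT.var 2
  · exact DT.par1.mul ((DT.var 0).pow p)
  · exact DT.var 0
  · exact DT.var 4
  · exact DT.var 2
  · exact DT.par1.mul (((DT.var 0).mul (DT.var 3)).pow p)

theorem dm_Chain (p : ℕ) {s t : (i : F × F) → (ℕ → F) → F} (hs : DT s) (ht : DT t) :
    DM LGrp (M := Fm F) (pr F) (fun i v => Chain p i.1 i.2 (s i v) (t i v)) :=
  dm_subst2 (R := fun i g h => Chain p i.1 i.2 g h) (dm_Chain0 p) hs ht

theorem dm_NatR {s : (i : F × F) → (ℕ → F) → F} (p : ℕ) (hs : DT s) :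
    DM LGrp (M := Fm F) (pr F) (fun i v => NatR p i.1 i.2 (s i v)) := by
  unfold NatR
  exact DM.or (dm_eq hs DT.one) (dm_Chain p DT.par1 hs)

theorem dm_LcmR0 (p : ℕ) :
    DM LGrp (M := Fm F) (pr F) (fun i v => LcmR p i.1 i.2 (v 0) (v 1) (v 2)) := by
  unfold LcmR
  refine DM.and (dm_Chain p ?_ ?_) (DM.and (dm_Chain p ?_ ?_) (DM.all (DM.imp (dm_NatR p ?_)
    (DM.imp (dm_Chain p ?_ ?_) (DM.imp (dm_Chain p ?_ ?_) (dm_Chain p ?_ ?_))))))
  · exact DT.var 0
  · exact DT.var 2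
  · exact DT.var 1
  · exact DT.var 2
  · exact DT.var 0
  · exact DT.var 1
  · exact DT.var 0
  · exact DT.var 2
  · exact DT.var 0
  · exact DT.var 3
  · exact DT.var 0

theorem dm_LcmR (p : ℕ) {s t u : (i : F × F) → (ℕ → F) → F} (hs : DT s) (ht : DT t)
    (hu : DT u) :
    DM LGrp (M := Fm F) (pr F) (fun i v => LcmR p i.1 i.2 (s i v) (t i v) (u i v)) :=
  dm_subst3 (R := fun i g h k => LcmR p i.1 i.2 g h k) (dm_LcmR0 p) hs ht hu

end terms

/-- Term-level helpers are up to you.  Target: the two relations of the interpreted arithmetic are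
uniformly definable with the parameters `x, y`. -/
theorem dm_nat (F : Type) [Group F] (p : ℕ) :
    DM LGrp (M := Fm F) (pr F) (fun i v => NatR p i.1 i.2 (v 0)) :=
  dm_NatR p (DT.var 0)

theorem dm_mul (F : Type) [Group F] (p : ℕ) :
    DM LGrp (M := Fm F) (pr F) (fun i v => MulR p i.1 i.2 (v 0) (v 1) (v 2)) := by
  unfold MulR
  refine DM.or (DM.and (dm_eq ?_ ?_) (dm_eq ?_ ?_)) (DM.or (DM.and (dm_eq ?_ ?_) (dm_eq ?_ ?_))
    (DM.and (DM.and (DM.not (dm_eq ?_ ?_)) (DM.not (dm_eq ?_ ?_))) (DM.ex (DM.ex (DM.ex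
      (DM.and (DM.and (dm_LcmR p ?_ ?_ ?_) (dm_LcmR p ?_ ?_ ?_)) (DM.and (dm_LcmR p ?_ ?_ ?_)
        (dm_eq ?_ ?_))))))))
  · exact DT.var 0
  · exact DT.one
  · exact DT.var 2
  · exact DT.one
  · exact DT.var 1
  · exact DT.one
  · exact DT.var 2
  · exact DT.one
  · exact DT.var 0
  · exact DT.one
  · exact DT.var 1
  · exact DT.one
  · exact DT.var 3
  · exact (DT.var 3).mul DT.par1
  · exact DT.var 2
  · exact DT.var 4
  · exact (DT.var 4).mul DT.par1
  · exact DT.var 1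
  · exact (DT.var 3).mul (DT.var 4)
  · exact ((DT.var 3).mul (DT.var 4)).mul DT.par1
  · exact DT.var 0
  · exact DT.var 0
  · exact ((DT.var 2).mul (DT.var 1)).mul ((DT.var 5).mul (DT.var 5))


end Pool.Agent.Helper948.ProP.F2
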