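import Mathlib
import Pool.Agent.Helper948.ProP.Defs
import Pool.Agent.Helper948.ProP.Lang

set_option autoImplicit false

namespace Pool.Agent.Helper948.ProP.F3

open Pool.Agent.Helper948.ProP





/-- arithmetic: if the chain relation is exact on the powers of `y` then so are `NatR`, `MulR` -/
theorem nat_exact {F : Type} [Group F] (p : ℕ) (x y : F)
    (hinj : ∀ m n : ℕ, y ^ m = y ^ n → m = n)
    (hch : ∀ α : ℕ, 1 ≤ α → ∀ u : F, Chain p x y (y ^ α) u ↔ ∃ n : ℕ, 1 ≤ n ∧ u = y ^ (α * n))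
    (u : F) : NatR p x y u ↔ ∃ n : ℕ, u = y ^ n := by
  have h := hch 1 le_rfl u
  rw [pow_one] at h
  unfold NatR
  rw [h]
  constructor
  · rintro (h1 | ⟨n, -, h1⟩)
    · exact ⟨0, by rw [h1, pow_zero]⟩
    · exact ⟨n, by rw [h1, one_mul]⟩
  · rintro ⟨n, hn⟩
    rcases Nat.eq_zero_or_pos n with h0 | h0
    · left; rw [hn, h0, pow_zero]
    · right; exact ⟨n, h0, by rw [hn, one_mul]⟩

theorem mul_exact_chain {F : Type} [Group F] (p : ℕ) (x y : F)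
    (hinj : ∀ m n : ℕ, y ^ m = y ^ n → m = n)
    (hch : ∀ α : ℕ, 1 ≤ α → ∀ u : F, Chain p x y (y ^ α) u ↔ ∃ n : ℕ, 1 ≤ n ∧ u = y ^ (α * n))
    (a c : ℕ) (ha : 1 ≤ a) : Chain p x y (y ^ a) (y ^ c) ↔ a ∣ c ∧ 1 ≤ c := by
  rw [hch a ha]
  constructor
  · rintro ⟨n, hn, h⟩
    have := hinj _ _ h
    subst this
    exact ⟨dvd_mul_right _ _, Nat.mul_pos ha hn⟩
  · rintro ⟨⟨n, rfl⟩, h⟩
    exact ⟨n, Nat.pos_of_ne_zero (by rintro rfl; simp at h), rfl⟩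

theorem mul_exact_lcm {F : Type} [Group F] (p : ℕ) (x y : F)
    (hinj : ∀ m n : ℕ, y ^ m = y ^ n → m = n)
    (hch : ∀ α : ℕ, 1 ≤ α → ∀ u : F, Chain p x y (y ^ α) u ↔ ∃ n : ℕ, 1 ≤ n ∧ u = y ^ (α * n))
    (a b : ℕ) (ha : 1 ≤ a) (hb : 1 ≤ b) (s : F) :
    LcmR p x y (y ^ a) (y ^ b) s ↔ s = y ^ (Nat.lcm a b) := by
  have hc := mul_exact_chain p x y hinj hch
  have hL : 1 ≤ Nat.lcm a b := Nat.lcm_pos ha hb
  constructor
  · rintro ⟨h1, h2, h3⟩
    obtain ⟨n, hn, rfl⟩ := (hch a ha s).1 h1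
    obtain ⟨h4, h5⟩ := (hc b (a * n) hb).1 h2
    have h6 := h3 (y ^ (Nat.lcm a b)) ((nat_exact p x y hinj hch _).2 ⟨_, rfl⟩)
      ((hc a _ ha).2 ⟨Nat.dvd_lcm_left _ _, hL⟩) ((hc b _ hb).2 ⟨Nat.dvd_lcm_right _ _, hL⟩)
    obtain ⟨h7, -⟩ := (hc (a * n) _ h5).1 h6
    have h8 : Nat.lcm a b ∣ a * n := Nat.lcm_dvd (dvd_mul_right _ _) h4
    rw [Nat.dvd_antisymm h7 h8]
  · rintro rfl
    refine ⟨(hc a _ ha).2 ⟨Nat.dvd_lcm_left _ _, hL⟩, (hc b _ hb).2 ⟨Nat.dvd_lcm_right _ _, hL⟩, ?_⟩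
    intro d hd h1 h2
    obtain ⟨m, rfl⟩ := (nat_exact p x y hinj hch _).1 hd
    obtain ⟨h3, h4⟩ := (hc a m ha).1 h1
    obtain ⟨h5, -⟩ := (hc b m hb).1 h2
    exact (hc _ m hL).2 ⟨Nat.lcm_dvd h3 h5, h4⟩

theorem mul_exact {F : Type} [Group F] (p : ℕ) (x y : F)
    (hinj : ∀ m n : ℕ, y ^ m = y ^ n → m = n)
    (hch : ∀ α : ℕ, 1 ≤ α → ∀ u : F, Chain p x y (y ^ α) u ↔ ∃ n : ℕ, 1 ≤ n ∧ u = y ^ (α * n))
    (a b c : ℕ) : MulR p x y (y ^ a) (y ^ b) (y ^ c) ↔ c = a * b := by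
  have h1 : ∀ k : ℕ, y ^ k = 1 ↔ k = 0 := by
    intro k
    constructor
    · intro h; exact hinj k 0 (by rw [h, pow_zero])
    · rintro rfl; exact pow_zero _
  have hl : ∀ k : ℕ, 1 ≤ k → ∀ s, LcmR p x y (y ^ k) (y ^ (k + 1)) s ↔ s = y ^ (k * (k + 1)) := by
    intro k hk s
    rw [mul_exact_lcm p x y hinj hch k (k + 1) hk (by omega)]
    have : Nat.lcm k (k + 1) = k * (k + 1) := by
      have hcop : Nat.Coprime k (k + 1) := by simp
      exact hcop.lcm_eq_mul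
    rw [this]
  unfold MulR
  simp only [ne_eq, h1]
  rcases Nat.eq_zero_or_pos a with ha | ha
  · subst ha
    simp only [true_and, zero_mul, not_true_eq_false, false_and, or_false]
    constructor
    · rintro (h | h)
      · exact h
      · exact h.2
    · intro h; exact Or.inl h
  rcases Nat.eq_zero_or_pos b with hb | hb
  · subst hb
    simp only [true_and, mul_zero, not_true_eq_false, and_false, false_and, or_false]
    constructor
    · rintro (h | h)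
      · exact h.2
      · exact h
    · intro h; exact Or.inr h
  have ha' : a ≠ 0 := by omega
  have hb' : b ≠ 0 := by omega
  have e1 : y ^ a * y = y ^ (a + 1) := (pow_succ _ _).symm
  have e2 : y ^ b * y = y ^ (b + 1) := (pow_succ _ _).symm
  have e3 : y ^ a * y ^ b = y ^ (a + b) := (pow_add _ _ _).symm
  have e4 : y ^ (a + b) * y = y ^ (a + b + 1) := (pow_succ _ _).symm
  rw [e1, e2, e3, e4]
  simp only [ha', hb', false_and, false_or, not_false_eq_true, true_and]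
  constructor
  · rintro ⟨s, t, r, ⟨hs, ht⟩, hr, h⟩
    rw [hl a ha] at hs
    rw [hl b hb] at ht
    rw [hl (a + b) (by omega)] at hr
    subst hs ht hr
    rw [← pow_add, ← pow_add, ← pow_add] at h
    have h2 := hinj _ _ h
    nlinarith
  · rintro rfl
    refine ⟨_, _, _, ⟨(hl a ha _).2 rfl, (hl b hb _).2 rfl⟩, (hl (a + b) (by omega) _).2 rfl, ?_⟩
    rw [← pow_add, ← pow_add, ← pow_add]
    congr 1
    ring


end Pool.Agent.Helper948.ProP.F3
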