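import Mathlib
import Pool.Agent.Helper948.ProP.DPRM
import Pool.Agent.Helper948.ProP.Atoms

set_option autoImplicit false

namespace Pool.Agent.Helper948.ProP.F4a

open Pool.Agent.Helper948.ProP




/-- atomic constraints over a general set of variables -/
inductive AtV (V : Type)
  | one (i : V)
  | add (i j k : V)
  | mul (i j k : V)

namespace AtV

/-- the constraint holds -/
def Holds {V : Type} (x : V → ℕ) : AtV V → Prop
  | .one i => x i = 1
  | .add i j k => x i + x j = x k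
  | .mul i j k => x i * x j = x k

/-- renaming of the variables -/
def map {V W : Type} (f : V → W) : AtV V → AtV W
  | .one i => .one (f i)
  | .add i j k => .add (f i) (f j) (f k)
  | .mul i j k => .mul (f i) (f j) (f k)

theorem holds_map {V W : Type} (f : V → W) (c : AtV V) (x : W → ℕ) :
    (c.map f).Holds x ↔ c.Holds (x ∘ f) := by
  cases c <;> rfl

/-- the variables -/
def vars {V : Type} : AtV V → List V
  | .one i => [i]
  | .add i j k => [i, j, k]
  | .mul i j k => [i, j, k]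

theorem holds_congr {V : Type} (c : AtV V) (x y : V → ℕ) (h : ∀ v ∈ c.vars, x v = y v) :
    c.Holds x ↔ c.Holds y := by
  cases c with
  | one i => simp only [Holds]; rw [h i (by simp [vars])]
  | add i j k =>
    simp only [Holds]; rw [h i (by simp [vars]), h j (by simp [vars]), h k (by simp [vars])]
  | mul i j k =>
    simp only [Holds]; rw [h i (by simp [vars]), h j (by simp [vars]), h k (by simp [vars])]

/-- conversion to the constraints on sequences -/
def toAt {V : Type} (f : V → ℕ) : AtV V → At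
  | .one i => .one (f i)
  | .add i j k => .add (f i) (f j) (f k)
  | .mul i j k => .mul (f i) (f j) (f k)

theorem holds_toAt {V : Type} (f : V → ℕ) (c : AtV V) (x : ℕ → ℕ) :
    (c.toAt f).Holds x ↔ c.Holds (x ∘ f) := by
  cases c <;> rfl

end AtV

/-- a natural function computed by a straight line program -/
def NP {γ : Type} (f : (γ → ℕ) → ℕ) : Prop :=
  ∃ (β : Type) (L : List (AtV (γ ⊕ β))) (o : γ ⊕ β),
    (∀ (v : γ → ℕ) (y : β → ℕ), (∀ q ∈ L, q.Holds (Sum.elim v y)) → Sum.elim v y o = f v) ∧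
    (∀ v : γ → ℕ, ∃ y : β → ℕ, ∀ q ∈ L, q.Holds (Sum.elim v y))

theorem elim_comp {γ β₁ β₂ : Type} (v : γ → ℕ) (y : β₂ → ℕ) (j : β₁ → β₂) :
    Sum.elim v y ∘ Sum.map id j = Sum.elim v (y ∘ j) := by
  funext s
  rcases s with s | s <;> rfl

theorem pair {γ : Type} {f g : (γ → ℕ) → ℕ} (hf : NP f) (hg : NP g) :
    ∃ (β : Type) (L : List (AtV (γ ⊕ β))) (o₁ o₂ : γ ⊕ β),
    (∀ (v : γ → ℕ) (y : β → ℕ), (∀ q ∈ L, q.Holds (Sum.elim v y)) →
      Sum.elim v y o₁ = f v ∧ Sum.elim v y o₂ = g v) ∧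
    (∀ v : γ → ℕ, ∃ y : β → ℕ, ∀ q ∈ L, q.Holds (Sum.elim v y)) := by
  obtain ⟨β₁, L₁, o₁, s₁, c₁⟩ := hf
  obtain ⟨β₂, L₂, o₂, s₂, c₂⟩ := hg
  refine ⟨β₁ ⊕ β₂, L₁.map (AtV.map (Sum.map id Sum.inl)) ++ L₂.map (AtV.map (Sum.map id Sum.inr)),
    Sum.map id Sum.inl o₁, Sum.map id Sum.inr o₂, ?_, ?_⟩
  · intro v y h
    have h1 := s₁ v (y ∘ Sum.inl) (fun q hq => by
      rw [← elim_comp, ← AtV.holds_map]
      exact h _ (List.mem_append_left _ (List.mem_map_of_mem hq)))
    have h2 := s₂ v (y ∘ Sum.inr) (fun q hq => by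
      rw [← elim_comp, ← AtV.holds_map]
      exact h _ (List.mem_append_right _ (List.mem_map_of_mem hq)))
    rw [← elim_comp] at h1 h2
    exact ⟨h1, h2⟩
  · intro v
    obtain ⟨y₁, h₁⟩ := c₁ v
    obtain ⟨y₂, h₂⟩ := c₂ v
    refine ⟨Sum.elim y₁ y₂, fun q hq => ?_⟩
    rcases List.mem_append.1 hq with hq | hq
    · obtain ⟨q', hq', rfl⟩ := List.mem_map.1 hq
      rw [AtV.holds_map, elim_comp, Sum.elim_comp_inl]
      exact h₁ q' hq'
    · obtain ⟨q', hq', rfl⟩ := List.mem_map.1 hq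
      rw [AtV.holds_map, elim_comp, Sum.elim_comp_inr]
      exact h₂ q' hq'

theorem NP.bin {γ : Type} {f g : (γ → ℕ) → ℕ} (hf : NP f) (hg : NP g) (op : ℕ → ℕ → ℕ)
    (A : ∀ (V : Type), V → V → V → AtV V)
    (hA : ∀ (V : Type) (i j k : V) (x : V → ℕ), (A V i j k).Holds x ↔ op (x i) (x j) = x k) :
    NP (fun v => op (f v) (g v)) := by
  obtain ⟨β, L, o₁, o₂, s, c⟩ := pair hf hg
  refine ⟨β ⊕ Unit, A _ (Sum.map id Sum.inl o₁) (Sum.map id Sum.inl o₂) (Sum.inr (Sum.inr ())) ::
    L.map (AtV.map (Sum.map id Sum.inl)), Sum.inr (Sum.inr ()), ?_, ?_⟩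
  · intro v y h
    have h1 := s v (y ∘ Sum.inl) (fun q hq => by
      rw [← elim_comp, ← AtV.holds_map]
      exact h _ (List.mem_cons_of_mem _ (List.mem_map_of_mem hq)))
    have h2 := h _ List.mem_cons_self
    rw [hA] at h2
    rw [← elim_comp] at h1
    simp only [Function.comp] at h1
    rw [h1.1, h1.2] at h2
    exact h2.symm
  · intro v
    obtain ⟨y, hy⟩ := c v
    refine ⟨Sum.elim y (fun _ => op (f v) (g v)), fun q hq => ?_⟩
    have hs := s v y hy
    rcases List.mem_cons.1 hq with rfl | hq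
    · rw [hA]
      have e1 : ∀ o : γ ⊕ β, Sum.elim v (Sum.elim y (fun _ : Unit => op (f v) (g v)))
          (Sum.map id Sum.inl o) = Sum.elim v y o := by
        intro o
        rcases o with o | o <;> rfl
      rw [e1, e1, hs.1, hs.2]
      rfl
    · obtain ⟨q', hq', rfl⟩ := List.mem_map.1 hq
      rw [AtV.holds_map, elim_comp, Sum.elim_comp_inl]
      exact hy q' hq'

theorem NP.add {γ : Type} {f g : (γ → ℕ) → ℕ} (hf : NP f) (hg : NP g) :
    NP (fun v => f v + g v) :=
  NP.bin hf hg (· + ·) (fun _ => AtV.add) (fun _ _ _ _ _ => Iff.rfl)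

theorem NP.mul {γ : Type} {f g : (γ → ℕ) → ℕ} (hf : NP f) (hg : NP g) :
    NP (fun v => f v * g v) :=
  NP.bin hf hg (· * ·) (fun _ => AtV.mul) (fun _ _ _ _ _ => Iff.rfl)

theorem NP.proj {γ : Type} (i : γ) : NP (fun v : γ → ℕ => v i) :=
  ⟨Empty, [], Sum.inl i, fun _ _ _ => rfl, fun _ => ⟨Empty.elim, by simp⟩⟩

theorem NP.const {γ : Type} (n : ℕ) : NP (fun _ : γ → ℕ => n) := by
  induction n with
  | zero =>
    refine ⟨Unit, [.add (Sum.inr ()) (Sum.inr ()) (Sum.inr ())], Sum.inr (), ?_, ?_⟩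
    · intro v y h
      have h1 := h _ (List.mem_singleton.2 rfl)
      simp only [AtV.Holds] at h1
      change Sum.elim v y (Sum.inr ()) = 0
      omega
    · intro v
      refine ⟨fun _ => 0, fun q hq => ?_⟩
      rw [List.mem_singleton] at hq
      subst hq
      simp [AtV.Holds]
  | succ n ih =>
    have h1 : NP (fun _ : γ → ℕ => 1) := by
      refine ⟨Unit, [.one (Sum.inr ())], Sum.inr (), ?_, ?_⟩
      · intro v y h
        exact h _ (List.mem_singleton.2 rfl)
      · intro v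
        refine ⟨fun _ => 1, fun q hq => ?_⟩
        rw [List.mem_singleton] at hq
        subst hq
        simp [AtV.Holds]
    exact NP.add ih h1

theorem poly_diff {γ : Type} (p : Poly γ) :
    ∃ f g : (γ → ℕ) → ℕ, NP f ∧ NP g ∧ ∀ v, p v = (f v : ℤ) - (g v : ℤ) := by
  refine Poly.induction (C := fun p => ∃ f g : (γ → ℕ) → ℕ, NP f ∧ NP g ∧
    ∀ v, p v = (f v : ℤ) - (g v : ℤ)) ?_ ?_ ?_ ?_ p
  · intro i
    refine ⟨fun v => v i, fun _ => 0, NP.proj i, NP.const 0, fun v => ?_⟩
    simp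
  · intro n
    refine ⟨fun _ => n.toNat, fun _ => (-n).toNat, NP.const _, NP.const _, fun v => ?_⟩
    rw [Poly.const_apply]
    simp only
    omega
  · rintro p q ⟨f₁, g₁, hf₁, hg₁, h₁⟩ ⟨f₂, g₂, hf₂, hg₂, h₂⟩
    refine ⟨fun v => f₁ v + g₂ v, fun v => g₁ v + f₂ v, hf₁.add hg₂, hg₁.add hf₂, fun v => ?_⟩
    rw [Poly.sub_apply, h₁, h₂]
    push_cast
    ring
  · rintro p q ⟨f₁, g₁, hf₁, hg₁, h₁⟩ ⟨f₂, g₂, hf₂, hg₂, h₂⟩
    refine ⟨fun v => f₁ v * f₂ v + g₁ v * g₂ v, fun v => f₁ v * g₂ v + g₁ v * f₂ v,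
      (hf₁.mul hf₂).add (hg₁.mul hg₂), (hf₁.mul hg₂).add (hg₁.mul hf₂), fun v => ?_⟩
    rw [Poly.mul_apply, h₁, h₂]
    push_cast
    ring

theorem enum {V : Type} (inp : V) (LV : List (AtV V)) {S : ℕ → Prop}
    (hV : ∀ n, S n ↔ ∃ x : V → ℕ, x inp = n ∧ ∀ c ∈ LV, AtV.Holds x c) :
    ∃ L : List At, ∀ n, S n ↔ ∃ x : ℕ → ℕ, x 0 = n ∧ ∀ c ∈ L, At.Holds x c := by
  classical
  -- enumeration of the variables
  let l : List V := inp :: (LV.flatMap AtV.vars)
  let e : V → ℕ := fun v => l.idxOf v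
  let d : ℕ → V := fun n => l.getD n inp
  have hde : ∀ v ∈ l, d (e v) = v := by
    intro v hv
    have h1 : l.idxOf v < l.length := List.idxOf_lt_length_iff.2 hv
    change l.getD (l.idxOf v) inp = v
    rw [List.getD_eq_getElem _ _ h1]
    exact List.getElem_idxOf h1
  have he0 : e inp = 0 := by
    change (inp :: (LV.flatMap AtV.vars)).idxOf inp = 0
    exact List.idxOf_cons_self
  refine ⟨LV.map (AtV.toAt e), fun n => ?_⟩
  rw [hV]
  constructor
  · rintro ⟨x, hx, hc⟩
    refine ⟨fun m => x (d m), ?_, ?_⟩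
    · change x (l.getD 0 inp) = n
      exact hx
    · intro c hc'
      obtain ⟨q, hq, rfl⟩ := List.mem_map.1 hc'
      rw [AtV.holds_toAt]
      rw [AtV.holds_congr q _ x]
      · exact hc q hq
      · intro v hv
        change x (d (e v)) = x v
        rw [hde v]
        exact List.mem_cons_of_mem _ (List.mem_flatMap.2 ⟨q, hq, hv⟩)
  · rintro ⟨x, hx, hc⟩
    refine ⟨x ∘ e, ?_, ?_⟩
    · change x (e inp) = n
      rw [he0, hx]
    · intro q hq
      rw [← AtV.holds_toAt]
      exact hc _ (List.mem_map_of_mem hq)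

/-- Every r.e. set of naturals is defined by finitely many atomic constraints. -/
theorem exists_atoms {S : ℕ → Prop} (hS : REPred S) :
    ∃ L : List At, ∀ n, S n ↔ ∃ x : ℕ → ℕ, x 0 = n ∧ ∀ c ∈ L, At.Holds x c := by
  classical
  obtain ⟨β₀, p, hp⟩ := Pool.Agent.Helper948.ProP.Dio.dprm hS
  obtain ⟨f, g, hf, hg, hfg⟩ := poly_diff p
  obtain ⟨β, L, o₁, o₂, s, c⟩ := pair hf hg
  let V : Type := (Unit ⊕ β₀) ⊕ (β ⊕ Unit)
  let z : V := Sum.inr (Sum.inr ())
  let inp : V := Sum.inl (Sum.inl ())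
  let j : (Unit ⊕ β₀) ⊕ β → V := Sum.map id Sum.inl
  let LV : List (AtV V) := [.add z z z, .add (j o₁) z (j o₂)] ++ L.map (AtV.map j)
  have hV : ∀ n, S n ↔ ∃ x : V → ℕ, x inp = n ∧ ∀ c ∈ LV, AtV.Holds x c := by
    intro n
    have h0 : S n ↔ ∃ t, p (Sum.elim (fun _ : Unit => n) t) = 0 := hp (fun _ => n)
    rw [h0]
    constructor
    · rintro ⟨t, ht⟩
      rw [hfg] at ht
      have ht' : f (Sum.elim (fun _ => n) t) = g (Sum.elim (fun _ => n) t) := by omega
      obtain ⟨y, hy⟩ := c (Sum.elim (fun _ => n) t)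
      have hs := s _ y hy
      have hj : ∀ o : (Unit ⊕ β₀) ⊕ β, Sum.elim (Sum.elim (fun _ => n) t)
          (Sum.elim y (fun _ : Unit => 0)) (j o) = Sum.elim (Sum.elim (fun _ => n) t) y o := by
        intro o
        rcases o with o | o <;> rfl
      refine ⟨Sum.elim (Sum.elim (fun _ => n) t) (Sum.elim y (fun _ => 0)), rfl, ?_⟩
      intro c hc
      rcases List.mem_append.1 hc with hc | hc
      · simp only [List.mem_cons, List.not_mem_nil, or_false] at hc
        rcases hc with rfl | rfl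
        · rfl
        · simp only [AtV.Holds]
          rw [hj, hj, hs.1, hs.2, ht']
          rfl
      · obtain ⟨q', hq', rfl⟩ := List.mem_map.1 hc
        rw [AtV.holds_map, elim_comp, Sum.elim_comp_inl]
        exact hy q' hq'
    · rintro ⟨x, hx, hc⟩
      have hz : x z = 0 := by
        have h1 := hc (.add z z z) (List.mem_append_left _ (by simp))
        simp only [AtV.Holds] at h1
        omega
      have ho : x (j o₁) = x (j o₂) := by
        have h1 := hc (.add (j o₁) z (j o₂)) (List.mem_append_left _ (by simp))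
        simp only [AtV.Holds] at h1
        omega
      refine ⟨fun b => x (Sum.inl (Sum.inr b)), ?_⟩
      have hv : (Sum.elim (fun _ : Unit => n) (fun b => x (Sum.inl (Sum.inr b))))
          = fun s => x (Sum.inl s) := by
        funext s
        rcases s with ⟨⟩ | s
        · exact hx.symm
        · rfl
      have hx2 : x ∘ j = Sum.elim (fun s => x (Sum.inl s)) (fun b => x (Sum.inr (Sum.inl b))) := by
        funext s
        rcases s with s | s <;> rfl
      have hs := s (fun s => x (Sum.inl s)) (fun b => x (Sum.inr (Sum.inl b))) (fun q hq => by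
        rw [← hx2, ← AtV.holds_map]
        exact hc _ (List.mem_append_right _ (List.mem_map_of_mem hq)))
      rw [← hx2] at hs
      simp only [Function.comp] at hs
      rw [hv, hfg, ← hs.1, ← hs.2, ho, sub_self]
  exact enum inp LV hV


end Pool.Agent.Helper948.ProP.F4a
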