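import Mathlib
import Pool.Agent.Helper948.ProP.Defs
import Pool.Agent.Helper948.ProP.DM
import Pool.Agent.Helper948.ProP.Lang
import Pool.Agent.Helper948.ProP.Atoms

set_option autoImplicit false

namespace Pool.Agent.Helper948.ProP.F4b

open Pool.Agent.Helper948.ProP


namespace MD


end MD

open MD FirstOrder





section aux
open FirstOrder.Language

/-! ### The Gödel numbering is injective -/

theorem termCode_injective {k : ℕ} (s t : LGrp.Term (Empty ⊕ Fin k)) (h : termCode s = termCode t) :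
    s = t := by
  induction s generalizing t with
  | var x =>
    rcases x with x | i
    · exact x.elim
    · cases t with
      | var y =>
        rcases y with y | j
        · exact y.elim
        · simp only [termCode, Nat.pair_eq_pair] at h
          rw [Fin.ext h.2]
      | func g us =>
        cases g <;> simp [termCode, Nat.pair_eq_pair] at h
  | func f ts ih =>
    cases t with
    | var y =>
      rcases y with y | j
      · exact y.elim
      · cases f <;> simp [termCode, Nat.pair_eq_pair] at h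
    | func g us =>
      cases f <;> cases g <;> simp only [termCode, Nat.pair_eq_pair, false_and, true_and, OfNat.one_ne_ofNat,
        OfNat.ofNat_ne_one, Nat.reduceEqDiff] at h
      · congr 1; exact Subsingleton.elim _ _
      · congr 1
        funext i
        fin_cases i
        exact ih 0 _ h
      · congr 1
        funext i
        fin_cases i
        · exact ih 0 _ h.1
        · exact ih 1 _ h.2

theorem code_injective {k : ℕ} (φ ψ : LGrp.BoundedFormula Empty k) (h : code φ = code ψ) :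
    φ = ψ := by
  induction φ with
  | falsum =>
    cases ψ with
    | falsum => rfl
    | equal a b => simp [code, Nat.pair_eq_pair] at h
    | rel r a => exact Empty.elim r
    | imp a b => simp [code, Nat.pair_eq_pair] at h
    | all a => simp [code, Nat.pair_eq_pair] at h
  | equal a b =>
    cases ψ with
    | falsum => simp [code, Nat.pair_eq_pair] at h
    | equal c d =>
      simp only [code, Nat.pair_eq_pair, true_and] at h
      rw [termCode_injective _ _ h.1, termCode_injective _ _ h.2]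
    | rel r a => exact Empty.elim r
    | imp a b => simp [code, Nat.pair_eq_pair] at h
    | all a => simp [code, Nat.pair_eq_pair] at h
  | rel r a => exact Empty.elim r
  | imp a b iha ihb =>
    cases ψ with
    | falsum => simp [code, Nat.pair_eq_pair] at h
    | equal c d => simp [code, Nat.pair_eq_pair] at h
    | rel r a => exact Empty.elim r
    | imp c d =>
      simp only [code, Nat.pair_eq_pair, true_and] at h
      rw [iha _ h.1, ihb _ h.2]
    | all a => simp [code, Nat.pair_eq_pair] at h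
  | all a iha =>
    cases ψ with
    | falsum => simp [code, Nat.pair_eq_pair] at h
    | equal c d => simp [code, Nat.pair_eq_pair] at h
    | rel r a => exact Empty.elim r
    | imp c d => simp [code, Nat.pair_eq_pair] at h
    | all b =>
      simp only [code, Nat.pair_eq_pair, true_and] at h
      rw [iha _ h]

/-! ### Closure properties -/

/-- a block of `K` existential quantifiers -/
theorem dm_exK {F : Type} [Group F] {R : ∀ _ : F × F, (ℕ → F) → Prop}
    (hR : DM LGrp (M := Fm F) (pr F) R) (K : ℕ) :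
    DM LGrp (M := Fm F) (pr F) (fun i v => ∃ w : ℕ → F, (∀ n, w (n + K) = v n) ∧ R i w) := by
  induction K with
  | zero =>
    refine DM.iff (fun i v => ?_) hR
    constructor
    · intro h
      exact ⟨v, fun _ => rfl, h⟩
    · rintro ⟨w, hw, h⟩
      have : w = v := funext fun n => hw n
      rw [← this]
      exact h
  | succ K ih =>
    refine DM.iff (R := fun i v => ∃ a, ∃ w : ℕ → F, (∀ n, w (n + K) = cns a v n) ∧ R i w) ?_ ?_
    · intro i v
      constructor
      · rintro ⟨a, w, hw, h⟩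
        refine ⟨w, fun n => ?_, h⟩
        have h1 := hw (n + 1)
        rw [cns_succ] at h1
        rw [← h1]
        congr 1
        omega
      · rintro ⟨w, hw, h⟩
        refine ⟨w K, w, fun n => ?_, h⟩
        cases n with
        | zero => rw [cns_zero, Nat.zero_add]
        | succ n =>
          rw [cns_succ, ← hw n]
          congr 1
          omega
    · refine DM.ex (S := fun i a v => ∃ w : ℕ → F, (∀ n, w (n + K) = cns a v n) ∧ R i w) ?_
      refine DM.iff (fun i v => ?_) ih
      rw [cns_eta]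

/-- finite conjunctions -/
theorem dm_list {F : Type} [Group F] {T : Type} (l : List T)
    {R : T → ∀ _ : F × F, (ℕ → F) → Prop}
    (hR : ∀ c ∈ l, DM LGrp (M := Fm F) (pr F) (R c)) :
    DM LGrp (M := Fm F) (pr F) (fun i v => ∀ c ∈ l, R c i v) := by
  induction l with
  | nil => exact DM.iff (fun i v => by simp) (DM.const True)
  | cons a l ih =>
    refine DM.iff (fun i v => ?_) (DM.and (hR a List.mem_cons_self)
      (ih (fun c hc => hR c (List.mem_cons_of_mem _ hc))))
    simp

/-- variables -/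
abbrev tv (n : ℕ) : LGrp.Term (Fin 2 ⊕ ℕ) := Term.var (Sum.inr n)
/-- parameters -/
abbrev tp (n : Fin 2) : LGrp.Term (Fin 2 ⊕ ℕ) := Term.var (Sum.inl n)
/-- product of terms -/
abbrev tM {α : Type} (s t : LGrp.Term α) : LGrp.Term α :=
  Term.func (GSym.mul : LGrp.Functions 2) ![s, t]
/-- the term `1` -/
abbrev t1 {α : Type} : LGrp.Term α := Term.func (GSym.one : LGrp.Functions 0) ![]

section red
variable (F : Type) [Group F] (NR : F → F → F → Prop) (MR : F → F → F → F → F → Prop)

/-- the axioms used -/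
def Ax (x y : F) : Prop :=
  NR x y 1 ∧ (∀ u, NR x y u → NR x y (u * y)) ∧ (∀ a, NR x y a → MR x y a 1 1) ∧
  (∀ a b c, NR x y a → NR x y b → NR x y c → MR x y a b c → MR x y a (b * y) (c * a))

/-- translation of the atoms -/
def HtA (x y : F) (w : ℕ → F) : At → Prop
  | .one i => w i = y
  | .add i j k => w i * w j = w k
  | .mul i j k => MR x y (w i) (w j) (w k)

/-- the existential formula -/
def Psi (L : List At) (K : ℕ) (x y : F) (v : ℕ → F) : Prop :=
  ∃ w : ℕ → F, (∀ n, w (n + K) = v n) ∧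
    ((∀ j ∈ List.range K, NR x y (w j)) ∧ w 0 = w K ∧ ∀ c ∈ L, HtA F MR x y w c)

variable (hN : DM LGrp (M := Fm F) (pr F) (fun i v => NR i.1 i.2 (v 0)))
  (hM : DM LGrp (M := Fm F) (pr F) (fun i v => MR i.1 i.2 (v 0) (v 1) (v 2)))

include hN in
theorem dm_NR (k : ℕ) : DM LGrp (M := Fm F) (pr F) (fun i v => NR i.1 i.2 (v k)) :=
  DM.ren (R := fun (i : F × F) (v : ℕ → F) => NR i.1 i.2 (v 0)) (fun _ => k) hN

include hM in
theorem dm_MR (a b c : ℕ) :
    DM LGrp (M := Fm F) (pr F) (fun i v => MR i.1 i.2 (v a) (v b) (v c)) :=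
  DM.ren (R := fun (i : F × F) (v : ℕ → F) => MR i.1 i.2 (v 0) (v 1) (v 2))
    (fun n => if n = 0 then a else if n = 1 then b else c) hM

theorem dm_term (t₁ t₂ : LGrp.Term (Fin 2 ⊕ ℕ)) {R : ∀ _ : F × F, (ℕ → F) → Prop}
    (h : ∀ (i : F × F) (v : ℕ → F), R i v ↔
      t₁.realize (Sum.elim (pr F i) v) = t₂.realize (Sum.elim (pr F i) v)) :
    DM LGrp (M := Fm F) (pr F) R :=
  DM.iff (fun i v => (h i v).symm) (DM.term t₁ t₂)

include hN hM in
theorem dm_Ax : DM LGrp (M := Fm F) (pr F) (fun i _ => Ax F NR MR i.1 i.2) := by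
  refine DM.iff (R := fun (i : F × F) (_ : ℕ → F) =>
    (∃ e, e = 1 ∧ NR i.1 i.2 e) ∧ (∀ u, NR i.1 i.2 u → ∃ z, z = u * i.2 ∧ NR i.1 i.2 z) ∧
    (∀ a, NR i.1 i.2 a → ∃ e, e = 1 ∧ MR i.1 i.2 a e e) ∧
    (∀ a, ∀ b, ∀ c, NR i.1 i.2 a → NR i.1 i.2 b → NR i.1 i.2 c → MR i.1 i.2 a b c →
      ∃ p, p = b * i.2 ∧ ∃ q, q = c * a ∧ MR i.1 i.2 a p q)) ?_ ?_
  · intro i v
    unfold Ax
    simp only [exists_eq_left]
  · refine DM.and ?_ (DM.and ?_ (DM.and ?_ ?_))
    · refine DM.ex (S := fun (i : F × F) (e : F) (v : ℕ → F) => e = 1 ∧ NR i.1 i.2 e) (DM.and ?_ (dm_NR F NR hN 0))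
      exact dm_term F (tv 0) t1 (fun i v => Iff.rfl)
    · refine DM.all (S := fun (i : F × F) (u : F) (v : ℕ → F) => NR i.1 i.2 u → ∃ z, z = u * i.2 ∧ NR i.1 i.2 z)
        (DM.imp (dm_NR F NR hN 0) ?_)
      refine DM.ex (S := fun (i : F × F) (z : F) (v : ℕ → F) => z = v 0 * i.2 ∧ NR i.1 i.2 z)
        (DM.and ?_ (dm_NR F NR hN 0))
      exact dm_term F (tv 0) (tM (tv 1) (tp 1)) (fun i v => Iff.rfl)
    · refine DM.all (S := fun (i : F × F) (a : F) (v : ℕ → F) => NR i.1 i.2 a → ∃ e, e = 1 ∧ MR i.1 i.2 a e e)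
        (DM.imp (dm_NR F NR hN 0) ?_)
      refine DM.ex (S := fun (i : F × F) (e : F) (v : ℕ → F) => e = 1 ∧ MR i.1 i.2 (v 0) e e)
        (DM.and ?_ (dm_MR F MR hM 1 0 0))
      exact dm_term F (tv 0) t1 (fun i v => Iff.rfl)
    · refine DM.all (S := fun (i : F × F) (a : F) (v : ℕ → F) => ∀ b, ∀ c, NR i.1 i.2 a → NR i.1 i.2 b → NR i.1 i.2 c →
        MR i.1 i.2 a b c → ∃ p, p = b * i.2 ∧ ∃ q, q = c * a ∧ MR i.1 i.2 a p q) ?_
      refine DM.all (S := fun (i : F × F) (b : F) (v : ℕ → F) => ∀ c, NR i.1 i.2 (v 0) → NR i.1 i.2 b → NR i.1 i.2 c →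
        MR i.1 i.2 (v 0) b c → ∃ p, p = b * i.2 ∧ ∃ q, q = c * (v 0) ∧ MR i.1 i.2 (v 0) p q) ?_
      refine DM.all (S := fun (i : F × F) (c : F) (v : ℕ → F) => NR i.1 i.2 (v 1) → NR i.1 i.2 (v 0) → NR i.1 i.2 c →
        MR i.1 i.2 (v 1) (v 0) c → ∃ p, p = (v 0) * i.2 ∧ ∃ q, q = c * (v 1) ∧
          MR i.1 i.2 (v 1) p q) ?_
      refine DM.imp (dm_NR F NR hN 2) (DM.imp (dm_NR F NR hN 1) (DM.imp (dm_NR F NR hN 0)
        (DM.imp (dm_MR F MR hM 2 1 0) ?_)))
      refine DM.ex (S := fun (i : F × F) (p : F) (v : ℕ → F) => p = (v 1) * i.2 ∧ ∃ q, q = (v 0) * (v 2) ∧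
          MR i.1 i.2 (v 2) p q) (DM.and ?_ ?_)
      · exact dm_term F (tv 0) (tM (tv 2) (tp 1)) (fun i v => Iff.rfl)
      · refine DM.ex (S := fun (i : F × F) (q : F) (v : ℕ → F) => q = (v 1) * (v 3) ∧
          MR i.1 i.2 (v 3) (v 0) q) (DM.and ?_ (dm_MR F MR hM 4 1 0))
        exact dm_term F (tv 0) (tM (tv 2) (tv 4)) (fun i v => Iff.rfl)

include hN hM in
theorem dm_Psi (L : List At) (K : ℕ) :
    DM LGrp (M := Fm F) (pr F) (fun i v => Psi F NR MR L K i.1 i.2 v) := by
  refine dm_exK (R := fun i w => ((∀ j ∈ List.range K, NR i.1 i.2 (w j)) ∧ w 0 = w K ∧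
    ∀ c ∈ L, HtA F MR i.1 i.2 w c)) ?_ K
  refine DM.and ?_ (DM.and (DM.var_eq 0 K) ?_)
  · exact dm_list (R := fun j i w => NR i.1 i.2 (w j)) _ (fun j _ => dm_NR F NR hN j)
  · refine dm_list (R := fun c i w => HtA F MR i.1 i.2 w c) _ (fun c _ => ?_)
    cases c with
    | one i => exact dm_term F (tv i) (tp 1) (fun i v => Iff.rfl)
    | add i j k => exact dm_term F (tM (tv i) (tv j)) (tv k) (fun i v => Iff.rfl)
    | mul i j k => exact dm_MR F MR hM i j k

/-- a bound for the variables of an atom -/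
def bnd : At → ℕ
  | .one i => i + 1
  | .add i j k => i + j + k + 1
  | .mul i j k => i + j + k + 1

/-- a strict bound for the variables of a list of atoms -/
def bndL (L : List At) : ℕ := (L.map bnd).sum + 1

theorem bnd_le {L : List At} {c : At} (hc : c ∈ L) : bnd c < bndL L := by
  unfold bndL
  have := List.single_le_sum (l := L.map bnd) (fun _ _ => Nat.zero_le _) (bnd c)
    (List.mem_map_of_mem hc)
  omega

theorem ax_pow {x y : F} (h : Ax F NR MR x y) :
    (∀ m : ℕ, NR x y (y ^ m)) ∧ (∀ a b : ℕ, MR x y (y ^ a) (y ^ b) (y ^ (a * b))) := by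
  obtain ⟨h1, h2, h3, h4⟩ := h
  have hn : ∀ m : ℕ, NR x y (y ^ m) := by
    intro m
    induction m with
    | zero => rw [pow_zero]; exact h1
    | succ m ih => rw [pow_succ]; exact h2 _ ih
  refine ⟨hn, fun a b => ?_⟩
  induction b with
  | zero => rw [Nat.mul_zero, pow_zero]; exact h3 _ (hn a)
  | succ b ih =>
    have h5 := h4 _ _ _ (hn a) (hn b) (hn (a * b)) ih
    rw [← pow_succ, ← pow_add] at h5
    exact h5

theorem psi_iff (x0 y0 : F) (hinj : ∀ m n : ℕ, y0 ^ m = y0 ^ n → m = n)
    (hNat : ∀ u, NR x0 y0 u ↔ ∃ n : ℕ, u = y0 ^ n)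
    (hMul : ∀ a b c : ℕ, MR x0 y0 (y0 ^ a) (y0 ^ b) (y0 ^ c) ↔ c = a * b)
    (S : ℕ → Prop) (L : List At)
    (hL : ∀ n, S n ↔ ∃ x : ℕ → ℕ, x 0 = n ∧ ∀ c ∈ L, At.Holds x c) (n : ℕ) :
    (∀ (i : F × F) (v : ℕ → F), v 0 = i.2 ^ n → Ax F NR MR i.1 i.2 →
      Psi F NR MR L (bndL L) i.1 i.2 v) ↔ S n := by
  classical
  constructor
  · intro h
    have hax : Ax F NR MR x0 y0 := by
      refine ⟨(hNat 1).2 ⟨0, (pow_zero y0).symm⟩, ?_, ?_, ?_⟩
      · intro u hu
        obtain ⟨m, rfl⟩ := (hNat u).1 hu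
        exact (hNat _).2 ⟨m + 1, (pow_succ y0 m).symm⟩
      · intro a ha
        obtain ⟨m, rfl⟩ := (hNat a).1 ha
        have := (hMul m 0 0).2 (by simp)
        rwa [pow_zero] at this
      · intro a b c ha hb hc hm
        obtain ⟨a, rfl⟩ := (hNat a).1 ha
        obtain ⟨b, rfl⟩ := (hNat b).1 hb
        obtain ⟨c, rfl⟩ := (hNat c).1 hc
        have h1 := (hMul a b c).1 hm
        rw [← pow_succ, ← pow_add]
        refine (hMul _ _ _).2 ?_
        rw [h1]
        ring
    obtain ⟨w, hw, hr, h0, hc⟩ := h (x0, y0) (fun _ => y0 ^ n) rfl hax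
    have hr' : ∀ j, j < bndL L → ∃ m : ℕ, w j = y0 ^ m := fun j hj =>
      (hNat _).1 (hr j (List.mem_range.2 hj))
    choose! x hx using hr'
    rw [hL]
    refine ⟨x, ?_, ?_⟩
    · have h1 : w (0 + bndL L) = y0 ^ n := hw 0
      rw [Nat.zero_add, ← h0, hx 0 (by unfold bndL; omega)] at h1
      exact hinj _ _ h1
    · intro c hcL
      have hb := bnd_le hcL
      have h1 := hc c hcL
      cases c with
      | one i =>
        simp only [bnd] at hb
        change w i = y0 at h1
        rw [hx i (by omega)] at h1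
        exact hinj _ _ (h1.trans (pow_one y0).symm)
      | add i j k =>
        simp only [bnd] at hb
        change w i * w j = w k at h1
        rw [hx i (by omega), hx j (by omega), hx k (by omega), ← pow_add] at h1
        exact hinj _ _ h1
      | mul i j k =>
        simp only [bnd] at hb
        change MR x0 y0 (w i) (w j) (w k) at h1
        rw [hx i (by omega), hx j (by omega), hx k (by omega)] at h1
        exact ((hMul _ _ _).1 h1).symm
  · intro hS i v hv hax
    obtain ⟨x, hx0, hx⟩ := (hL n).1 hS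
    obtain ⟨hn, hm⟩ := ax_pow F NR MR hax
    let w : ℕ → F := fun j => if j < bndL L then i.2 ^ (x j) else v (j - bndL L)
    have hwl : ∀ j, j < bndL L → w j = i.2 ^ (x j) := fun j hj => if_pos hj
    have hwv : ∀ m, w (m + bndL L) = v m := by
      intro m
      change (if m + bndL L < bndL L then i.2 ^ (x (m + bndL L)) else v (m + bndL L - bndL L)) = v m
      rw [if_neg (by omega), Nat.add_sub_cancel]
    refine ⟨w, hwv, ?_, ?_, ?_⟩
    · intro j hj
      rw [hwl j (List.mem_range.1 hj)]
      exact hn _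
    · have h1 := hwv 0
      rw [Nat.zero_add] at h1
      rw [h1, hwl 0 (by unfold bndL; omega), hx0, hv]
    · intro c hcL
      have hb := bnd_le hcL
      have h1 := hx c hcL
      cases c with
      | one j =>
        simp only [bnd] at hb
        simp only [At.Holds] at h1
        change w j = i.2
        rw [hwl j (by omega), h1, pow_one]
      | add j k l =>
        simp only [bnd] at hb
        simp only [At.Holds] at h1
        change w j * w k = w l
        rw [hwl j (by omega), hwl k (by omega), hwl l (by omega), ← pow_add, h1]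
      | mul j k l =>
        simp only [bnd] at hb
        simp only [At.Holds] at h1
        change MR i.1 i.2 (w j) (w k) (w l)
        rw [hwl j (by omega), hwl k (by omega), hwl l (by omega), ← h1]
        exact hm _ _

end red

/-! ### The reduction -/

/-- numerals: powers of the variable `y` -/
def num : ℕ → LGrp.Term (Empty ⊕ Fin 3)
  | 0 => t1
  | n + 1 => tM (num n) (Term.var (Sum.inr 1))

theorem realize_num {F : Type} [Group F] (n : ℕ) (v : Empty ⊕ Fin 3 → F) :
    (num n).realize v = v (Sum.inr 1) ^ n := by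
  induction n with
  | zero => exact (pow_zero _).symm
  | succ n ih =>
    have : (num (n + 1)).realize v = (num n).realize v * v (Sum.inr 1) := rfl
    rw [this, ih, pow_succ]

theorem primrec_num : Primrec (fun n => termCode (num n)) := by
  have : (fun n => termCode (num n)) = (fun n => Nat.rec (Nat.pair 1 0)
      (fun _ c => Nat.pair 3 (Nat.pair c (Nat.pair 0 1))) n) := by
    funext n
    induction n with
    | zero => rfl
    | succ n ih =>
      show Nat.pair 3 (Nat.pair (termCode (num n)) (Nat.pair 0 1)) = _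
      rw [ih]
  rw [this]
  refine Primrec.nat_rec₁ _ ?_
  exact Primrec₂.natPair.comp (Primrec.const 3)
    (Primrec₂.natPair.comp Primrec.snd (Primrec.const _))

/-- The sentence `∀ x y t, t = y ^ n → Φ x y t`. -/
def sig (Φ : LGrp.BoundedFormula Empty 3) (n : ℕ) : LGrp.Sentence :=
  (((BoundedFormula.equal (Term.var (Sum.inr 2)) (num n)).imp Φ).all.all.all :
    LGrp.BoundedFormula Empty 0)

theorem code_sig (Φ : LGrp.BoundedFormula Empty 3) (n : ℕ) : code (sig Φ n) =
    Nat.pair 3 (Nat.pair 3 (Nat.pair 3 (Nat.pair 2 (Nat.pair (Nat.pair 1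
      (Nat.pair (Nat.pair 0 2) (termCode (num n)))) (code Φ))))) := rfl

theorem primrec_sig (Φ : LGrp.BoundedFormula Empty 3) : Primrec (fun n => code (sig Φ n)) := by
  simp only [code_sig]
  refine Primrec₂.natPair.comp (Primrec.const _) (Primrec₂.natPair.comp (Primrec.const _)
    (Primrec₂.natPair.comp (Primrec.const _) (Primrec₂.natPair.comp (Primrec.const _)
    (Primrec₂.natPair.comp (Primrec₂.natPair.comp (Primrec.const _)
      (Primrec₂.natPair.comp (Primrec.const _) primrec_num)) (Primrec.const _)))))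

/-- the variable map -/
def gmap : Fin 2 ⊕ ℕ → Empty ⊕ Fin 3
  | .inl 0 => .inr 0
  | .inl 1 => .inr 1
  | .inr _ => .inr 2

theorem realize_sig {F : Type} [Group F] (R : F × F → (ℕ → F) → Prop)
    (φ : LGrp.Formula (Fin 2 ⊕ ℕ))
    (hφ : ∀ (i : F × F) (v : ℕ → F), φ.Realize (Sum.elim (pr F i) v) ↔ R i v) (n : ℕ) :
    F ⊨ sig (BoundedFormula.relabel (n := 3) gmap φ) n ↔
      ∀ (i : F × F) (t : F), t = i.2 ^ n → R i (fun _ => t) := by
  unfold sig Sentence.Realize Formula.Realize
  rw [BoundedFormula.realize_all]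
  simp only [BoundedFormula.realize_all, BoundedFormula.realize_imp]
  have key : ∀ (v0 : Empty → F) (x0 : Fin 0 → F) (a b c : F),
      (BoundedFormula.relabel (n := 3) gmap φ : LGrp.BoundedFormula Empty 3).Realize v0
        (Fin.snoc (Fin.snoc (Fin.snoc x0 a : Fin 1 → F) b : Fin 2 → F) c : Fin 3 → F) ↔
      R (a, b) (fun _ => c) := by
    intro v0 x0 a b c
    rw [BoundedFormula.realize_relabel, ← hφ]
    have h1 : (Sum.elim v0 ((Fin.snoc (Fin.snoc (Fin.snoc x0 a : Fin 1 → F) b : Fin 2 → F) c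
        : Fin 3 → F) ∘ Fin.castAdd 0) ∘ gmap) =
        Sum.elim (pr F (a, b)) (fun _ => c) := by
      funext s
      rcases s with e | k
      · fin_cases e <;> rfl
      · rfl
    rw [h1]
    unfold Formula.Realize
    exact iff_of_eq (congrArg (BoundedFormula.Realize φ _) (Subsingleton.elim _ _))
  constructor
  · rintro h ⟨a, b⟩ t ht
    refine (key _ _ _ _ _).1 (h a b t ?_)
    show _ = _
    rw [realize_num]
    exact ht
  · intro h a b t ht
    refine (key _ _ _ _ _).2 (h (a, b) t ?_)
    exact Eq.trans (b := _) ht (realize_num n _)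

end aux

/-- Undecidability of the theory of a group in which the naturals are definable with two parameters
(`y0 ^ n` stands for `n`).  `S`, `L` come from the DPRM theorem. -/
theorem exists_red (F : Type) [Group F] (NR : F → F → F → Prop)
    (MR : F → F → F → F → F → Prop)
    (hN : DM LGrp (M := Fm F) (pr F) (fun i v => NR i.1 i.2 (v 0)))
    (hM : DM LGrp (M := Fm F) (pr F) (fun i v => MR i.1 i.2 (v 0) (v 1) (v 2)))
    (x0 y0 : F) (hinj : ∀ m n : ℕ, y0 ^ m = y0 ^ n → m = n)
    (hNat : ∀ u, NR x0 y0 u ↔ ∃ n : ℕ, u = y0 ^ n)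
    (hMul : ∀ a b c : ℕ, MR x0 y0 (y0 ^ a) (y0 ^ b) (y0 ^ c) ↔ c = a * b)
    (S : ℕ → Prop) (L : List At)
    (hL : ∀ n, S n ↔ ∃ x : ℕ → ℕ, x 0 = n ∧ ∀ c ∈ L, At.Holds x c) :
    ∃ Φ : LGrp.BoundedFormula Empty 3, ∀ n : ℕ, F ⊨ sig Φ n ↔ S n := by
  obtain ⟨φ, hφ⟩ := DM.imp (dm_Ax F NR MR hN hM) (dm_Psi F NR MR hN hM L (bndL L))
  set Φ : LGrp.BoundedFormula Empty 3 := Language.BoundedFormula.relabel (n := 3) gmap φ with hΦd
  have hΦ : ∀ n : ℕ, F ⊨ sig Φ n ↔ S n := by
    intro n
    rw [hΦd, realize_sig (fun i v => Ax F NR MR i.1 i.2 → Psi F NR MR L (bndL L) i.1 i.2 v) φ hφ n,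
      ← psi_iff F NR MR x0 y0 hinj hNat hMul S L hL n]
    constructor
    · intro h i v hv hax
      obtain ⟨w, hw, h1, h2, h3⟩ := h i (v 0) hv hax
      -- replace the tail of `w`
      refine ⟨fun j => if j < bndL L then w j else v (j - bndL L), ?_, ?_, ?_, ?_⟩
      · intro m
        simp only
        rw [if_neg (by omega), Nat.add_sub_cancel]
      · intro j hj
        simp only
        rw [if_pos (List.mem_range.1 hj)]
        exact h1 j hj
      · simp only
        rw [if_pos (by unfold bndL; omega), if_neg (by omega), Nat.sub_self, h2]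
        have := hw 0
        rwa [Nat.zero_add] at this
      · intro c hcL
        have hb := bnd_le hcL
        have h4 := h3 c hcL
        cases c with
        | one j =>
          simp only [bnd] at hb
          simp only [HtA] at h4 ⊢
          rw [if_pos (by omega)]
          exact h4
        | add j k l =>
          simp only [bnd] at hb
          simp only [HtA] at h4 ⊢
          rw [if_pos (by omega), if_pos (by omega), if_pos (by omega)]
          exact h4
        | mul j k l =>
          simp only [bnd] at hb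
          simp only [HtA] at h4 ⊢
          rw [if_pos (by omega), if_pos (by omega), if_pos (by omega)]
          exact h4
    · intro h i t ht hax
      exact h i (fun _ => t) ht hax
  exact ⟨Φ, hΦ⟩

/-- Undecidability of the theory of a group in which the naturals are definable with two parameters
(`y0 ^ n` stands for `n`).  `S`, `L` come from the DPRM theorem. -/
theorem undec_of_interp (F : Type) [Group F] (NR : F → F → F → Prop)
    (MR : F → F → F → F → F → Prop)
    (hN : DM LGrp (M := Fm F) (pr F) (fun i v => NR i.1 i.2 (v 0)))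
    (hM : DM LGrp (M := Fm F) (pr F) (fun i v => MR i.1 i.2 (v 0) (v 1) (v 2)))
    (x0 y0 : F) (hinj : ∀ m n : ℕ, y0 ^ m = y0 ^ n → m = n)
    (hNat : ∀ u, NR x0 y0 u ↔ ∃ n : ℕ, u = y0 ^ n)
    (hMul : ∀ a b c : ℕ, MR x0 y0 (y0 ^ a) (y0 ^ b) (y0 ^ c) ↔ c = a * b)
    (S : ℕ → Prop) (hS : ¬ ComputablePred S) (L : List At)
    (hL : ∀ n, S n ↔ ∃ x : ℕ → ℕ, x 0 = n ∧ ∀ c ∈ L, At.Holds x c) :
    ¬ ∃ f : ℕ → Bool, Computable f ∧ ∀ φ : LGrp.Sentence, f (code φ) = true ↔ F ⊨ φ := by
  rintro ⟨f, hf, hfe⟩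
  obtain ⟨Φ, hΦ⟩ := exists_red F NR MR hN hM x0 y0 hinj hNat hMul S L hL
  apply hS
  refine ComputablePred.computable_iff.2 ⟨fun n => f (code (sig Φ n)),
    hf.comp (primrec_sig Φ).to_comp, ?_⟩
  funext n
  apply propext
  rw [← hΦ n]
  exact (hfe _).symm

end Pool.Agent.Helper948.ProP.F4b
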