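import Mathlib
import Pool.Agent.Helper948.ProP.Defs
import Pool.Agent.Helper948.ProP.Lang
import Pool.Agent.Helper948.ProP.B1
import Pool.Agent.Helper948.ProP.B2
import Pool.Agent.Helper948.ProP.Ex
import Pool.Agent.Helper948.ProP.E2
import Pool.Agent.Helper948.ProP.E3
import Pool.Agent.Helper948.ProP.F2
import Pool.Agent.Helper948.ProP.F3
import Pool.Agent.Helper948.ProP.F4a
import Pool.Agent.Helper948.ProP.F4b

set_option autoImplicit false

/-! Assembly: the theory of a free pro-`p` group of rank at least `2` is undecidable. -/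

namespace Pool.Agent.Helper948.ProP

open FirstOrder Nat.Partrec

theorem finFree (p : ℕ) [Fact p.Prime] {X F : Type} [Group F] [TopologicalSpace F] (ι : X → F)
    (h : IsFreeProP p ι) : FinFree p ι := by
  obtain ⟨h1, h2, h3, h4⟩ := B1.finFree_basic p ι h
  exact
    { ex := h1
      uq := h2
      fin := h3
      sep := h4
      cmpP := fun x y g w hyp => B2.cmpP p h.proP x y g w hyp
      cmpK := fun x y g w hyp => B2.cmpK p h.proP x y g w hyp }

theorem chain_iff (p : ℕ) [Fact p.Prime] {X F : Type} [Group F] [TopologicalSpace F]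
    (ι : X → F) (hF : FinFree p ι) (z0 z1 : X) (hz : z0 ≠ z1) (α : ℕ) (hα : 1 ≤ α) (u : F) :
    Chain p (ι z0) (ι z1) (ι z1 ^ α) u ↔ ∃ n : ℕ, 1 ≤ n ∧ u = ι z1 ^ (α * n) := by
  constructor
  · exact E2.chain_sound p ι hF z0 z1 hz α hα u
  · rintro ⟨n, hn, rfl⟩
    exact E3.chain_complete p ι hF z0 z1 hz α hα n hn

/-- the halting set as a set of naturals -/
def HaltS (n : ℕ) : Prop := (Code.eval (Denumerable.ofNat Code n) 0).Dom

theorem haltS_re : REPred HaltS := by
  have h := ComputablePred.halting_problem_re 0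
  exact Partrec.comp h (Computable.ofNat Code)

theorem haltS_not_computable : ¬ ComputablePred HaltS := by
  intro h
  refine ComputablePred.halting_problem 0 ?_
  obtain ⟨f, hf, hfe⟩ := ComputablePred.computable_iff.1 h
  refine ComputablePred.computable_iff.2 ⟨fun c => f (Encodable.encode c),
    hf.comp Computable.encode, ?_⟩
  funext c
  have := congrFun hfe (Encodable.encode c)
  rw [← this]
  simp [HaltS]

/-- the theory of a free pro-`p` group of rank at least two is undecidable -/
theorem undecidable (p : ℕ) [Fact p.Prime] {X F : Type} [Group F] [TopologicalSpace F]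
    (ι : X → F) (h : IsFreeProP p ι) (a b : X) (hab : a ≠ b) :
    ¬ ∃ f : ℕ → Bool, Computable f ∧ ∀ φ : LGrp.Sentence, f (code φ) = true ↔ F ⊨ φ := by
  have hF := finFree p ι h
  have hch := chain_iff p ι hF a b hab
  have hinj := E2.pow_inj p ι hF b
  obtain ⟨L, hL⟩ := F4a.exists_atoms haltS_re
  exact F4b.undec_of_interp F (NatR p) (MulR p) (F2.dm_nat F p) (F2.dm_mul F p) (ι a) (ι b) hinj
    (F3.nat_exact p (ι a) (ι b) hinj hch) (F3.mul_exact p (ι a) (ι b) hinj hch)
    HaltS haltS_not_computable L hL

end Pool.Agent.Helper948.ProP
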